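import Mathlib
import Pool.Agent.N753.DR.Stm7
import Pool.Agent.N225.PC.ProxM
import Pool.Agent.N572.DR.Diag
import Pool.Agent.N130.PC.Cnt

/-!
# Project PC: one exceptional set for countably many conditions on tuples
-/

set_option autoImplicit false

namespace Pool.Agent.V8H31.PC

open NumberField IsDedekindDomain Module Polynomial Pool.Agent.N753.DR

section

variable {K : Type} [Field K] [NumberField K] {m : ℕ}

/-- the exponent -/
noncomputable def DD (r : Fin m → ℕ) : ℝ := ∑ i, (r i : ℝ) * (r i + 1)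

theorem DD_nonneg (r : Fin m → ℕ) : 0 ≤ DD r :=
  Finset.sum_nonneg fun i _ => by positivity

theorem DD_pos (hm : 0 < m) (r : Fin m → ℕ) (hr : ∀ i, 1 ≤ r i) : 0 < DD r := by
  unfold DD
  refine Finset.sum_pos (fun i _ => ?_) ⟨⟨0, hm⟩, Finset.mem_univ _⟩
  have : (1 : ℝ) ≤ r i := by exact_mod_cast hr i
  positivity

theorem ht_count (r : Fin m → ℕ) (hr : ∀ i, 1 ≤ r i) : ∃ C : ℝ, 0 < C ∧ ∀ T : ℝ, 0 ≤ T →
    {P : Fin m → K[X] | HT r T P}.Finite ∧
    ({P : Fin m → K[X] | HT r T P}.ncard : ℝ) ≤ C * Real.exp (DD r * T) := by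
  classical
  choose D hD hfin using fun k => Pool.Agent.N130.PC.Cnt.t K (r k) (hr k)
  refine ⟨∏ k, D k, Finset.prod_pos fun k _ => hD k, fun T hT => ?_⟩
  have hU : ∀ k, 0 ≤ (r k : ℝ) * T := fun k => by positivity
  have hHf : ∀ k, {p : K[X] | AtH (r k) (r k * T) p}.Finite := fun k => (hfin k _ (hU k)).1
  have hF : {P : Fin m → K[X] | HT r T P}.Finite :=
    Pool.Agent.N225.PC.ht_finite Pool.Agent.N130.PC.Cnt.t K r hr T hT
  refine ⟨hF, ?_⟩
  rw [Set.ncard_eq_toFinset_card _ hF]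
  have h5 : hF.toFinset ⊆ Fintype.piFinset fun k => (hHf k).toFinset := by
    intro P hP
    rw [Set.Finite.mem_toFinset] at hP
    rw [Fintype.mem_piFinset]
    intro k
    rw [Set.Finite.mem_toFinset]
    exact hP k
  have h7 := Finset.card_le_card h5
  rw [Fintype.card_piFinset] at h7
  calc (hF.toFinset.card : ℝ) ≤ ((∏ k, (hHf k).toFinset.card : ℕ) : ℝ) := by exact_mod_cast h7
    _ = ∏ k, ((hHf k).toFinset.card : ℝ) := by push_cast; rfl
    _ ≤ ∏ k, (D k * Real.exp ((r k : ℝ) * (r k + 1) * T)) := by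
        refine Finset.prod_le_prod (fun k _ => Nat.cast_nonneg _) fun k _ => ?_
        have h8 := (hfin k _ (hU k)).2
        rw [Set.ncard_eq_toFinset_card _ (hHf k)] at h8
        refine h8.trans (le_of_eq ?_)
        congr 2
        ring
    _ = _ := by
        rw [Finset.prod_mul_distrib, ← Real.exp_sum, ← Finset.sum_mul]
        rfl

/-- **one exceptional set for countably many conditions** -/
theorem diagT (hm : 0 < m) (r : Fin m → ℕ) (hr : ∀ i, 1 ≤ r i) (J : Type) [Countable J]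
    (cond : J → ℝ → (Fin m → K[X]) → Prop)
    (hanti : ∀ j T T' P, T ≤ T' → cond j T' P → cond j T P)
    (hcount : ∀ j, ∃ ν C : ℝ, 0 < ν ∧ ∀ U : ℝ, 0 ≤ U →
      ({P | cond j (U / 2) P ∧ HT r U P}.ncard : ℝ) ≤ C * Real.exp ((DD r - ν) * U)) :
    ∃ E : Set (Fin m → K[X]), (∀ T : ℝ, 0 ≤ T → {P | P ∈ E ∧ HT r T P}.Finite ∧
      ({P | P ∈ E ∧ HT r T P}.ncard : ℝ) ≤ Real.exp (DD r * T - √T)) ∧
    ∀ j, ∃ U : ℝ, 0 ≤ U ∧ ∀ P, P ∉ E → ∀ T, HT r T P → ¬ HT r (T / 2) P → cond j T P →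
      HT r U P := by
  obtain ⟨C₀, hC₀, h₀⟩ := ht_count (K := K) r hr
  have hD := DD_pos hm r hr
  obtain ⟨E, hE1, hE2⟩ := Pool.Agent.N572.DR.Diag.t (Fin m → K[X]) J (fun U P => HT r U P)
    (fun U U' P h hP => Pool.Agent.N225.PC.ht_mono K r h hP)
    (fun j P => ∃ T, HT r T P ∧ ¬ HT r (T / 2) P ∧ cond j T P) (DD r) hD (by
      intro j
      obtain ⟨ν, C, hν, hC⟩ := hcount j
      refine ⟨min ν (DD r / 2), |C| + C₀, lt_min hν (by positivity), fun U hU => ?_⟩
      have hfU := (h₀ U hU).1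
      have hsub : {P | (∃ T, HT r T P ∧ ¬ HT r (T / 2) P ∧ cond j T P) ∧ HT r U P} ⊆
          {P | cond j (U / 2) P ∧ HT r U P} ∪ {P | HT r (U / 2) P} := by
        rintro P ⟨⟨T, h1, h2, h3⟩, h4⟩
        by_cases h5 : HT r (U / 2) P
        · exact Or.inr h5
        · left
          refine ⟨hanti j _ T P ?_ h3, h4⟩
          by_contra h6
          rw [not_le] at h6
          exact h5 (Pool.Agent.N225.PC.ht_mono K r h6.le h1)
      have hf1 : {P | cond j (U / 2) P ∧ HT r U P}.Finite := hfU.subset fun P hP => hP.2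
      have hf2 := h₀ (U / 2) (by positivity)
      refine ⟨hfU.subset fun P hP => hP.2, ?_⟩
      have h6 : ({P | (∃ T, HT r T P ∧ ¬ HT r (T / 2) P ∧ cond j T P) ∧ HT r U P}.ncard : ℝ) ≤
          ({P | cond j (U / 2) P ∧ HT r U P}.ncard : ℝ) + ({P : Fin m → K[X] | HT r (U / 2) P}.ncard : ℝ) := by
        exact_mod_cast (Set.ncard_le_ncard hsub (hf1.union hf2.1)).trans (Set.ncard_union_le _ _)
      refine h6.trans ((add_le_add (hC U hU) hf2.2).trans ?_)
      rw [add_mul]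
      refine add_le_add ?_ ?_
      · refine mul_le_mul (le_abs_self _) (Real.exp_le_exp.2 ?_) (Real.exp_pos _).le (abs_nonneg _)
        refine mul_le_mul_of_nonneg_right ?_ hU
        have := min_le_left ν (DD r / 2)
        linarith
      · refine mul_le_mul_of_nonneg_left (Real.exp_le_exp.2 ?_) hC₀.le
        have := min_le_right ν (DD r / 2)
        have h8 : DD r * (U / 2) = (DD r / 2) * U := by ring
        rw [h8]
        refine mul_le_mul_of_nonneg_right ?_ hU
        linarith)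
  refine ⟨E, hE1, fun j => ?_⟩
  obtain ⟨U, hU, h⟩ := hE2 j
  exact ⟨U, hU, fun P hP T h1 h2 h3 => h P hP ⟨T, h1, h2, h3⟩⟩

end

end Pool.Agent.V8H31.PC
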