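import Mathlib
import Pool.Agent.V8H31.PC.DiagT
import Pool.Agent.N572.DR.Inv

/-!
# Project PC: the heights of the coordinates
-/

set_option autoImplicit false

namespace Pool.Agent.V8H31.PC

open NumberField IsDedekindDomain Module Polynomial Pool.Agent.N753.DR
open Height (logHeight₁ zero_le_logHeight₁)
open IntermediateField (AdjoinSimple.gen)

theorem gen_ht {K L : Type} [Field K] [NumberField K] [Field L] [NumberField L] [Algebra K L]
    (t : L) : logHeight₁ t =
    finrank (IntermediateField.adjoin K {t}) L * logHeight₁ (AdjoinSimple.gen K t) := by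
  have h := Pool.Agent.N572.DR.Inv.ht_ext (M := L) (AdjoinSimple.gen K t)
  rw [← h]
  rfl

theorem gen_top {K L : Type} [Field K] [NumberField K] [Field L] [NumberField L] [Algebra K L]
    (t : L) : IntermediateField.adjoin K {AdjoinSimple.gen K t} = ⊤ := by
  have hfd : FiniteDimensional K L := FiniteDimensional.right ℚ K L
  rw [Field.primitive_element_iff_minpoly_natDegree_eq, IntermediateField.minpoly_gen,
    IntermediateField.adjoin.finrank (IsIntegral.of_finite K t)]

section

variable {K L : Type} [Field K] [NumberField K] [Field L] [NumberField L] [Algebra K L]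

theorem finrank_gen (t : L) :
    (minpoly K t).natDegree = finrank K (IntermediateField.adjoin K {t}) := by
  have hfd : FiniteDimensional K L := FiniteDimensional.right ℚ K L
  rw [IntermediateField.adjoin.finrank (IsIntegral.of_finite K t)]

theorem natDegree_gen (t : L) :
    (minpoly K (AdjoinSimple.gen K t)).natDegree =
      finrank K (IntermediateField.adjoin K {t}) := by
  rw [IntermediateField.minpoly_gen, finrank_gen]

theorem tower3 (t : L) : (finrank ℚ L : ℝ) =
    finrank ℚ K * (minpoly K t).natDegree * finrank (IntermediateField.adjoin K {t}) L := by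
  have h1 := finrank_mul_finrank ℚ K L
  have h2 := finrank_mul_finrank K (IntermediateField.adjoin K {t}) L
  rw [finrank_gen, ← h1, ← h2]
  push_cast
  ring

/-- the height condition in terms of the height over `L` -/
theorem atH_iff {r : ℕ} (hr : 1 ≤ r) (t : L) (ht : (minpoly K t).natDegree = r) (U : ℝ) :
    AtH r (r * U) (minpoly K t) ↔ finrank ℚ K * logHeight₁ t ≤ U * finrank ℚ L := by
  have hr0 : (0 : ℝ) < r := by exact_mod_cast hr
  have hd0 : (0 : ℝ) < finrank ℚ K := by exact_mod_cast finrank_pos
  have hF0 : (0 : ℝ) < finrank (IntermediateField.adjoin K {t}) L := by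
    have : FiniteDimensional (IntermediateField.adjoin K {t}) L :=
      FiniteDimensional.right ℚ (IntermediateField.adjoin K {t}) L
    exact_mod_cast finrank_pos (R := IntermediateField.adjoin K {t}) (M := L)
  have h1 := gen_ht (K := K) t
  have h2 := tower3 (K := K) t
  rw [ht] at h2
  have key : (finrank ℚ K * logHeight₁ t ≤ U * finrank ℚ L) ↔
      logHeight₁ (AdjoinSimple.gen K t) ≤ r * U := by
    rw [h1, h2]
    have e1 : (finrank ℚ K : ℝ) * (finrank (IntermediateField.adjoin K {t}) L *
        logHeight₁ (AdjoinSimple.gen K t)) =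
        (finrank ℚ K * finrank (IntermediateField.adjoin K {t}) L) *
          logHeight₁ (AdjoinSimple.gen K t) := by ring
    have e2 : U * ((finrank ℚ K : ℝ) * r * finrank (IntermediateField.adjoin K {t}) L) =
        (finrank ℚ K * finrank (IntermediateField.adjoin K {t}) L) * (r * U) := by ring
    rw [e1, e2]
    exact mul_le_mul_iff_right₀ (by positivity)
  rw [key]
  constructor
  · rintro ⟨M, _, _, _, x, h3, h4, h5, h6⟩
    have h7 := Pool.Agent.N572.DR.Inv.ht_inv (AdjoinSimple.gen K t) x (natDegree_gen t)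
      (h4.trans h3.symm) (by rw [IntermediateField.minpoly_gen]; exact h5.symm)
    rw [h7]
    exact h6
  · intro h
    have : NumberField (IntermediateField.adjoin K {t}) := inferInstance
    exact ⟨IntermediateField.adjoin K {t}, inferInstance, this, inferInstance,
      AdjoinSimple.gen K t, by rw [← finrank_gen, ht], by rw [IntermediateField.minpoly_gen, ht],
      by rw [IntermediateField.minpoly_gen], h⟩

theorem HT_iff {m : ℕ} {r : Fin m → ℕ} (hr : ∀ i, 1 ≤ r i) (x : Fin m → L)
    (hx : ∀ i, (minpoly K (x i)).natDegree = r i) (U : ℝ) :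
    HT r U (fun i => minpoly K (x i)) ↔
      ∀ i, finrank ℚ K * logHeight₁ (x i) ≤ U * finrank ℚ L :=
  forall_congr' fun i => atH_iff (hr i) (x i) (hx i) U

/-- the height of a tuple -/
theorem exists_T {m : ℕ} (hm : 0 < m) {r : Fin m → ℕ} (hr : ∀ i, 1 ≤ r i) (x : Fin m → L)
    (hx : ∀ i, (minpoly K (x i)).natDegree = r i) :
    ∃ T : ℝ, 0 ≤ T ∧ HT r T (fun i => minpoly K (x i)) ∧
      (0 < T → ¬ HT r (T / 2) (fun i => minpoly K (x i))) ∧
      T * finrank ℚ L ≤ finrank ℚ K * ∑ i, logHeight₁ (x i) := by
  have : Nonempty (Fin m) := ⟨⟨0, hm⟩⟩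
  obtain ⟨i₀, hi₀⟩ := Finite.exists_max fun i => logHeight₁ (x i)
  have hL0 : (0 : ℝ) < finrank ℚ L := by exact_mod_cast finrank_pos
  have hd0 : (0 : ℝ) < finrank ℚ K := by exact_mod_cast finrank_pos
  obtain ⟨T, hT⟩ : ∃ T : ℝ, T = finrank ℚ K * logHeight₁ (x i₀) / finrank ℚ L := ⟨_, rfl⟩
  have hT2 : T * finrank ℚ L = finrank ℚ K * logHeight₁ (x i₀) := by
    rw [hT, div_mul_cancel₀ _ hL0.ne']
  have h0 : 0 ≤ T := by
    rw [hT]
    have := zero_le_logHeight₁ (x i₀)
    positivity
  refine ⟨T, h0, ?_, ?_, ?_⟩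
  · rw [HT_iff hr x hx, hT2]
    intro i
    exact mul_le_mul_of_nonneg_left (hi₀ i) hd0.le
  · intro hT0 h
    rw [HT_iff hr x hx] at h
    have h1 := h i₀
    rw [← hT2] at h1
    have h2 : 0 < T * finrank ℚ L := by positivity
    have h3 : T / 2 * finrank ℚ L = T * finrank ℚ L / 2 := by ring
    rw [h3] at h1
    linarith
  · rw [hT2]
    refine mul_le_mul_of_nonneg_left ?_ hd0.le
    exact Finset.single_le_sum (f := fun i => logHeight₁ (x i))
      (fun i _ => zero_le_logHeight₁ _) (Finset.mem_univ i₀)

end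

end Pool.Agent.V8H31.PC
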