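import Mathlib
import Pool.Agent.V8H31.PC.Hts
import Pool.Agent.N415.DR.VK
import Pool.Agent.N901.PC.Comb

/-!
# Project PC: local lemmas
-/

set_option autoImplicit false
set_option linter.unusedSectionVars false

namespace Pool.Agent.V8H31.PC

open NumberField IsDedekindDomain Module Polynomial Pool.Agent.N753.DR
open Height (logHeight₁ zero_le_logHeight₁)
open IntermediateField (AdjoinSimple.gen)

section

variable {k : Type} [Field k] [NumberField k]

/-- the coefficients of a polynomial are integral at almost all primes -/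
theorem den_const (c : k) : ∃ n : ℕ, n ≠ 0 ∧
    ∀ (M : Type) [Field M] [NumberField M] [Algebra k M] (w : HeightOneSpectrum (𝓞 M)),
      (n : 𝓞 M) ∉ w.asIdeal → w.valuation M (algebraMap k M c) ≤ 1 := by
  by_cases hc : c = 0
  · refine ⟨1, one_ne_zero, fun M _ _ _ w _ => ?_⟩
    rw [hc, map_zero, map_zero]
    exact zero_le_one
  · obtain ⟨n, hn, h⟩ := Pool.Agent.N415.DRVK.sep (inv_ne_zero hc)
    refine ⟨n, hn, fun M _ _ _ w hw => ?_⟩
    have h1 := h M w hw
    rw [map_inv₀, map_inv₀, not_lt] at h1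
    have h2 : w.valuation M (algebraMap k M c) ≠ 0 := by
      rw [Ne, map_eq_zero, map_eq_zero]
      exact hc
    by_contra h3
    rw [not_le] at h3
    have h4 := (inv_lt_one₀ (zero_lt_iff.2 h2)).2 h3
    exact absurd h1 (not_le.2 h4)

theorem den (H : k[X]) : ∃ n : ℕ, n ≠ 0 ∧
    ∀ (M : Type) [Field M] [NumberField M] [Algebra k M] (w : HeightOneSpectrum (𝓞 M)) (x : M),
      (n : 𝓞 M) ∉ w.asIdeal → w.valuation M x ≤ 1 → w.valuation M (aeval x H) ≤ 1 := by
  classical
  choose c hc0 hc using fun i => den_const (H.coeff i)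
  refine ⟨∏ i ∈ Finset.range (H.natDegree + 1), c i, Finset.prod_ne_zero_iff.2 fun i _ => hc0 i, ?_⟩
  intro M _ _ _ w x hw hx
  rw [aeval_eq_sum_range]
  refine Valuation.map_sum_le _ fun i hi => ?_
  rw [Algebra.smul_def, map_mul, map_pow]
  have h1 : (c i : 𝓞 M) ∉ w.asIdeal := by
    intro h
    apply hw
    obtain ⟨d, hd⟩ := Finset.dvd_prod_of_mem c hi
    rw [hd, Nat.cast_mul]
    exact Ideal.mul_mem_right _ _ h
  exact mul_le_one' (hc i M w h1) (pow_le_one' hx i)

/-- near a point `a` is near a zero of its minimal polynomial over `K` -/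
theorem near_poly {K : Type} [Field K] [NumberField K] [Algebra K k] (a : k) : ∃ n : ℕ, n ≠ 0 ∧
    ∀ (M : Type) [Field M] [NumberField M] [Algebra K M] [Algebra k M] [IsScalarTower K k M]
      (w : HeightOneSpectrum (𝓞 M)) (x : M),
      (n : 𝓞 M) ∉ w.asIdeal → w.valuation M x ≤ 1 → w.valuation M (x - algebraMap k M a) < 1 →
      w.valuation M (aeval x (minpoly K a)) < 1 := by
  have hfd : FiniteDimensional K k := Module.Finite.of_restrictScalars_finite ℚ K k
  obtain ⟨H, hH⟩ : (X - C a) ∣ (minpoly K a).map (algebraMap K k) := by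
    rw [dvd_iff_isRoot, IsRoot, eval_map_algebraMap, minpoly.aeval]
  obtain ⟨n, hn, h⟩ := den H
  refine ⟨n, hn, fun M _ _ _ _ _ w x hw hx hxa => ?_⟩
  have h1 : aeval x (minpoly K a) = aeval x ((minpoly K a).map (algebraMap K k)) :=
    (aeval_map_algebraMap k x _).symm
  rw [h1, hH, map_mul, map_sub, aeval_X, aeval_C, map_mul]
  have h2 := h M w x hw hx
  calc w.valuation M (x - algebraMap k M a) * w.valuation M (aeval x H) ≤
      w.valuation M (x - algebraMap k M a) * 1 := mul_le_mul' le_rfl h2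
    _ < 1 := by rw [mul_one]; exact hxa

/-- the roots of a given polynomial have bounded height -/
theorem bddQ (G : ℚ[X]) (hG : G ≠ 0) : ∃ C : ℝ, 0 ≤ C ∧
    ∀ (M : Type) [Field M] [NumberField M] (t : M), aeval t G = 0 →
      logHeight₁ t ≤ finrank ℚ M * C := by
  classical
  have key : ∀ p : ℚ[X], ∃ C : ℝ, 0 ≤ C ∧
    ∀ (M : Type) [Field M] [NumberField M] (t : M),
      (minpoly ℚ t).natDegree = finrank ℚ M → minpoly ℚ t = p → logHeight₁ t ≤ C := by
    intro p
    by_cases hp : ∃ (M : Type) (_ : Field M) (_ : NumberField M) (t : M),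
        (minpoly ℚ t).natDegree = finrank ℚ M ∧ minpoly ℚ t = p
    · obtain ⟨M, _, _, t, h1, h2⟩ := hp
      refine ⟨logHeight₁ t, zero_le_logHeight₁ t, ?_⟩
      intro M' _ _ t' h3 h4
      exact (Pool.Agent.N572.DR.Inv.ht_inv t' t h3 h1 (h4.trans h2.symm)).le
    · refine ⟨0, le_rfl, ?_⟩
      intro M _ _ t h1 h2
      exact absurd ⟨M, inferInstance, inferInstance, t, h1, h2⟩ hp
  choose c hc0 hc using key
  set T := (UniqueFactorizationMonoid.normalizedFactors G).toFinset with hT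
  refine ⟨∑ p ∈ T, c p, Finset.sum_nonneg fun p _ => hc0 p, ?_⟩
  intro M _ _ t h2
  have hint : IsIntegral ℚ t := IsIntegral.of_finite ℚ t
  have hmem : minpoly ℚ t ∈ T := by
    rw [hT, Multiset.mem_toFinset, Polynomial.mem_normalizedFactors_iff hG]
    exact ⟨minpoly.irreducible hint, minpoly.monic hint, minpoly.dvd ℚ t h2⟩
  have h3 := Finset.single_le_sum (fun p (_ : p ∈ T) => hc0 p) hmem
  have h4 := gen_ht (K := ℚ) t
  have h5 := hc (minpoly ℚ t) (IntermediateField.adjoin ℚ {t}) (AdjoinSimple.gen ℚ t)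
    (natDegree_gen t) (IntermediateField.minpoly_gen ℚ t)
  have h6 : (finrank (IntermediateField.adjoin ℚ {t}) M : ℝ) ≤ finrank ℚ M := by
    have e1 := finrank_mul_finrank ℚ (IntermediateField.adjoin ℚ {t}) M
    have e2 : 0 < finrank ℚ (IntermediateField.adjoin ℚ {t}) := finrank_pos
    have e3 : finrank (IntermediateField.adjoin ℚ {t}) M ≤ finrank ℚ M := by
      rw [← e1]
      exact Nat.le_mul_of_pos_left _ e2
    exact_mod_cast e3
  rw [h4]
  exact mul_le_mul h6 (h5.trans h3) (zero_le_logHeight₁ _) (Nat.cast_nonneg _)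

end

section

variable {M L : Type} [Field M] [NumberField M] [Field L] [NumberField L] [Algebra M L]

theorem val_over {w : HeightOneSpectrum (𝓞 M)} {u : HeightOneSpectrum (𝓞 L)}
    (h : u.asIdeal.LiesOver w.asIdeal) (z : M) :
    (u.valuation L (algebraMap M L z) < 1 ↔ w.valuation M z < 1) ∧
      (u.valuation L (algebraMap M L z) ≤ 1 ↔ w.valuation M z ≤ 1) := by
  have h0 : w.asIdeal.ramificationIdx' u.asIdeal ≠ 0 :=
    Ideal.IsDedekindDomain.ramificationIdx'_ne_zero_of_liesOver u.asIdeal w.ne_bot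
  rw [← HeightOneSpectrum.valuation_liesOver L w u]
  exact ⟨pow_lt_one_iff h0, pow_le_one_iff h0⟩

theorem under_liesOver (u : HeightOneSpectrum (𝓞 L)) :
    u.asIdeal.LiesOver (HeightOneSpectrum.under (𝓞 M) u).asIdeal :=
  ⟨rfl⟩

theorem nat_mem_iff {w : HeightOneSpectrum (𝓞 M)} {u : HeightOneSpectrum (𝓞 L)}
    (h : u.asIdeal.LiesOver w.asIdeal) (p : ℕ) : (p : 𝓞 L) ∈ u.asIdeal ↔ (p : 𝓞 M) ∈ w.asIdeal := by
  rw [h.over, Ideal.under_def, Ideal.mem_comap, map_natCast]

/-- the prime number below a prime -/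
theorem exists_p (u : HeightOneSpectrum (𝓞 L)) : ∃ p : ℕ, p.Prime ∧ (p : 𝓞 L) ∈ u.asIdeal := by
  have h1 : (Ideal.absNorm u.asIdeal : 𝓞 L) ∈ u.asIdeal := Ideal.absNorm_mem _
  have h2 : Ideal.absNorm u.asIdeal ≠ 0 := by
    rw [Ne, Ideal.absNorm_eq_zero_iff]
    exact u.ne_bot
  have key : ∀ n : ℕ, n ≠ 0 → (n : 𝓞 L) ∈ u.asIdeal → ∃ p : ℕ, p.Prime ∧ (p : 𝓞 L) ∈ u.asIdeal := by
    intro n
    induction n using Nat.strong_induction_on with
    | _ n ih =>
      intro hn hmem
      by_cases h1 : n = 1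
      · rw [h1, Nat.cast_one] at hmem
        exact absurd ((Ideal.eq_top_iff_one _).2 hmem) u.isPrime.ne_top
      · obtain ⟨p, hp, hpn⟩ := Nat.exists_prime_and_dvd h1
        obtain ⟨m, rfl⟩ := hpn
        rw [Nat.cast_mul] at hmem
        rcases u.isPrime.mem_or_mem hmem with h | h
        · exact ⟨p, hp, h⟩
        · have hm0 : m ≠ 0 := fun h0 => hn (by rw [h0, mul_zero])
          refine ih m ?_ hm0 h
          have := hp.two_le
          nlinarith [Nat.pos_of_ne_zero hm0]
  exact key _ h2 h1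

end

end Pool.Agent.V8H31.PC
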