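import Mathlib
import Pool.Agent.V8H31.PC.Loc
import Pool.Agent.N752.HY.Ext

/-!
# Project PC: the combination of the bounds for the coordinates
-/

set_option autoImplicit false
set_option linter.unusedSectionVars false

namespace Pool.Agent.V8H31.PC

open NumberField IsDedekindDomain Module Polynomial Pool.Agent.N753.DR
open Height (logHeight₁ zero_le_logHeight₁)
open IntermediateField (AdjoinSimple.gen)

/-- the point meets one of the `a_j` at the prime `w` -/
def NearA {k M : Type} [Field k] [NumberField k] [Field M] [NumberField M] [Algebra k M]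
    (S : Finset ℕ) {q : ℕ} (a : Fin q → k) (x : M) (w : HeightOneSpectrum (𝓞 M)) : Prop :=
  (∀ p ∈ S, (p : 𝓞 M) ∉ w.asIdeal) ∧ w.valuation M x ≤ 1 ∧
    ∃ j, w.valuation M (x - algebraMap k M (a j)) < 1

section

variable {k M : Type} [Field k] [NumberField k] [Field M] [NumberField M] [Algebra k M]

theorem nearA_finite (S : Finset ℕ) {q : ℕ} (a : Fin q → k) (x : M)
    (hx : ∀ j, x ≠ algebraMap k M (a j)) : {w | NearA S a x w}.Finite := by
  refine (Set.finite_iUnion fun j => Pool.Agent.N415.DRVK.zeros_finite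
    (sub_ne_zero.2 (hx j))).subset ?_
  rintro w ⟨-, -, j, hj⟩
  exact Set.mem_iUnion.2 ⟨j, hj⟩

theorem nearA_over {L : Type} [Field L] [NumberField L] [Algebra M L] [Algebra k L]
    [IsScalarTower k M L] (S : Finset ℕ) {q : ℕ} (a : Fin q → k) (x : M)
    {w : HeightOneSpectrum (𝓞 M)} {u : HeightOneSpectrum (𝓞 L)}
    (h : u.asIdeal.LiesOver w.asIdeal) :
    NearA S a (algebraMap M L x) u ↔ NearA S a x w := by
  unfold NearA
  refine and_congr (forall₂_congr fun p _ => not_congr (nat_mem_iff h p)) (and_congr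
    (val_over h x).2 (exists_congr fun j => ?_))
  have e : algebraMap M L x - algebraMap k L (a j) = algebraMap M L (x - algebraMap k M (a j)) := by
    rw [map_sub, ← IsScalarTower.algebraMap_apply]
  rw [e]
  exact (val_over h _).1

end

open Classical in
/-- **the combination** -/
theorem combine {k L : Type} [Field k] [NumberField k] [Field L] [NumberField L] [Algebra k L]
    {m : ℕ} (x : Fin m → L) (q : Fin m → ℕ) (a : ∀ i, Fin (q i) → k)
    (hxa : ∀ i j, x i ≠ algebraMap k L (a i j)) (good : Fin m → Prop) (S₀ : Finset ℕ)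
    (κ : ℝ) (c : Fin m → ℝ) (C₁ : ℝ) (hC₁ : 0 ≤ C₁)
    (D : Fin m → HeightOneSpectrum (𝓞 L) → Prop)
    (hD : ∀ i u, D i u → u.valuation L (x i) ≤ 1 ∧
      ∃ j, u.valuation L (x i - algebraMap k L (a i j)) < 1)
    (H1 : ∀ i, good i → ∀ W : Finset (HeightOneSpectrum (𝓞 (IntermediateField.adjoin k {x i}))),
      (∀ w, NearA S₀ (a i) (AdjoinSimple.gen k (x i)) w → w ∈ W) →
      (q i - κ) * logHeight₁ (AdjoinSimple.gen k (x i)) ≤ ∑ w ∈ W, lN w + C₁)
    (H3 : ∀ i, good i → ∀ (S : Finset ℕ) (W W' : Finset (HeightOneSpectrum (𝓞 L))),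
      (∀ u ∈ W, NearA (S₀ ∪ S) (a i) (x i) u) →
      (∀ u, (∀ p ∈ S, (p : 𝓞 L) ∉ u.asIdeal) → D i u → u ∈ W') →
      ∑ u ∈ W, lN u ≤ ∑ u ∈ W', lN u + c i * logHeight₁ (x i) + finrank ℚ L * C₁)
    (Q : Finset ℕ) (hQ : ∀ p ∈ Q, p.Prime)
    (hQ2 : ∀ i i', i ≠ i' → good i → good i' → ∀ p : ℕ, p.Prime →
      (∃ w, NearA S₀ (a i) (AdjoinSimple.gen k (x i)) w ∧
        (p : 𝓞 (IntermediateField.adjoin k {x i})) ∈ w.asIdeal) →
      (∃ w, NearA S₀ (a i') (AdjoinSimple.gen k (x i')) w ∧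
        (p : 𝓞 (IntermediateField.adjoin k {x i'})) ∈ w.asIdeal) → p ∈ Q)
    (N : Finset (HeightOneSpectrum (𝓞 L))) (hN : ∀ i u, D i u → u ∈ N) :
    ∑ i ∈ Finset.univ.filter good, (q i - κ - c i) * logHeight₁ (x i) ≤
      ∑ u ∈ N, lN u + Real.log |(discr L : ℝ)| +
        m * (finrank ℚ L * ∑ p ∈ Q, Real.log (p : ℝ)) + 2 * m * (finrank ℚ L * C₁) := by
  have hL0 : (0 : ℝ) < finrank ℚ L := by exact_mod_cast finrank_pos
  have hlN : ∀ u : HeightOneSpectrum (𝓞 L), 0 ≤ lN u := fun u => Real.log_natCast_nonneg _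
  have hgen : ∀ i, algebraMap (IntermediateField.adjoin k {x i}) L (AdjoinSimple.gen k (x i)) =
    x i := fun i => rfl
  have hgena : ∀ i j, AdjoinSimple.gen k (x i) ≠
      algebraMap k (IntermediateField.adjoin k {x i}) (a i j) := by
    intro i j h
    apply hxa i j
    have h2 := congrArg (algebraMap (IntermediateField.adjoin k {x i}) L) h
    rw [← IsScalarTower.algebraMap_apply] at h2
    exact h2
  -- the sets
  have hWf : ∀ i, {w | NearA S₀ (a i) (AdjoinSimple.gen k (x i)) w}.Finite := fun i =>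
    nearA_finite S₀ (a i) _ (hgena i)
  have hVf : ∀ i, {u | NearA S₀ (a i) (x i) u}.Finite := fun i =>
    nearA_finite S₀ (a i) _ (hxa i)
  obtain ⟨W, hW⟩ : ∃ W : ∀ i, Finset (HeightOneSpectrum (𝓞 (IntermediateField.adjoin k {x i}))),
    ∀ i, W i = (hWf i).toFinset.filter fun w => good i ∧ ∀ p ∈ Q,
      (p : 𝓞 (IntermediateField.adjoin k {x i})) ∉ w.asIdeal := ⟨_, fun _ => rfl⟩
  have hWm : ∀ i w, w ∈ W i ↔ NearA S₀ (a i) (AdjoinSimple.gen k (x i)) w ∧ good i ∧
      ∀ p ∈ Q, (p : 𝓞 (IntermediateField.adjoin k {x i})) ∉ w.asIdeal := by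
    intro i w
    rw [hW, Finset.mem_filter, Set.Finite.mem_toFinset]
    rfl
  obtain ⟨V, hV⟩ : ∃ V : Fin m → Finset (HeightOneSpectrum (𝓞 L)),
    ∀ i, V i = (hVf i).toFinset.filter fun u => ∃ w ∈ W i, u.asIdeal.LiesOver w.asIdeal :=
    ⟨_, fun _ => rfl⟩
  have hVm : ∀ i u, u ∈ V i ↔ ∃ w ∈ W i, u.asIdeal.LiesOver w.asIdeal := by
    intro i u
    rw [hV, Finset.mem_filter, Set.Finite.mem_toFinset]
    refine ⟨fun h => h.2, fun h => ⟨?_, h⟩⟩
    obtain ⟨w, hw, hu⟩ := h
    have h1 := ((hWm i w).1 hw).1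
    rw [← hgen i]
    exact (nearA_over S₀ (a i) _ hu).2 h1
  -- a prime number below two of the sets is in `Q`
  have hcom : ∀ i i', i ≠ i' → good i → good i' → ∀ u : HeightOneSpectrum (𝓞 L),
      NearA S₀ (a i) (x i) u → NearA S₀ (a i') (x i') u → ∃ p ∈ Q, (p : 𝓞 L) ∈ u.asIdeal := by
    intro i i' hii hi hi' u h1 h2
    obtain ⟨p, hp, hpu⟩ := exists_p u
    refine ⟨p, ?_, hpu⟩
    have key : ∀ i, NearA S₀ (a i) (x i) u →
        ∃ w, NearA S₀ (a i) (AdjoinSimple.gen k (x i)) w ∧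
        (p : 𝓞 (IntermediateField.adjoin k {x i})) ∈ w.asIdeal := by
      intro i h
      have hu := under_liesOver (M := IntermediateField.adjoin k {x i}) u
      refine ⟨_, ?_, (nat_mem_iff hu p).1 hpu⟩
      rw [← hgen i] at h
      exact (nearA_over S₀ (a i) _ hu).1 h
    exact hQ2 i i' hii hi hi' p hp (key i h1) (key i' h2)
  have hVn : ∀ i u, u ∈ V i → NearA S₀ (a i) (x i) u ∧ good i ∧ ∀ p ∈ Q, (p : 𝓞 L) ∉ u.asIdeal := by
    intro i u hu
    obtain ⟨w, hw, hu⟩ := (hVm i u).1 hu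
    obtain ⟨h1, h2, h3⟩ := (hWm i w).1 hw
    refine ⟨?_, h2, fun p hp h => h3 p hp ((nat_mem_iff hu p).1 h)⟩
    rw [← hgen i]
    exact (nearA_over S₀ (a i) _ hu).2 h1
  have hdisj : ∀ i j, i ≠ j → Disjoint (V i) (V j) := by
    intro i j hij
    rw [Finset.disjoint_left]
    intro u hu hu'
    obtain ⟨h1, h2, h3⟩ := hVn i u hu
    obtain ⟨h1', h2', -⟩ := hVn j u hu'
    obtain ⟨p, hp, hpu⟩ := hcom i j hij h2 h2' u h1 h1'
    exact h3 p hp hpu
  have hcomb := Pool.Agent.N901.PC.Comb.t k L m (fun i => IntermediateField.adjoin k {x i}) W V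
    hVm hdisj
  -- the removed primes
  have hrem : ∀ i, good i → (finrank (IntermediateField.adjoin k {x i}) L : ℝ) *
      ∑ w ∈ (hWf i).toFinset, lN w ≤ finrank (IntermediateField.adjoin k {x i}) L *
        ∑ w ∈ W i, lN w + finrank ℚ L * ∑ p ∈ Q, Real.log (p : ℝ) := by
    intro i hi
    have e1 : ∑ w ∈ (hWf i).toFinset, lN w = ∑ w ∈ W i, lN w +
        ∑ w ∈ (hWf i).toFinset.filter (fun w => ¬ (good i ∧ ∀ p ∈ Q,
      (p : 𝓞 (IntermediateField.adjoin k {x i})) ∉ w.asIdeal)), lN w := by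
      rw [hW, Finset.sum_filter_add_sum_filter_not]
    have e2 := Pool.Agent.N752.HY.Ext.sum_above (L := IntermediateField.adjoin k {x i}) Q hQ
      ((hWf i).toFinset.filter (fun w => ¬ (good i ∧ ∀ p ∈ Q,
        (p : 𝓞 (IntermediateField.adjoin k {x i})) ∉ w.asIdeal))) (by
        intro v hv h
        exact (Finset.mem_filter.1 hv).2 ⟨hi, fun p hp => h p hp⟩)
    have e3 : ∑ w ∈ (hWf i).toFinset.filter (fun w => ¬ (good i ∧ ∀ p ∈ Q,
        (p : 𝓞 (IntermediateField.adjoin k {x i})) ∉ w.asIdeal)), lN w ≤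
        finrank ℚ (IntermediateField.adjoin k {x i}) * ∑ p ∈ Q, Real.log (p : ℝ) := e2
    have e4 : (finrank ℚ L : ℝ) = finrank (IntermediateField.adjoin k {x i}) L *
        finrank ℚ (IntermediateField.adjoin k {x i}) := by
      have := finrank_mul_finrank ℚ (IntermediateField.adjoin k {x i}) L
      rw [← this]
      push_cast
      ring
    rw [e1, mul_add, e4]
    have e5 : (0 : ℝ) ≤ finrank (IntermediateField.adjoin k {x i}) L := Nat.cast_nonneg _
    have e6 := mul_le_mul_of_nonneg_left e3 e5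
    linarith
  -- each good factor
  obtain ⟨W', hW'⟩ : ∃ W' : Fin m → Finset (HeightOneSpectrum (𝓞 L)), ∀ i, W' i =
    N.filter fun u => good i ∧ D i u ∧ ∀ p ∈ Q ∪ S₀, (p : 𝓞 L) ∉ u.asIdeal := ⟨_, fun _ => rfl⟩
  have hone : ∀ i, good i → (q i - κ - c i) * logHeight₁ (x i) ≤
      (finrank (IntermediateField.adjoin k {x i}) L * ∑ w ∈ W i, lN w - ∑ u ∈ V i, lN u) +
        ∑ u ∈ W' i, lN u + finrank ℚ L * ∑ p ∈ Q, Real.log (p : ℝ) + 2 * (finrank ℚ L * C₁) := by
    intro i hi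
    have e1 := H1 i hi (hWf i).toFinset (fun w hw => (Set.Finite.mem_toFinset _).2 hw)
    have e0 : (0 : ℝ) ≤ finrank (IntermediateField.adjoin k {x i}) L := Nat.cast_nonneg _
    have e2 := mul_le_mul_of_nonneg_left e1 e0
    have e3 := gen_ht (K := k) (x i)
    have e4 := hrem i hi
    have e5 := H3 i hi (Q ∪ S₀) (V i) (W' i) (by
      intro u hu
      obtain ⟨h1, -, h3⟩ := hVn i u hu
      refine ⟨fun p hp => ?_, h1.2⟩
      rcases Finset.mem_union.1 hp with h | h
      · exact h1.1 p h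
      · rcases Finset.mem_union.1 h with h | h
        · exact h3 p h
        · exact h1.1 p h) (by
      intro u hu hDu
      rw [hW', Finset.mem_filter]
      exact ⟨hN i u hDu, hi, hDu, hu⟩)
    have e6 : (finrank (IntermediateField.adjoin k {x i}) L : ℝ) ≤ finrank ℚ L := by
      have e1 := finrank_mul_finrank ℚ (IntermediateField.adjoin k {x i}) L
      have e2 : 0 < finrank ℚ (IntermediateField.adjoin k {x i}) := finrank_pos
      have e3 : finrank (IntermediateField.adjoin k {x i}) L ≤ finrank ℚ L := by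
        rw [← e1]
        exact Nat.le_mul_of_pos_left _ e2
      exact_mod_cast e3
    have e7 := mul_le_mul_of_nonneg_right e6 hC₁
    have e8 : (q i - κ) * logHeight₁ (x i) = finrank (IntermediateField.adjoin k {x i}) L *
        ((q i - κ) * logHeight₁ (AdjoinSimple.gen k (x i))) := by
      rw [e3]
      ring
    have e9 : (q i - κ - c i) * logHeight₁ (x i) = (q i - κ) * logHeight₁ (x i) -
      c i * logHeight₁ (x i) := by ring
    rw [e9, e8]
    linarith
  have hsum := Finset.sum_le_sum fun i (hi : i ∈ Finset.univ.filter good) =>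
    hone i (Finset.mem_filter.1 hi).2
  refine hsum.trans ?_
  rw [Finset.sum_add_distrib, Finset.sum_add_distrib, Finset.sum_add_distrib,
    Finset.sum_sub_distrib, Finset.sum_const, Finset.sum_const, nsmul_eq_mul, nsmul_eq_mul]
  have hcard : ((Finset.univ.filter good).card : ℝ) ≤ m := by
    have := Finset.card_filter_le (Finset.univ : Finset (Fin m)) good
    rw [Finset.card_univ, Fintype.card_fin] at this
    exact_mod_cast this
  have hQ0 : 0 ≤ ∑ p ∈ Q, Real.log (p : ℝ) := Finset.sum_nonneg fun p _ =>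
    Real.log_natCast_nonneg _
  have hempty : ∀ i, ¬ good i → W i = ∅ := by
    intro i hi
    rw [Finset.eq_empty_iff_forall_notMem]
    intro w hw
    exact hi ((hWm i w).1 hw).2.1
  have hemptyV : ∀ i, ¬ good i → V i = ∅ := by
    intro i hi
    rw [Finset.eq_empty_iff_forall_notMem]
    intro u hu
    exact hi (hVn i u hu).2.1
  have s1 : ∑ i ∈ Finset.univ.filter good, (finrank (IntermediateField.adjoin k {x i}) L : ℝ) *
      ∑ w ∈ W i, lN w = ∑ i, (finrank (IntermediateField.adjoin k {x i}) L : ℝ) *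
        ∑ w ∈ W i, lN w := by
    refine Finset.sum_subset (Finset.filter_subset _ _) fun i _ hi => ?_
    have hi' : ¬ good i := fun h => hi (Finset.mem_filter.2 ⟨Finset.mem_univ _, h⟩)
    rw [hempty i hi', Finset.sum_empty, mul_zero]
  have s2 : ∑ i ∈ Finset.univ.filter good, ∑ u ∈ V i, lN u = ∑ i, ∑ u ∈ V i, lN u := by
    refine Finset.sum_subset (Finset.filter_subset _ _) fun i _ hi => ?_
    have hi' : ¬ good i := fun h => hi (Finset.mem_filter.2 ⟨Finset.mem_univ _, h⟩)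
    rw [hemptyV i hi', Finset.sum_empty]
  have s3 : ∑ i ∈ Finset.univ.filter good, ∑ u ∈ W' i, lN u ≤ ∑ u ∈ N, lN u := by
    rw [← Finset.sum_biUnion]
    · refine Finset.sum_le_sum_of_subset_of_nonneg ?_ fun u _ _ => hlN u
      intro u hu
      obtain ⟨i, -, hi⟩ := Finset.mem_biUnion.1 hu
      rw [hW', Finset.mem_filter] at hi
      exact hi.1
    · intro i hi j hj hij
      rw [Function.onFun, Finset.disjoint_left]
      intro u hu hu'
      rw [hW', Finset.mem_filter] at hu hu'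
      obtain ⟨-, g1, d1, p1⟩ := hu
      obtain ⟨-, g2, d2, -⟩ := hu'
      have key : ∀ i, D i u → NearA S₀ (a i) (x i) u := fun i hi =>
        ⟨fun p hp => p1 p (Finset.mem_union_right _ hp), (hD i u hi).1, (hD i u hi).2⟩
      obtain ⟨p, hp, hpu⟩ := hcom i j hij g1 g2 u (key i d1) (key j d2)
      exact p1 p (Finset.mem_union_left _ hp) hpu
  rw [s1, s2]
  have f1 := mul_le_mul_of_nonneg_right hcard (mul_nonneg hL0.le hQ0)
  have f2 := mul_le_mul_of_nonneg_right hcard (show 0 ≤ 2 * (finrank ℚ L * C₁) by positivity)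
  have f3 : (m : ℝ) * (2 * (finrank ℚ L * C₁)) = 2 * m * (finrank ℚ L * C₁) := by ring
  rw [f3] at f2
  linarith

end Pool.Agent.V8H31.PC
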