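import Mathlib
import Pool.Agent.N753.DR.Stm6
import Pool.Agent.N681.PC.SZ
import Pool.Agent.N787.PC.Gcd

/-!
# PC/MOD: congruence conditions in boxes
-/

set_option autoImplicit false

namespace Pool.Agent.V8H31.PC.Mod

open NumberField IsDedekindDomain Module
open Pool.Agent.N753.DR

section ints

/-- the elements of an interval in a residue class -/
lemma res_card (a : ℤ) (ℓ q : ℕ) (hq : 0 < q) (v : ℤ) :
    (((Finset.Ico a (a + ℓ)).filter fun x => x % q = v % q).card : ℝ) ≤ ℓ / q + 1 := by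
  have hq' : (0 : ℤ) < q := by exact_mod_cast hq
  have h1 : ((Finset.Ico a (a + ℓ)).filter fun x => x % q = v % q) =
      (Finset.Ico a (a + ℓ)).filter fun x => x ≡ v [ZMOD q] := rfl
  have h2 := Int.Ico_filter_modEq_card a (a + ℓ) hq' v
  rw [h1]
  have h3 : (((Finset.Ico a (a + ℓ)).filter fun x => x ≡ v [ZMOD q]).card : ℤ) ≤
      max (⌈((a + ℓ : ℤ) - v) / ((q : ℤ) : ℚ)⌉ - ⌈((a : ℤ) - v) / ((q : ℤ) : ℚ)⌉) 0 := by
    exact_mod_cast h2.le
  have hq'' : (0 : ℚ) < ((q : ℤ) : ℚ) := by exact_mod_cast hq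
  have h4 : (⌈((a + ℓ : ℤ) - v) / ((q : ℤ) : ℚ)⌉ : ℚ) < ((a + ℓ : ℤ) - v) / ((q : ℤ) : ℚ) + 1 :=
    Int.ceil_lt_add_one _
  have h5 : (((a : ℤ) : ℚ) - v) / ((q : ℤ) : ℚ) ≤ ⌈((a : ℤ) - v) / ((q : ℤ) : ℚ)⌉ := Int.le_ceil _
  have h6 : (((⌈((a + ℓ : ℤ) - v) / ((q : ℤ) : ℚ)⌉ - ⌈((a : ℤ) - v) / ((q : ℤ) : ℚ)⌉ : ℤ)) : ℚ) ≤
      (ℓ : ℚ) / q + 1 := by
    push_cast at h4 h5 ⊢
    have : ((a : ℚ) + ℓ - v) / q = ((a : ℚ) - v) / q + ℓ / q := by ring
    linarith
  have h7 : ((max (⌈((a + ℓ : ℤ) - v) / ((q : ℤ) : ℚ)⌉ - ⌈((a : ℤ) - v) / ((q : ℤ) : ℚ)⌉) 0 : ℤ) : ℚ)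
      ≤ (ℓ : ℚ) / q + 1 := by
    rw [Int.cast_max]
    refine max_le h6 ?_
    rw [Int.cast_zero]
    positivity
  have h8 : ((((Finset.Ico a (a + ℓ)).filter fun x => x ≡ v [ZMOD q]).card : ℤ) : ℚ) ≤
      (ℓ : ℚ) / q + 1 := by
    refine le_trans ?_ h7
    exact_mod_cast h3
  have h9 : ((((Finset.Ico a (a + ℓ)).filter fun x => x ≡ v [ZMOD q]).card : ℚ) : ℝ) ≤
      (((ℓ : ℚ) / q + 1 : ℚ) : ℝ) := by
    exact_mod_cast h8
  push_cast at h9
  exact h9

end ints

section

variable (K : Type) [Field K] [NumberField K]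

/-- the index type of the integral basis -/
abbrev Ix : Type := Module.Free.ChooseBasisIndex ℤ (𝓞 K)

variable {K}

lemma card_Ix : Fintype.card (Ix K) = finrank ℚ K := by
  rw [← RingOfIntegers.rank K, finrank_eq_card_chooseBasisIndex]

/-- the box of algebraic integers with coordinates in `I` -/
noncomputable def bx (K : Type) [Field K] [NumberField K] (I : Finset ℤ) : Finset (𝓞 K) :=
  (Fintype.piFinset fun _ : Ix K => I).map
    (RingOfIntegers.basis K).equivFun.symm.toEquiv.toEmbedding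

lemma mem_bx {I : Finset ℤ} {z : 𝓞 K} : z ∈ bx K I ↔ ∀ i, (RingOfIntegers.basis K).repr z i ∈ I := by
  unfold bx
  rw [Finset.mem_map]
  constructor
  · rintro ⟨f, hf, rfl⟩ i
    have h1 := Fintype.mem_piFinset.1 hf i
    have h2 : (RingOfIntegers.basis K).repr
        ((RingOfIntegers.basis K).equivFun.symm f) i = f i := by
      rw [← Basis.equivFun_apply, LinearEquiv.apply_symm_apply]
    rw [← h2] at h1
    exact h1
  · intro h
    refine ⟨fun i => (RingOfIntegers.basis K).repr z i, Fintype.mem_piFinset.2 h, ?_⟩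
    have : (RingOfIntegers.basis K).equivFun.symm ((RingOfIntegers.basis K).equivFun z) = z :=
      LinearEquiv.symm_apply_apply _ _
    exact this

lemma card_bx (I : Finset ℤ) : (bx K I).card = I.card ^ finrank ℚ K := by
  unfold bx
  rw [Finset.card_map, Fintype.card_piFinset, Finset.prod_const, Finset.card_univ, card_Ix]

/-- congruent coordinates -/
lemma sub_mem_of_repr {z z' : 𝓞 K} {q : ℕ}
    (h : ∀ i, (q : ℤ) ∣ (RingOfIntegers.basis K).repr z i - (RingOfIntegers.basis K).repr z' i) :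
    (q : 𝓞 K) ∣ z - z' := by
  have h1 : z - z' = ∑ i, ((RingOfIntegers.basis K).repr z i -
      (RingOfIntegers.basis K).repr z' i) • RingOfIntegers.basis K i := by
    have e1 := (RingOfIntegers.basis K).sum_repr z
    have e2 := (RingOfIntegers.basis K).sum_repr z'
    simp_rw [sub_smul]
    rw [Finset.sum_sub_distrib, e1, e2]
  rw [h1]
  refine Finset.dvd_sum fun i _ => ?_
  obtain ⟨c, hc⟩ := h i
  rw [hc, mul_smul, zsmul_eq_mul]
  exact Dvd.intro _ (by push_cast; rfl)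

/-- some basis vector is not in a given prime -/
lemma exists_notMem (v : HeightOneSpectrum (𝓞 K)) : ∃ i : Ix K, RingOfIntegers.basis K i ∉ v.asIdeal := by
  by_contra h
  push Not at h
  apply v.isPrime.ne_top
  rw [Ideal.eq_top_iff_one]
  rw [← (RingOfIntegers.basis K).sum_repr (1 : 𝓞 K)]
  refine sum_mem fun i _ => ?_
  rw [zsmul_eq_mul]
  exact Ideal.mul_mem_left _ _ (h i)

omit [NumberField K] in
/-- an integer in a prime above `p` -/
lemma dvd_of_int_mem {v : HeightOneSpectrum (𝓞 K)} {p : ℕ} (hp : p.Prime)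
    (h : (p : 𝓞 K) ∈ v.asIdeal) {a : ℤ} (ha : (a : 𝓞 K) ∈ v.asIdeal) : (p : ℤ) ∣ a := by
  by_contra hn
  have hpz : Prime (p : ℤ) := Nat.prime_iff_prime_int.1 hp
  have hc : IsCoprime (p : ℤ) a := (Irreducible.coprime_iff_not_dvd hpz.irreducible).2 hn
  obtain ⟨x, y, hxy⟩ := hc
  apply v.isPrime.ne_top
  rw [Ideal.eq_top_iff_one]
  have h3 : (1 : 𝓞 K) = (x : 𝓞 K) * (p : 𝓞 K) + (y : 𝓞 K) * (a : 𝓞 K) := by
    have := congrArg (Int.cast : ℤ → 𝓞 K) hxy.symm
    push_cast at this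
    exact this
  rw [h3]
  exact add_mem (Ideal.mul_mem_left _ _ h) (Ideal.mul_mem_left _ _ ha)

open Classical in
/-- the fibres of the reduction modulo a prime on a box -/
lemma fib_card {v : HeightOneSpectrum (𝓞 K)} {p : ℕ} (hp : p.Prime)
    (h : (p : 𝓞 K) ∈ v.asIdeal) (a : ℤ) (ℓ : ℕ) (y : 𝓞 K ⧸ v.asIdeal) :
    ((((bx K (Finset.Ico a (a + ℓ))).filter fun z => Ideal.Quotient.mk v.asIdeal z = y).card : ℕ) : ℝ) ≤
      (ℓ : ℝ) ^ (finrank ℚ K - 1) * ((ℓ / p : ℕ) + 1 : ℝ) := by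
  obtain ⟨j, hj⟩ := exists_notMem v
  set I := Finset.Ico a (a + (ℓ : ℤ)) with hI
  have hIc : I.card = ℓ := by rw [hI, Int.card_Ico]; simp
  set S := (bx K I).filter fun z => Ideal.Quotient.mk v.asIdeal z = y with hS
  set f : 𝓞 K → ({i : Ix K // i ≠ j} → ℤ) := fun z i => (RingOfIntegers.basis K).repr z i with hf
  have h1 : S.card ≤ (ℓ / p + 1) * (S.image f).card := by
    refine Finset.card_le_mul_card_image _ _ fun u hu => ?_
    obtain ⟨z₀, hz₀, rfl⟩ := Finset.mem_image.1 hu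
    have h2 : (S.filter fun z => f z = f z₀).card ≤
        (I.filter fun x => x ≡ (RingOfIntegers.basis K).repr z₀ j [ZMOD p]).card := by
      refine Finset.card_le_card_of_injOn (fun z => (RingOfIntegers.basis K).repr z j) ?_ ?_
      · intro z hz
        rw [Finset.mem_coe, Finset.mem_filter] at hz
        obtain ⟨hz1, hz2⟩ := hz
        rw [Finset.mem_coe, Finset.mem_filter]
        refine ⟨mem_bx.1 (Finset.mem_filter.1 hz1).1 j, ?_⟩
        rw [Int.modEq_comm, Int.modEq_iff_dvd]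
        have e1 : z - z₀ = (((RingOfIntegers.basis K).repr z j -
            (RingOfIntegers.basis K).repr z₀ j : ℤ) : 𝓞 K) * RingOfIntegers.basis K j := by
          have e2 := (RingOfIntegers.basis K).sum_repr (z - z₀)
          rw [← e2, Finset.sum_eq_single j, zsmul_eq_mul, map_sub, Finsupp.sub_apply]
          · intro i _ hij
            have := congrFun hz2 ⟨i, hij⟩
            have e3 : (RingOfIntegers.basis K).repr z i = (RingOfIntegers.basis K).repr z₀ i := this
            rw [map_sub, Finsupp.sub_apply, e3, sub_self, zero_smul]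
          · intro hj'
            exact absurd (Finset.mem_univ _) hj'
        have e4 : z - z₀ ∈ v.asIdeal := by
          rw [← Ideal.Quotient.eq]
          rw [(Finset.mem_filter.1 hz1).2, (Finset.mem_filter.1 hz₀).2]
        rw [e1] at e4
        rcases v.isPrime.mem_or_mem e4 with h5 | h5
        · exact dvd_of_int_mem hp h h5
        · exact absurd h5 hj
      · intro z hz z' hz' hzz
        rw [Finset.mem_coe, Finset.mem_filter] at hz hz'
        have e5 : f z = f z' := hz.2.trans hz'.2.symm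
        apply (RingOfIntegers.basis K).repr.injective
        ext i
        by_cases hij : i = j
        · rw [hij]; exact hzz
        · exact congrFun e5 ⟨i, hij⟩
    refine h2.trans ?_
    have h3 := Int.Ico_filter_modEq_card a (a + (ℓ : ℤ)) (by exact_mod_cast hp.pos : (0 : ℤ) < p)
      ((RingOfIntegers.basis K).repr z₀ j)
    have h4 := res_card a ℓ p hp.pos ((RingOfIntegers.basis K).repr z₀ j)
    have h5 : (((I.filter fun x => x ≡ (RingOfIntegers.basis K).repr z₀ j [ZMOD p]).card : ℕ) : ℝ) ≤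
        (ℓ : ℝ) / p + 1 := h4
    have h6 : ((I.filter fun x => x ≡ (RingOfIntegers.basis K).repr z₀ j [ZMOD p]).card : ℕ) - 1 ≤
        ℓ / p := by
      rw [Nat.le_div_iff_mul_le hp.pos]
      rcases Nat.eq_zero_or_pos ((I.filter fun x => x ≡ (RingOfIntegers.basis K).repr z₀ j [ZMOD p]).card)
        with h7 | h7
      · rw [h7]; simp
      · have h8 : ((((I.filter fun x => x ≡ (RingOfIntegers.basis K).repr z₀ j [ZMOD p]).card - 1 : ℕ) *
            p : ℕ) : ℝ) ≤ ℓ := by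
          rw [Nat.cast_mul, Nat.cast_sub h7, Nat.cast_one]
          have hp0 : (0 : ℝ) < p := by exact_mod_cast hp.pos
          rw [← le_div_iff₀ hp0]
          linarith
        exact_mod_cast h8
    omega
  have h2 : (S.image f).card ≤ ℓ ^ (finrank ℚ K - 1) := by
    have h3 : S.image f ⊆ Fintype.piFinset fun _ : {i : Ix K // i ≠ j} => I := by
      intro u hu
      obtain ⟨z, hz, rfl⟩ := Finset.mem_image.1 hu
      rw [Fintype.mem_piFinset]
      intro i
      exact mem_bx.1 (Finset.mem_filter.1 hz).1 i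
    refine (Finset.card_le_card h3).trans ?_
    rw [Fintype.card_piFinset, Finset.prod_const, Finset.card_univ, hIc]
    have h4 : Fintype.card {i : Ix K // i ≠ j} = finrank ℚ K - 1 := by
      rw [Fintype.card_subtype_compl, card_Ix, Fintype.card_subtype_eq]
    rw [h4]
  have h3 : S.card ≤ (ℓ / p + 1) * ℓ ^ (finrank ℚ K - 1) :=
    h1.trans (Nat.mul_le_mul_left _ h2)
  calc ((S.card : ℕ) : ℝ) ≤ (((ℓ / p + 1) * ℓ ^ (finrank ℚ K - 1) : ℕ) : ℝ) := by exact_mod_cast h3
    _ = _ := by push_cast; ring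

/-- the number of primes above `p` -/
lemma card_over {p : ℕ} (hp : p.Prime) : {v : HeightOneSpectrum (𝓞 K) | (p : 𝓞 K) ∈ v.asIdeal}.Finite ∧
    {v : HeightOneSpectrum (𝓞 K) | (p : 𝓞 K) ∈ v.asIdeal}.ncard ≤ finrank ℚ K := by
  have hp0 : (p : 𝓞 K) ≠ 0 := by exact_mod_cast hp.ne_zero
  have hfin : {v : HeightOneSpectrum (𝓞 K) | (p : 𝓞 K) ∈ v.asIdeal}.Finite := by
    refine (Ideal.finite_factors (I := Ideal.span {(p : 𝓞 K)}) ?_).subset ?_
    · rw [Ne, Ideal.zero_eq_bot, Ideal.span_singleton_eq_bot]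
      exact hp0
    · intro v hv
      rw [Set.mem_ofPred_eq, Ideal.dvd_span_singleton]
      exact hv
  refine ⟨hfin, ?_⟩
  rw [Set.ncard_eq_toFinset_card _ hfin]
  set T := hfin.toFinset with hT
  have h1 : ∏ v ∈ T, v.asIdeal ∣ Ideal.span {(p : 𝓞 K)} := by
    refine Finset.prod_dvd_of_coprime ?_ ?_
    · intro v _ w _ hvw
      exact (Ideal.isCoprime_of_isMaximal fun h => hvw (HeightOneSpectrum.ext h))
    · intro v hv
      rw [Ideal.dvd_span_singleton]
      exact hfin.mem_toFinset.1 hv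
  have h2 : ∏ v ∈ T, Ideal.absNorm v.asIdeal ∣ p ^ finrank ℚ K := by
    have h3 := map_dvd Ideal.absNorm h1
    rw [map_prod] at h3
    refine h3.trans ?_
    rw [Ideal.absNorm_span_singleton]
    have : (Algebra.norm ℤ (p : 𝓞 K)) = (p : ℤ) ^ finrank ℚ K := by
      have h4 : (p : 𝓞 K) = algebraMap ℤ (𝓞 K) (p : ℤ) := by simp
      rw [h4, Algebra.norm_algebraMap, RingOfIntegers.rank]
    rw [this, Int.natAbs_pow, Int.natAbs_natCast]
  have h3 : p ^ T.card ∣ p ^ finrank ℚ K := by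
    refine dvd_trans ?_ h2
    rw [← Finset.prod_const]
    refine Finset.prod_dvd_prod_of_dvd _ _ fun v hv => ?_
    exact Pool.Agent.N787.PC.Gcd.dvd_of_mem hp (hfin.mem_toFinset.1 hv)
  exact (Nat.pow_dvd_pow_iff_le_right hp.one_lt).1 h3

end

end Pool.Agent.V8H31.PC.Mod
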