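import Mathlib
import Pool.Agent.V8H31.PC.Mod

/-!
# PC/MOD: the counting
-/

set_option autoImplicit false

namespace Pool.Agent.V8H31.PC.Mod

open NumberField IsDedekindDomain Module
open Pool.Agent.N753.DR

lemma eval_map' {R S : Type} [CommRing R] [CommRing S] (τ : R →+* S) {n : ℕ}
    (G : MvPolynomial (Fin n) R) (c : Fin n → R) :
    MvPolynomial.eval (fun i => τ (c i)) (MvPolynomial.map τ G) = τ (MvPolynomial.eval c G) := by
  rw [MvPolynomial.eval_map, MvPolynomial.eval, MvPolynomial.coe_eval₂Hom,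
    MvPolynomial.eval₂_comp_left]
  congr 1

lemma totalDegree_map_le' {R S : Type} [CommRing R] [CommRing S] (τ : R →+* S) {n : ℕ}
    (G : MvPolynomial (Fin n) R) : (MvPolynomial.map τ G).totalDegree ≤ G.totalDegree := by
  have h : (MvPolynomial.map τ G).support ⊆ G.support := MvPolynomial.support_map_subset τ G
  unfold MvPolynomial.totalDegree
  exact Finset.sup_mono h

section

variable {K : Type} [Field K] [NumberField K]

/-- the boxes for tuples -/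
noncomputable def bxn (K : Type) [Field K] [NumberField K] (n : ℕ) (I : Finset ℤ) :
    Finset (Fin n → 𝓞 K) := Fintype.piFinset fun _ : Fin n => bx K I

lemma mem_bxn {n : ℕ} {I : Finset ℤ} {c : Fin n → 𝓞 K} :
    c ∈ bxn K n I ↔ ∀ j i, (RingOfIntegers.basis K).repr (c j) i ∈ I := by
  unfold bxn
  rw [Fintype.mem_piFinset]
  exact forall_congr' fun j => mem_bx

lemma card_bxn (n : ℕ) (I : Finset ℤ) : (bxn K n I).card = I.card ^ (finrank ℚ K * n) := by
  unfold bxn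
  rw [Fintype.card_piFinset, Finset.prod_const, Finset.card_univ, card_bx, Fintype.card_fin, pow_mul]

/-- the interval of integers of absolute value at most `X` -/
noncomputable def IX (X : ℕ) : Finset ℤ := Finset.Ico (-(X : ℤ)) (-(X : ℤ) + ((2 * X + 1 : ℕ) : ℤ))

lemma mem_IX {X : ℕ} {x : ℤ} : x ∈ IX X ↔ x.natAbs ≤ X := by
  unfold IX
  rw [Finset.mem_Ico]
  omega

lemma Bx_eq (n X : ℕ) : Bx K n X = ((bxn K n (IX X) : Finset (Fin n → 𝓞 K)) : Set (Fin n → 𝓞 K)) := by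
  ext c
  rw [Finset.mem_coe, mem_bxn]
  simp only [mem_IX]
  unfold Bx sz
  rw [Set.mem_ofPred_eq]
  constructor
  · intro h j i
    exact (Finset.sup_le_iff.1 (h j)) i (Finset.mem_univ _)
  · intro h j
    exact Finset.sup_le fun i _ => h j i

lemma sep_Bx (n X : ℕ) (p : (Fin n → 𝓞 K) → Prop) [DecidablePred p] :
    {c ∈ Bx K n X | p c} = (((bxn K n (IX X)).filter p : Finset (Fin n → 𝓞 K)) : Set (Fin n → 𝓞 K)) := by
  ext c
  rw [Finset.coe_filter, Set.mem_ofPred_eq, Set.mem_ofPred_eq, Bx_eq, Finset.mem_coe]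

lemma dpos : 0 < finrank ℚ K := finrank_pos

open Classical in
lemma zeros_v {n : ℕ} (G : MvPolynomial (Fin n) (𝓞 K)) {v : HeightOneSpectrum (𝓞 K)} {p : ℕ}
    (hp : p.Prime) (h : (p : 𝓞 K) ∈ v.asIdeal)
    (hG : MvPolynomial.map (Ideal.Quotient.mk v.asIdeal) G ≠ 0) (a : ℤ) (ℓ : ℕ) (hℓ : 1 ≤ ℓ) :
    ((((bxn K n (Finset.Ico a (a + ℓ))).filter fun c =>
      MvPolynomial.eval c G ∈ v.asIdeal).card : ℕ) : ℝ) ≤
      G.totalDegree * (ℓ : ℝ) ^ (finrank ℚ K * n) * (1 / p + 1 / ℓ) := by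
  have := v.isPrime
  have : v.asIdeal.IsMaximal := v.isMaximal
  let _ : Field (𝓞 K ⧸ v.asIdeal) := Ideal.Quotient.field v.asIdeal
  have hIc : (Finset.Ico a (a + (ℓ : ℤ))).card = ℓ := by rw [Int.card_Ico]; simp
  have hs : ∀ y : 𝓞 K ⧸ v.asIdeal, ((bx K (Finset.Ico a (a + ℓ))).filter fun z =>
      Ideal.Quotient.mk v.asIdeal z = y).card ≤ ℓ ^ (finrank ℚ K - 1) * (ℓ / p + 1) := by
    intro y
    have := fib_card hp h a ℓ y
    exact_mod_cast this
  have hz := Pool.Agent.N681.PC.zippel (bx K (Finset.Ico a (a + ℓ)))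
    (fun z => Ideal.Quotient.mk v.asIdeal z) (ℓ ^ (finrank ℚ K - 1) * (ℓ / p + 1)) hs n
    (MvPolynomial.map (Ideal.Quotient.mk v.asIdeal) G) hG
  have e1 : ((Fintype.piFinset fun _ : Fin n => bx K (Finset.Ico a (a + ℓ))).filter
        (fun c => MvPolynomial.eval (fun i => Ideal.Quotient.mk v.asIdeal (c i))
          (MvPolynomial.map (Ideal.Quotient.mk v.asIdeal) G) = 0)) =
      (bxn K n (Finset.Ico a (a + ℓ))).filter fun c => MvPolynomial.eval c G ∈ v.asIdeal := by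
    unfold bxn
    refine Finset.filter_congr fun c _ => ?_
    rw [eval_map' (Ideal.Quotient.mk v.asIdeal) G c, Ideal.Quotient.eq_zero_iff_mem]
  rw [e1, card_bx, hIc, ← pow_mul] at hz
  have hD : (MvPolynomial.map (Ideal.Quotient.mk v.asIdeal) G).totalDegree ≤ G.totalDegree :=
    totalDegree_map_le' _ _
  set Z := ((bxn K n (Finset.Ico a (a + ℓ))).filter fun c => MvPolynomial.eval c G ∈ v.asIdeal).card
  have h1 : Z * ℓ ^ finrank ℚ K ≤ G.totalDegree * (ℓ ^ (finrank ℚ K - 1) * (ℓ / p + 1)) *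
      ℓ ^ (finrank ℚ K * n) :=
    hz.trans (Nat.mul_le_mul_right _ (Nat.mul_le_mul_right _ hD))
  have h2 : Z * ℓ ≤ G.totalDegree * (ℓ / p + 1) * ℓ ^ (finrank ℚ K * n) := by
    have hpos : 0 < ℓ ^ (finrank ℚ K - 1) := pow_pos (by omega) _
    refine le_of_mul_le_mul_left (a := ℓ ^ (finrank ℚ K - 1)) ?_ hpos
    have e2 : ℓ ^ finrank ℚ K = ℓ ^ (finrank ℚ K - 1) * ℓ := by
      rw [← pow_succ]
      congr 1
      have := dpos (K := K)
      omega
    rw [e2] at h1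
    calc ℓ ^ (finrank ℚ K - 1) * (Z * ℓ) = Z * (ℓ ^ (finrank ℚ K - 1) * ℓ) := by ring
      _ ≤ _ := h1
      _ = _ := by ring
  have h3 : (Z : ℝ) * ℓ ≤ G.totalDegree * ((ℓ : ℝ) / p + 1) * (ℓ : ℝ) ^ (finrank ℚ K * n) := by
    have h4 : ((Z * ℓ : ℕ) : ℝ) ≤ ((G.totalDegree * (ℓ / p + 1) * ℓ ^ (finrank ℚ K * n) : ℕ) : ℝ) := by
      exact_mod_cast h2
    have h5 : ((ℓ / p : ℕ) : ℝ) ≤ (ℓ : ℝ) / p := Nat.cast_div_le
    push_cast at h4
    refine h4.trans ?_
    have hd : (0 : ℝ) ≤ G.totalDegree := Nat.cast_nonneg _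
    have hl : (0 : ℝ) ≤ (ℓ : ℝ) ^ (finrank ℚ K * n) := by positivity
    have h5' : (((ℓ / p : ℕ) : ℝ) + 1) ≤ (ℓ : ℝ) / p + 1 := by linarith
    exact mul_le_mul_of_nonneg_right (mul_le_mul_of_nonneg_left h5' hd) hl
  have hℓ' : (0 : ℝ) < ℓ := by exact_mod_cast hℓ
  rw [← le_div_iff₀ hℓ'] at h3
  refine h3.trans (le_of_eq ?_)
  field_simp

/-- a nonzero polynomial is nonzero modulo large primes -/
lemma exists_P₀ {n : ℕ} (G : MvPolynomial (Fin n) (𝓞 K)) (hG : G ≠ 0) :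
    ∃ P₀ : ℕ, ∀ p : ℕ, p.Prime → P₀ ≤ p → ∀ v : HeightOneSpectrum (𝓞 K), (p : 𝓞 K) ∈ v.asIdeal →
      MvPolynomial.map (Ideal.Quotient.mk v.asIdeal) G ≠ 0 := by
  obtain ⟨m, hm⟩ := MvPolynomial.ne_zero_iff.1 hG
  refine ⟨Ideal.absNorm (Ideal.span {MvPolynomial.coeff m G}) + 1, fun p hp hP v hv h0 => ?_⟩
  have h1 : MvPolynomial.coeff m G ∈ v.asIdeal := by
    have := congrArg (MvPolynomial.coeff m) h0
    rw [MvPolynomial.coeff_map, MvPolynomial.coeff_zero, Ideal.Quotient.eq_zero_iff_mem] at this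
    exact this
  have h2 : p ∣ Ideal.absNorm (Ideal.span {MvPolynomial.coeff m G}) := by
    refine (Pool.Agent.N787.PC.Gcd.dvd_of_mem hp hv).trans (Ideal.absNorm_dvd_absNorm_of_le ?_)
    rw [Ideal.span_singleton_le_iff_mem]
    exact h1
  have h3 : Ideal.absNorm (Ideal.span {MvPolynomial.coeff m G}) ≠ 0 := by
    rw [Ne, Ideal.absNorm_eq_zero_iff, Ideal.span_singleton_eq_bot]
    exact hm
  have := Nat.le_of_dvd (Nat.pos_of_ne_zero h3) h2
  omega

open Classical in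
lemma zeros_p {n : ℕ} (G : MvPolynomial (Fin n) (𝓞 K)) {p : ℕ} (hp : p.Prime)
    (hG : ∀ v : HeightOneSpectrum (𝓞 K), (p : 𝓞 K) ∈ v.asIdeal →
      MvPolynomial.map (Ideal.Quotient.mk v.asIdeal) G ≠ 0) (a : ℤ) (ℓ : ℕ) (hℓ : 1 ≤ ℓ) :
    ((((bxn K n (Finset.Ico a (a + ℓ))).filter fun c => Meet G c p).card : ℕ) : ℝ) ≤
      finrank ℚ K * (G.totalDegree * (ℓ : ℝ) ^ (finrank ℚ K * n) * (1 / p + 1 / ℓ)) := by
  obtain ⟨hfin, hcard⟩ := card_over (K := K) hp
  rw [Set.ncard_eq_toFinset_card _ hfin] at hcard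
  have h1 : ((bxn K n (Finset.Ico a (a + ℓ))).filter fun c => Meet G c p) ⊆
      hfin.toFinset.biUnion fun v => (bxn K n (Finset.Ico a (a + ℓ))).filter fun c =>
        MvPolynomial.eval c G ∈ v.asIdeal := by
    intro c hc
    obtain ⟨h2, v, hv, hv'⟩ := Finset.mem_filter.1 hc
    rw [Finset.mem_biUnion]
    exact ⟨v, hfin.mem_toFinset.2 hv, Finset.mem_filter.2 ⟨h2, hv'⟩⟩
  have h2 := (Finset.card_le_card h1).trans Finset.card_biUnion_le
  have h3 : ((((bxn K n (Finset.Ico a (a + ℓ))).filter fun c => Meet G c p).card : ℕ) : ℝ) ≤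
      ∑ v ∈ hfin.toFinset, ((((bxn K n (Finset.Ico a (a + ℓ))).filter fun c =>
        MvPolynomial.eval c G ∈ v.asIdeal).card : ℕ) : ℝ) := by exact_mod_cast h2
  refine h3.trans ((Finset.sum_le_sum fun v hv => zeros_v G hp (hfin.mem_toFinset.1 hv)
    (hG v (hfin.mem_toFinset.1 hv)) a ℓ hℓ).trans ?_)
  rw [Finset.sum_const, nsmul_eq_mul]
  refine mul_le_mul_of_nonneg_right (by exact_mod_cast hcard) ?_
  positivity

open Classical in
lemma zeros_0 {n : ℕ} (G : MvPolynomial (Fin n) (𝓞 K)) (hG : G ≠ 0) (a : ℤ) (ℓ : ℕ) :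
    ((((bxn K n (Finset.Ico a (a + ℓ))).filter fun c =>
      MvPolynomial.eval c G = 0).card : ℕ) : ℝ) * ℓ ≤
      G.totalDegree * (ℓ : ℝ) ^ (finrank ℚ K * n) := by
  have hIc : (Finset.Ico a (a + (ℓ : ℤ))).card = ℓ := by rw [Int.card_Ico]; simp
  have hinj : Function.Injective (algebraMap (𝓞 K) K) := RingOfIntegers.coe_injective
  have hs : ∀ y : K, ((bx K (Finset.Ico a (a + ℓ))).filter fun z =>
      algebraMap (𝓞 K) K z = y).card ≤ 1 := by
    intro y
    rw [Finset.card_le_one]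
    intro z hz z' hz'
    exact hinj ((Finset.mem_filter.1 hz).2.trans (Finset.mem_filter.1 hz').2.symm)
  have hG' : MvPolynomial.map (algebraMap (𝓞 K) K) G ≠ 0 := by
    rw [Ne, map_eq_zero_iff _ (MvPolynomial.map_injective _ hinj)]
    exact hG
  have hz := Pool.Agent.N681.PC.zippel (bx K (Finset.Ico a (a + ℓ)))
    (fun z => algebraMap (𝓞 K) K z) 1 hs n (MvPolynomial.map (algebraMap (𝓞 K) K) G) hG'
  have e1 : ((Fintype.piFinset fun _ : Fin n => bx K (Finset.Ico a (a + ℓ))).filter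
        (fun c => MvPolynomial.eval (fun i => algebraMap (𝓞 K) K (c i))
          (MvPolynomial.map (algebraMap (𝓞 K) K) G) = 0)) =
      (bxn K n (Finset.Ico a (a + ℓ))).filter fun c => MvPolynomial.eval c G = 0 := by
    unfold bxn
    refine Finset.filter_congr fun c _ => ?_
    rw [eval_map' (algebraMap (𝓞 K) K) G c, map_eq_zero_iff _ hinj]
  rw [e1, card_bx, hIc, ← pow_mul] at hz
  have hD : (MvPolynomial.map (algebraMap (𝓞 K) K) G).totalDegree ≤ G.totalDegree :=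
    totalDegree_map_le' _ _
  set Z := ((bxn K n (Finset.Ico a (a + ℓ))).filter fun c => MvPolynomial.eval c G = 0).card
  have h1 : Z * ℓ ^ finrank ℚ K ≤ G.totalDegree * 1 * ℓ ^ (finrank ℚ K * n) :=
    hz.trans (Nat.mul_le_mul_right _ (Nat.mul_le_mul_right _ hD))
  have h2 : Z * ℓ ≤ Z * ℓ ^ finrank ℚ K :=
    Nat.mul_le_mul_left _ (Nat.le_self_pow (dpos (K := K)).ne' _)
  have h3 : ((Z * ℓ : ℕ) : ℝ) ≤ ((G.totalDegree * 1 * ℓ ^ (finrank ℚ K * n) : ℕ) : ℝ) := by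
    exact_mod_cast h2.trans h1
  push_cast at h3
  rw [mul_one] at h3
  exact h3

/-- reduction modulo `p` -/
noncomputable def red (p : ℕ) {n : ℕ} (c : Fin n → 𝓞 K) : Fin n → 𝓞 K := fun j =>
  (RingOfIntegers.basis K).equivFun.symm fun i => (RingOfIntegers.basis K).repr (c j) i % p

lemma repr_red (p : ℕ) {n : ℕ} (c : Fin n → 𝓞 K) (j : Fin n) (i : Ix K) :
    (RingOfIntegers.basis K).repr (red p c j) i = (RingOfIntegers.basis K).repr (c j) i % p := by
  unfold red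
  rw [← Basis.equivFun_apply, LinearEquiv.apply_symm_apply]

lemma eval_congr {R : Type} [CommRing R] (I : Ideal R) {n : ℕ} (G : MvPolynomial (Fin n) R)
    (c c' : Fin n → R) (h : ∀ i, c i - c' i ∈ I) :
    MvPolynomial.eval c G - MvPolynomial.eval c' G ∈ I := by
  rw [← Ideal.Quotient.eq, ← eval_map', ← eval_map']
  congr 2
  funext i
  exact Ideal.Quotient.eq.2 (h i)

lemma Meet_red {n : ℕ} (G : MvPolynomial (Fin n) (𝓞 K)) {p : ℕ} {c : Fin n → 𝓞 K}
    (h : Meet G c p) : Meet G (red p c) p := by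
  obtain ⟨v, hv, hv'⟩ := h
  refine ⟨v, hv, ?_⟩
  have h1 : MvPolynomial.eval c G - MvPolynomial.eval (red p c) G ∈ v.asIdeal := by
    refine eval_congr _ _ _ _ fun j => ?_
    have h2 : (p : 𝓞 K) ∣ c j - red p c j := by
      refine sub_mem_of_repr fun i => ?_
      rw [repr_red]
      exact Int.dvd_self_sub_emod
    obtain ⟨y, hy⟩ := h2
    rw [hy]
    exact Ideal.mul_mem_right _ _ hv
  have := v.asIdeal.sub_mem hv' h1
  rwa [sub_sub_cancel] at this

end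

end Pool.Agent.V8H31.PC.Mod
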