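import Mathlib
import Pool.Agent.V8H31.PC.Mod2

/-!
# PC/MOD: the theorem
-/

set_option autoImplicit false

namespace Pool.Agent.V8H31.PC.Mod

open NumberField IsDedekindDomain Module
open Pool.Agent.N753.DR

lemma res_card' (a : ℤ) (ℓ q : ℕ) (hq : 0 < q) (v : ℤ) :
    ((Finset.Ico a (a + ℓ)).filter fun x => x % q = v % q).card ≤ ℓ / q + 1 := by
  have h4 := res_card a ℓ q hq v
  set N := ((Finset.Ico a (a + ℓ)).filter fun x => x % q = v % q).card
  have h6 : N - 1 ≤ ℓ / q := by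
    rw [Nat.le_div_iff_mul_le hq]
    rcases Nat.eq_zero_or_pos N with h7 | h7
    · rw [h7]; simp
    · have h8 : (((N - 1 : ℕ) * q : ℕ) : ℝ) ≤ ℓ := by
        rw [Nat.cast_mul, Nat.cast_sub h7, Nat.cast_one]
        have hp0 : (0 : ℝ) < q := by exact_mod_cast hq
        rw [← le_div_iff₀ hp0]
        linarith
      exact_mod_cast h8
  omega

section

variable {K : Type} [Field K] [NumberField K]

open Classical in
lemma crt {n : ℕ} (G : MvPolynomial (Fin n) (𝓞 K)) {P₀ : ℕ}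
    (hP : ∀ p : ℕ, p.Prime → P₀ ≤ p → ∀ v : HeightOneSpectrum (𝓞 K), (p : 𝓞 K) ∈ v.asIdeal →
      MvPolynomial.map (Ideal.Quotient.mk v.asIdeal) G ≠ 0)
    (X : ℕ) (Q : Finset ℕ) (hQ : ∀ p ∈ Q, p.Prime ∧ P₀ ≤ p) (hX : ∏ p ∈ Q, p ≤ X) :
    ((((bxn K n (IX X)).filter fun c => ∀ p ∈ Q, Meet G c p).card : ℕ) : ℝ) ≤
      (4 * X / ∏ p ∈ Q, (p : ℝ)) ^ (finrank ℚ K * n) *
        ∏ p ∈ Q, (2 * finrank ℚ K * G.totalDegree * (p : ℝ) ^ (finrank ℚ K * n) / p) := by
  set q := ∏ p ∈ Q, p with hq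
  have hq0 : 0 < q := Finset.prod_pos fun p hp => (hQ p hp).1.pos
  set A : ℕ → Finset (Fin n → 𝓞 K) := fun p =>
    (bxn K n (Finset.Ico 0 (0 + (p : ℤ)))).filter fun c => Meet G c p with hA
  set g : (Fin n → 𝓞 K) → ((p : ℕ) → p ∈ Q → (Fin n → 𝓞 K)) := fun c p _ => red p c with hg
  set S := (bxn K n (IX X)).filter fun c => ∀ p ∈ Q, Meet G c p with hS
  have himg : S.image g ⊆ Q.pi A := by
    intro u hu
    obtain ⟨c, hc, rfl⟩ := Finset.mem_image.1 hu
    rw [Finset.mem_pi]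
    intro p hp
    have hp0 : (0 : ℤ) < p := by exact_mod_cast (hQ p hp).1.pos
    rw [hA, Finset.mem_filter, mem_bxn]
    refine ⟨fun j i => ?_, Meet_red G ((Finset.mem_filter.1 hc).2 p hp)⟩
    rw [hg, repr_red, Finset.mem_Ico, zero_add]
    exact ⟨Int.emod_nonneg _ hp0.ne', Int.emod_lt_of_pos _ hp0⟩
  have hfib : S.card ≤ ((2 * X + 1) / q + 1) ^ (finrank ℚ K * n) * (S.image g).card := by
    refine Finset.card_le_mul_card_image _ _ fun u hu => ?_
    obtain ⟨c₀, hc₀, rfl⟩ := Finset.mem_image.1 hu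
    have h1 : (S.filter fun c => g c = g c₀).card ≤
        (Fintype.piFinset fun ji : Fin n × Ix K => (IX X).filter fun x =>
          x % q = (RingOfIntegers.basis K).repr (c₀ ji.1) ji.2 % q).card := by
      refine Finset.card_le_card_of_injOn
        (fun c ji => (RingOfIntegers.basis K).repr (c ji.1) ji.2) ?_ ?_
      · intro c hc
        rw [Finset.mem_coe, Finset.mem_filter] at hc
        rw [Finset.mem_coe, Fintype.mem_piFinset]
        rintro ⟨j, i⟩
        rw [Finset.mem_filter]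
        refine ⟨mem_bxn.1 (Finset.mem_filter.1 hc.1).1 j i, ?_⟩
        rw [← Int.ModEq, Int.modEq_comm, Int.modEq_iff_dvd, hq]
        push_cast
        refine Finset.prod_dvd_of_coprime ?_ ?_
        · intro p hp p' hp' hpp
          have := (Nat.coprime_primes (hQ p hp).1 (hQ p' hp').1).2 hpp
          exact Nat.isCoprime_iff_coprime.2 this
        · intro p hp
          rw [← Int.modEq_iff_dvd, Int.modEq_comm]
          have h2 : red p c = red p c₀ := congrFun (congrFun hc.2 p) hp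
          have h3 := congrFun h2 j
          have h4 := repr_red p c j i
          have h5 := repr_red p c₀ j i
          rw [h3, h5] at h4
          exact h4.symm
      · intro c _ c' _ hcc
        funext j
        apply (RingOfIntegers.basis K).repr.injective
        ext i
        exact congrFun hcc (j, i)
    refine h1.trans ?_
    rw [Fintype.card_piFinset]
    refine (Finset.prod_le_pow_card _ _ ((2 * X + 1) / q + 1) fun ji _ => ?_).trans (le_of_eq ?_)
    · exact res_card' (-(X : ℤ)) (2 * X + 1) q hq0 _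
    · rw [Finset.card_univ, Fintype.card_prod, Fintype.card_fin, card_Ix, mul_comm n]
  have h2 : S.card ≤ ((2 * X + 1) / q + 1) ^ (finrank ℚ K * n) * ∏ p ∈ Q, (A p).card := by
    refine hfib.trans (Nat.mul_le_mul_left _ ?_)
    rw [← Finset.card_pi]
    exact Finset.card_le_card himg
  have h3 : ((S.card : ℕ) : ℝ) ≤ ((((2 * X + 1) / q : ℕ) : ℝ) + 1) ^ (finrank ℚ K * n) *
      ∏ p ∈ Q, ((A p).card : ℝ) := by exact_mod_cast h2
  refine h3.trans (mul_le_mul ?_ ?_ (Finset.prod_nonneg fun _ _ => Nat.cast_nonneg _)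
    (by positivity))
  · refine pow_le_pow_left₀ (by positivity) ?_ _
    have h4 : (((2 * X + 1) / q : ℕ) : ℝ) ≤ ((2 * X + 1 : ℕ) : ℝ) / q := Nat.cast_div_le
    have hq0' : (0 : ℝ) < q := by exact_mod_cast hq0
    have h5 : (∏ p ∈ Q, (p : ℝ)) = q := by rw [hq]; push_cast; rfl
    have hX' : (q : ℝ) ≤ X := by exact_mod_cast hX
    have hX1 : (1 : ℝ) ≤ X := by
      have : 1 ≤ X := le_trans hq0 hX
      exact_mod_cast this
    rw [h5]
    have h6 : (1 : ℝ) ≤ X / q := by rw [le_div_iff₀ hq0', one_mul]; exact hX'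
    have h7 : ((2 * X + 1 : ℕ) : ℝ) / q ≤ 3 * (X / q) := by
      rw [← mul_div_assoc]
      refine div_le_div_of_nonneg_right ?_ hq0'.le
      push_cast
      linarith
    have h8 : 4 * (X : ℝ) / q = 4 * (X / q) := by ring
    rw [h8]
    linarith
  · refine Finset.prod_le_prod (fun _ _ => Nat.cast_nonneg _) fun p hp => ?_
    have hp1 := (hQ p hp).1
    have h4 := zeros_p G hp1 (hP p hp1 (hQ p hp).2) 0 p hp1.one_lt.le
    refine h4.trans (le_of_eq ?_)
    have hp0 : (p : ℝ) ≠ 0 := by exact_mod_cast hp1.ne_zero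
    field_simp
    ring

theorem t : StmMod := by
  classical
  intro K _ _ n hn G hG
  obtain ⟨P₀, hP⟩ := exists_P₀ G hG
  obtain ⟨N, hN⟩ : ∃ N : ℕ, N = finrank ℚ K * n := ⟨_, rfl⟩
  have hN1 : 1 ≤ N := by
    rw [hN]
    exact Nat.mul_pos (dpos (K := K)) hn
  obtain ⟨C, hC⟩ : ∃ C : ℝ, C = 4 ^ N * (1 + G.totalDegree) * (2 * finrank ℚ K) := ⟨_, rfl⟩
  have hd1 : (1 : ℝ) ≤ finrank ℚ K := by exact_mod_cast dpos (K := K)
  have hD0 : (0 : ℝ) ≤ G.totalDegree := Nat.cast_nonneg _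
  have h41 : (1 : ℝ) ≤ 4 ^ N := one_le_pow₀ (by norm_num)
  have hC1 : (1 : ℝ) ≤ C := by
    rw [hC]
    have h1 : (1 : ℝ) ≤ 4 ^ N * (1 + G.totalDegree) := by nlinarith
    nlinarith
  refine ⟨C, P₀, hC1, fun X hX => ?_⟩
  have hX1 : (1 : ℝ) ≤ X := by exact_mod_cast hX
  have hX0 : (0 : ℝ) < X := by linarith
  have e1 : ((finrank ℚ K : ℝ) * n) = ((N : ℕ) : ℝ) := by rw [hN]; push_cast; ring
  have hl : ((2 * X + 1 : ℕ) : ℝ) ≤ 3 * X := by push_cast; linarith
  have hl0 : (0 : ℝ) < ((2 * X + 1 : ℕ) : ℝ) := by positivity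
  refine ⟨?_, ?_, ?_⟩
  · rw [sep_Bx, Set.ncard_coe_finset]
    have h1 := zeros_0 G hG (-(X : ℤ)) (2 * X + 1)
    have h2 : (((bxn K n (IX X)).filter fun c => MvPolynomial.eval c G = 0).card : ℝ) *
        ((2 * X + 1 : ℕ) : ℝ) ≤ G.totalDegree * (((2 * X + 1 : ℕ) : ℝ)) ^ (finrank ℚ K * n) := by
      exact h1
    rw [← hN] at h2
    have e2 : (((2 * X + 1 : ℕ) : ℝ)) ^ N = (((2 * X + 1 : ℕ) : ℝ)) ^ (N - 1) * ((2 * X + 1 : ℕ) : ℝ) := by
      rw [← pow_succ]
      congr 1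
      omega
    rw [e2, ← mul_assoc] at h2
    have h3 := le_of_mul_le_mul_right h2 hl0
    refine h3.trans ?_
    have e3 : (X : ℝ) ^ ((finrank ℚ K : ℝ) * n - 1) = (X : ℝ) ^ (N - 1) := by
      rw [e1, ← Real.rpow_natCast]
      congr 1
      rw [Nat.cast_sub hN1, Nat.cast_one]
    rw [e3]
    have h4 : (((2 * X + 1 : ℕ) : ℝ)) ^ (N - 1) ≤ 4 ^ N * (X : ℝ) ^ (N - 1) := by
      calc (((2 * X + 1 : ℕ) : ℝ)) ^ (N - 1) ≤ (4 * X) ^ (N - 1) :=
            pow_le_pow_left₀ hl0.le (by linarith) _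
        _ = 4 ^ (N - 1) * (X : ℝ) ^ (N - 1) := mul_pow _ _ _
        _ ≤ 4 ^ N * (X : ℝ) ^ (N - 1) := by
            refine mul_le_mul_of_nonneg_right ?_ (by positivity)
            exact pow_le_pow_right₀ (by norm_num) (by omega)
    calc (G.totalDegree : ℝ) * (((2 * X + 1 : ℕ) : ℝ)) ^ (N - 1) ≤
          G.totalDegree * (4 ^ N * (X : ℝ) ^ (N - 1)) := mul_le_mul_of_nonneg_left h4 hD0
      _ = (4 ^ N * G.totalDegree) * (X : ℝ) ^ (N - 1) := by ring
      _ ≤ C * (X : ℝ) ^ (N - 1) := by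
          refine mul_le_mul_of_nonneg_right ?_ (by positivity)
          rw [hC]
          have h5 : (4 : ℝ) ^ N * G.totalDegree ≤ 4 ^ N * (1 + G.totalDegree) :=
            mul_le_mul_of_nonneg_left (by linarith) (by positivity)
          have h6 : (0 : ℝ) ≤ 4 ^ N * (1 + G.totalDegree) := by positivity
          nlinarith
  · intro p hp hPp
    rw [sep_Bx, Set.ncard_coe_finset]
    have h1 : (((bxn K n (IX X)).filter fun c => Meet G c p).card : ℝ) ≤
        finrank ℚ K * (G.totalDegree * (((2 * X + 1 : ℕ) : ℝ)) ^ (finrank ℚ K * n) *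
          (1 / p + 1 / ((2 * X + 1 : ℕ) : ℝ))) :=
      zeros_p G hp (hP p hp hPp) (-(X : ℤ)) (2 * X + 1) (by omega)
    refine h1.trans ?_
    rw [← hN, e1, Real.rpow_natCast]
    have hp0 : (0 : ℝ) < p := by exact_mod_cast hp.pos
    have h2 : 1 / ((2 * X + 1 : ℕ) : ℝ) ≤ 1 / X := by
      refine one_div_le_one_div_of_le hX0 ?_
      push_cast
      linarith
    have h4 : (((2 * X + 1 : ℕ) : ℝ)) ^ N ≤ 4 ^ N * (X : ℝ) ^ N := by
      rw [← mul_pow]
      exact pow_le_pow_left₀ hl0.le (by linarith) _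
    have h5 : (1 / (p : ℝ) + 1 / ((2 * X + 1 : ℕ) : ℝ)) ≤ 1 / p + 1 / X := by linarith
    have h6 : (0 : ℝ) ≤ (1 / (p : ℝ) + 1 / ((2 * X + 1 : ℕ) : ℝ)) := by positivity
    have h7 : (0 : ℝ) ≤ (1 / (p : ℝ) + 1 / (X : ℝ)) := by positivity
    calc finrank ℚ K * (G.totalDegree * (((2 * X + 1 : ℕ) : ℝ)) ^ N *
          (1 / p + 1 / ((2 * X + 1 : ℕ) : ℝ)))
        ≤ finrank ℚ K * (G.totalDegree * (4 ^ N * (X : ℝ) ^ N) * (1 / p + 1 / X)) := by
          refine mul_le_mul_of_nonneg_left (mul_le_mul (mul_le_mul_of_nonneg_left h4 hD0) h5 h6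
            (by positivity)) (by positivity)
      _ = (4 ^ N * G.totalDegree * finrank ℚ K) * (X : ℝ) ^ N * (1 / p + 1 / X) := by ring
      _ ≤ C * (X : ℝ) ^ N * (1 / p + 1 / X) := by
          refine mul_le_mul_of_nonneg_right (mul_le_mul_of_nonneg_right ?_ (by positivity)) h7
          rw [hC]
          have h8 : (4 : ℝ) ^ N * G.totalDegree ≤ 4 ^ N * (1 + G.totalDegree) :=
            mul_le_mul_of_nonneg_left (by linarith) (by positivity)
          refine mul_le_mul h8 (by linarith) (by positivity) (by positivity)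
  · intro Q hQ hQX
    rw [sep_Bx, Set.ncard_coe_finset]
    refine (crt G hP X Q hQ hQX).trans ?_
    rw [← hN, e1, Real.rpow_natCast]
    have hprod : (0 : ℝ) < ∏ p ∈ Q, (p : ℝ) :=
      Finset.prod_pos fun p hp => by exact_mod_cast (hQ p hp).1.pos
    have e2 : ∏ p ∈ Q, (2 * finrank ℚ K * G.totalDegree * (p : ℝ) ^ N / p) =
        (2 * finrank ℚ K * G.totalDegree) ^ Q.card * (∏ p ∈ Q, (p : ℝ)) ^ N / ∏ p ∈ Q, (p : ℝ) := by
      rw [Finset.prod_div_distrib, Finset.prod_mul_distrib, Finset.prod_const, Finset.prod_pow]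
    rw [e2]
    set q := ∏ p ∈ Q, (p : ℝ) with hq
    have e3 : (4 * (X : ℝ) / q) ^ N * ((2 * finrank ℚ K * G.totalDegree) ^ Q.card * q ^ N / q) =
        4 ^ N * (2 * finrank ℚ K * G.totalDegree) ^ Q.card * (X : ℝ) ^ N / q := by
      rw [div_pow, mul_pow]
      field_simp
    rw [e3]
    refine div_le_div_of_nonneg_right (mul_le_mul_of_nonneg_right ?_ (by positivity)) hprod.le
    rw [pow_succ, mul_comm (4 ^ N)]
    have h1 : (2 * (finrank ℚ K : ℝ) * G.totalDegree) ≤ C := by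
      rw [hC]
      have h5 : (2 * (finrank ℚ K : ℝ) * G.totalDegree) ≤ (1 + G.totalDegree) * (2 * finrank ℚ K) := by
        nlinarith
      have h6 : (0 : ℝ) ≤ (1 + G.totalDegree) * (2 * finrank ℚ K) := by positivity
      nlinarith
    have h2 : (4 : ℝ) ^ N ≤ C := by
      rw [hC]
      have h5 : (1 : ℝ) ≤ (1 + G.totalDegree) * (2 * finrank ℚ K) := by nlinarith
      nlinarith
    exact mul_le_mul (pow_le_pow_left₀ (by positivity) h1 _) h2 (by positivity) (by positivity)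

end

end Pool.Agent.V8H31.PC.Mod
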