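import Mathlib
import Pool.Agent.V8H31.PC.Hts
import Pool.Agent.V8H31.PC.Mod3
import Pool.Agent.N572.DR.KE
import Pool.Agent.N196.PC.Prk
import Pool.Agent.N490.PC.Triv
import Pool.Agent.N427.PC.HTMV
import Pool.Agent.N134.PC.Zero
import Pool.Agent.N199.PC.Coin
import Pool.Agent.N787.PC.Gcd2
import Pool.Agent.N79.PC.Near
import Pool.Agent.N459.DR.Red
import Pool.Agent.N703.PC.PolyV
import Pool.Agent.N935.PC.Elim
import Pool.Agent.V8H31.AC.Prox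

/-!
# Project PC: one exceptional set
-/

set_option autoImplicit false

namespace Pool.Agent.V8H31.PC

open NumberField IsDedekindDomain Module Polynomial Pool.Agent.N753.DR
open Height (logHeight₁ zero_le_logHeight₁)

set_option linter.unusedSectionVars false

theorem stmCoin : StmCoin :=
  Pool.Agent.N199.PC.t (Pool.Agent.N787.PC.Gcd.t Mod.t) Pool.Agent.N79.PC.t
    Pool.Agent.N459.DR.t Pool.Agent.N130.PC.Cnt.t

theorem stmZero : StmZero :=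
  Pool.Agent.N134.PC.t Pool.Agent.N935.PC.elim_ Pool.Agent.N703.PC.t Pool.Agent.N459.DR.t
    Pool.Agent.N130.PC.Cnt.t

theorem stmPrk : StmPrk :=
  Pool.Agent.N196.PC.t Pool.Agent.N490.PC.Triv.t Pool.Agent.N427.PC.HTMV.t

section

variable {K : Type} [Field K] [NumberField K] {m : ℕ}

/-- outside `E` the coincidences are small -/
def GoodCoin (r : Fin m → ℕ) (E : Set (Fin m → K[X])) : Prop :=
  ∀ i j : Fin m, i ≠ j → ∀ F F' : K[X], F ≠ 0 → F' ≠ 0 → ∃ S : Finset ℕ, (∀ p ∈ S, p ≠ 0) ∧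
    ∀ κ : ℝ, 0 < κ → ∃ U : ℝ, 0 ≤ U ∧ ∀ P, P ∉ E → ∀ T, HT r T P → ¬ HT r (T / 2) P →
      ∀ Q : Finset ℕ, (∀ p ∈ Q, p.Prime ∧ NearP S F (P i) p ∧ NearP S F' (P j) p) →
        κ * T < ∑ p ∈ Q, Real.log p → HT r U P

theorem countable_mv (K : Type) [Field K] [NumberField K] (m : ℕ) :
    Countable (MvPolynomial (Fin m) K) := by
  have := Pool.Agent.N572.DR.KE.countable_nf K
  rw [← Cardinal.mk_le_aleph0_iff]
  refine (MvPolynomial.cardinalMk_le_max (σ := Fin m) (R := K)).trans ?_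
  exact max_le (max_le (Cardinal.mk_le_aleph0_iff.2 this)
    (Cardinal.mk_le_aleph0_iff.2 inferInstance)) le_rfl

open Classical in
/-- the set `S` for the coincidences -/
noncomputable def SC (r : Fin m → ℕ) (i j : Fin m) (F F' : K[X]) : Finset ℕ :=
  if h : (∀ i, 1 ≤ r i) ∧ i ≠ j ∧ F ≠ 0 ∧ F' ≠ 0 then
    (stmCoin K m r h.1 i j h.2.1 F F' h.2.2.1 h.2.2.2).choose else ∅

theorem SC_spec {r : Fin m → ℕ} (hr : ∀ i, 1 ≤ r i) {i j : Fin m} (hij : i ≠ j) {F F' : K[X]}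
    (hF : F ≠ 0) (hF' : F' ≠ 0) : (∀ p ∈ SC r i j F F', p ≠ 0) ∧ ∀ κ : ℝ, 0 < κ →
    ∃ ν C : ℝ, 0 < ν ∧ ∀ T : ℝ, 0 ≤ T →
    {P : Fin m → K[X] | (∃ Q : Finset ℕ, (∀ p ∈ Q, p.Prime ∧ NearP (SC r i j F F') F (P i) p ∧
      NearP (SC r i j F F') F' (P j) p) ∧ κ * T < ∑ p ∈ Q, Real.log p) ∧ HT r T P}.Finite ∧
    ({P : Fin m → K[X] | (∃ Q : Finset ℕ, (∀ p ∈ Q, p.Prime ∧ NearP (SC r i j F F') F (P i) p ∧
      NearP (SC r i j F F') F' (P j) p) ∧ κ * T < ∑ p ∈ Q, Real.log p) ∧ HT r T P}.ncard : ℝ) ≤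
      C * Real.exp ((∑ i, (r i : ℝ) * (r i + 1) - ν) * T) := by
  have h : (∀ i, 1 ≤ r i) ∧ i ≠ j ∧ F ≠ 0 ∧ F' ≠ 0 := ⟨hr, hij, hF, hF'⟩
  have e : SC r i j F F' = (stmCoin K m r h.1 i j h.2.1 F F' h.2.2.1 h.2.2.2).choose := by
    unfold SC
    rw [dif_pos h]
  rw [e]
  exact (stmCoin K m r h.1 i j h.2.1 F F' h.2.2.1 h.2.2.2).choose_spec

/-- the conditions -/
def Cond (r : Fin m → ℕ) : (Fin m × Fin m × K[X] × K[X] × ℕ) ⊕
    ((Fin m → ℕ) × MvPolynomial (Fin m) K × Finset ℕ × ℕ) ⊕ MvPolynomial (Fin m) K →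
    ℝ → (Fin m → K[X]) → Prop
  | .inl ⟨i, j, F, F', n⟩ => fun T P => i ≠ j ∧ F ≠ 0 ∧ F' ≠ 0 ∧ ∃ Q : Finset ℕ,
      (∀ p ∈ Q, p.Prime ∧ NearP (SC r i j F F') F (P i) p ∧ NearP (SC r i j F F') F' (P j) p) ∧
        (1 / ((n : ℝ) + 1)) * T < ∑ p ∈ Q, Real.log p
  | .inr (.inl ⟨q, G, S, n⟩) => fun T P => G ≠ 0 ∧ (∀ i, G.degreeOf i ≤ q i) ∧
      (∀ p ∈ S, p.Prime) ∧ ∃ (L : Type) (_ : Field L) (_ : NumberField L) (_ : Algebra K L)
      (x : Fin m → L), (∀ i, minpoly K (x i) = P i) ∧ MvPolynomial.aeval x G ≠ 0 ∧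
        (1 / ((n : ℝ) + 1)) * T * finrank ℚ L < proxM S q G x
  | .inr (.inr G) => fun _ P => G ≠ 0 ∧ ∃ (L : Type) (_ : Field L) (_ : NumberField L)
      (_ : Algebra K L) (x : Fin m → L), (∀ i, minpoly K (x i) = P i) ∧ MvPolynomial.aeval x G = 0

theorem count_false {r : Fin m → ℕ} (p : ℝ → (Fin m → K[X]) → Prop) (h : ∀ T P, ¬ p T P) :
    ∃ ν C : ℝ, 0 < ν ∧ ∀ U : ℝ, 0 ≤ U →
      ({P | p (U / 2) P ∧ HT r U P}.ncard : ℝ) ≤ C * Real.exp ((DD r - ν) * U) := by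
  refine ⟨1, 0, one_pos, fun U _ => ?_⟩
  have : {P | p (U / 2) P ∧ HT r U P} = ∅ := by
    ext P
    simp only [Set.mem_ofPred_eq, Set.mem_empty_iff_false, iff_false, not_and]
    intro h1
    exact absurd h1 (h _ _)
  rw [this, Set.ncard_empty, zero_mul, Nat.cast_zero]

/-- one exceptional set for the conditions -/
theorem exists_E (hm : 0 < m) (r : Fin m → ℕ) (hr : ∀ i, 1 ≤ r i) :
    ∃ E : Set (Fin m → K[X]), (∀ T : ℝ, 0 ≤ T → {P | P ∈ E ∧ HT r T P}.Finite ∧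
      ({P | P ∈ E ∧ HT r T P}.ncard : ℝ) ≤ Real.exp (DD r * T - √T)) ∧
    ∀ j, ∃ U : ℝ, 0 ≤ U ∧ ∀ P, P ∉ E → ∀ T, HT r T P → ¬ HT r (T / 2) P → Cond r j T P →
      HT r U P := by
  have c1 := Pool.Agent.N572.DR.KE.countable_pol K
  have c2 := countable_mv K m
  refine diagT hm r hr _ (Cond r) ?_ ?_
  · rintro (⟨i, j, F, F', n⟩ | ⟨q, G, S, n⟩ | G) T T' P hTT h
    · obtain ⟨h1, h2, h3, Q, h4, h5⟩ := h
      refine ⟨h1, h2, h3, Q, h4, lt_of_le_of_lt ?_ h5⟩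
      exact mul_le_mul_of_nonneg_left hTT (by positivity)
    · obtain ⟨h1, h2, h3, L, _, _, _, x, h4, h5, h6⟩ := h
      refine ⟨h1, h2, h3, L, _, _, _, x, h4, h5, lt_of_le_of_lt ?_ h6⟩
      exact mul_le_mul_of_nonneg_right (mul_le_mul_of_nonneg_left hTT (by positivity))
        (Nat.cast_nonneg _)
    · exact h
  · rintro (⟨i, j, F, F', n⟩ | ⟨q, G, S, n⟩ | G)
    · by_cases hh : i ≠ j ∧ F ≠ 0 ∧ F' ≠ 0
      · obtain ⟨ν, C, hν, h⟩ := (SC_spec hr hh.1 hh.2.1 hh.2.2).2 (1 / ((n : ℝ) + 1) / 2)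
          (by positivity)
        refine ⟨ν, C, hν, fun U hU => ?_⟩
        obtain ⟨h1, h2⟩ := h U hU
        refine le_trans ?_ h2
        refine Nat.cast_le.2 (Set.ncard_le_ncard ?_ h1)
        rintro P ⟨⟨-, -, -, Q, h4, h5⟩, h6⟩
        refine ⟨⟨Q, h4, ?_⟩, h6⟩
        have e : 1 / ((n : ℝ) + 1) / 2 * U = 1 / ((n : ℝ) + 1) * (U / 2) := by ring
        rw [e]
        exact h5
      · exact count_false _ fun T P h => hh ⟨h.1, h.2.1, h.2.2.1⟩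
    · by_cases hh : G ≠ 0 ∧ (∀ i, G.degreeOf i ≤ q i) ∧ (∀ p ∈ S, p.Prime)
      · obtain ⟨ν, C, hν, h⟩ := Pool.Agent.V8H31.AC.stmProxM K m r q hr G hh.1 hh.2.1 S hh.2.2
          (1 / ((n : ℝ) + 1) / 2) (by positivity)
        refine ⟨ν, C, hν, fun U hU => ?_⟩
        obtain ⟨h1, h2⟩ := h U hU
        refine le_trans ?_ h2
        refine Nat.cast_le.2 (Set.ncard_le_ncard ?_ h1)
        rintro P ⟨⟨-, -, -, L, iF, iN, iA, x, h4, h5, h6⟩, h7⟩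
        refine ⟨⟨L, iF, iN, iA, x, h4, h5, ?_⟩, h7⟩
        have e : 1 / ((n : ℝ) + 1) / 2 * U = 1 / ((n : ℝ) + 1) * (U / 2) := by ring
        rw [e]
        exact h6
      · exact count_false _ fun T P h => hh ⟨h.1, h.2.1, h.2.2.1⟩
    · by_cases hh : G ≠ 0
      · obtain ⟨ν, C, hν, h⟩ := stmZero K m r hr G hh
        refine ⟨ν, C, hν, fun U hU => ?_⟩
        obtain ⟨h1, h2⟩ := h U hU
        refine le_trans ?_ h2
        refine Nat.cast_le.2 (Set.ncard_le_ncard ?_ h1)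
        rintro P ⟨⟨-, h4⟩, h7⟩
        exact ⟨h4, h7⟩
      · exact count_false _ fun T P h => hh h.1

end

end Pool.Agent.V8H31.PC
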