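import Mathlib
import Pool.Agent.N753.DR.Stm2
import Pool.Agent.N459.DR.Red
import Pool.Agent.N97.DR.Core
import Pool.Agent.N199.PC.Coin
import Pool.Agent.N130.PC.Cnt

/-!
# Project PC: the coefficient vector of a minimal polynomial
-/

set_option autoImplicit false
set_option linter.unusedSectionVars false

namespace Pool.Agent.V8H31.PC

open NumberField IsDedekindDomain Module Polynomial Pool.Agent.N753.DR
open Height (logHeight logHeight₁ mulHeight zero_le_logHeight₁)
open scoped LinearAlgebra.Projectivization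

section

variable {K : Type} [Field K] [NumberField K] {r : ℕ}

/-- few numbers of degree `r` have a small truncated counting function, with respect to the zeros
of a polynomial of degree at most `b` -/
def DegB (K : Type) [Field K] [NumberField K] (r b : ℕ) : Prop := ∀ (S : Finset ℕ)
  (F : K[X]), F.Monic → Irreducible F → F.natDegree ≤ b → ∀ κ : ℝ, 0 < κ →
  ∃ ν C : ℝ, 0 < ν ∧ ∀ U : ℝ, 0 ≤ U → {p : K[X] | BadF r S F κ p ∧ AtH r U p}.Finite ∧
    ({p : K[X] | BadF r S F κ p ∧ AtH r U p}.ncard : ℝ) ≤ C * Real.exp ((r + 1 - ν) * U)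

/-- the coefficient vector -/
def cv (r : ℕ) (p : K[X]) : Fin (r + 1) → K := fun i => p.coeff i

theorem cv_last {p : K[X]} (h : p.Monic ∧ p.natDegree = r) : cv r p (Fin.last r) = 1 := by
  unfold cv
  rw [Fin.val_last, ← h.2]
  exact h.1

theorem cv_ne_zero {p : K[X]} (h : p.Monic ∧ p.natDegree = r) : cv r p ≠ 0 := by
  intro h0
  have h1 := cv_last h
  rw [h0, Pi.zero_apply] at h1
  exact zero_ne_one h1

open Classical in
/-- the point of projective space -/
noncomputable def pt (r : ℕ) (p : K[X]) : ℙ K (Fin (r + 1) → K) :=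
  if h : p.Monic ∧ p.natDegree = r then Projectivization.mk K (cv r p) (cv_ne_zero h) else
    Projectivization.mk K (fun _ => (1 : K)) (by
      intro h
      have := congrFun h (Fin.last r)
      exact one_ne_zero this)

theorem pt_rep {p : K[X]} (h : p.Monic ∧ p.natDegree = r) : ∃ a : K, a ≠ 0 ∧
    (pt r p).rep = a • cv r p := by
  unfold pt
  rw [dif_pos h]
  obtain ⟨a, ha⟩ := Projectivization.exists_smul_eq_mk_rep K (cv r p) (cv_ne_zero h)
  exact ⟨a, a.ne_zero, ha.symm⟩

theorem pt_inj {p p' : K[X]} (h : p.Monic ∧ p.natDegree = r) (h' : p'.Monic ∧ p'.natDegree = r)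
    (he : pt r p = pt r p') : p = p' := by
  unfold pt at he
  rw [dif_pos h, dif_pos h', Projectivization.mk_eq_mk_iff'] at he
  obtain ⟨a, ha⟩ := he
  have h1 := congrFun ha (Fin.last r)
  rw [Pi.smul_apply, cv_last h, cv_last h', smul_eq_mul, mul_one] at h1
  rw [h1, one_smul] at ha
  ext i
  by_cases hi : i < r + 1
  · exact (congrFun ha ⟨i, hi⟩).symm
  · rw [coeff_eq_zero_of_natDegree_lt (by omega), coeff_eq_zero_of_natDegree_lt (by omega)]

theorem cv_sum {p : K[X]} (h : p.natDegree = r) : ∑ i : Fin (r + 1), C (cv r p i) * X ^ (i : ℕ) = p := by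
  unfold cv
  conv_rhs => rw [p.as_sum_range_C_mul_X_pow, h]
  exact (Finset.sum_range fun i => C (p.coeff i) * X ^ i).symm

/-- the height of an integral vector -/
theorem logHeight_int {ι : Type} [Fintype ι] [Nonempty ι] (c : ι → 𝓞 K) (hc : c ≠ 0) (B : ℝ)
    (hB : 1 ≤ B) (h : ∀ (v : InfinitePlace K) i, v (c i : K) ≤ B) :
    logHeight (fun i => (c i : K)) ≤ finrank ℚ K * Real.log B := by
  have hx' : (fun i => (c i : K)) ≠ 0 := by
    intro h0
    apply hc
    funext i
    exact RingOfIntegers.coe_eq_zero_iff.1 (congrFun h0 i)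
  have h1 := absNorm_mul_finprod_finitePlace_eq_one hc
  have hN : (1 : ℝ) ≤ (Ideal.absNorm (Ideal.span (Set.range c)) : ℝ) := by
    have : Ideal.absNorm (Ideal.span (Set.range c)) ≠ 0 := by
      intro h0
      rw [h0, Nat.cast_zero, zero_mul] at h1
      exact zero_ne_one h1
    exact_mod_cast Nat.one_le_iff_ne_zero.2 this
  have h2 : (∏ᶠ v : FinitePlace K, ⨆ i, v (c i : K)) ≤ 1 := by
    by_contra h3
    rw [not_le] at h3
    have h4 : 1 * 1 < (Ideal.absNorm (Ideal.span (Set.range c)) : ℝ) *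
        ∏ᶠ v : FinitePlace K, ⨆ i, v (c i : K) :=
      mul_lt_mul_of_le_of_lt_of_pos_of_nonneg hN h3 one_pos (by linarith)
    rw [mul_one] at h4
    exact absurd h1 h4.ne'
  have h2' : 0 < (∏ᶠ v : FinitePlace K, ⨆ i, v (c i : K)) := by
    by_contra h3
    rw [not_lt] at h3
    have h4 := mul_nonpos_of_nonneg_of_nonpos (by linarith :
      (0 : ℝ) ≤ (Ideal.absNorm (Ideal.span (Set.range c)) : ℝ)) h3
    have h1' : (Ideal.absNorm (Ideal.span (Set.range c)) : ℝ) *
        ∏ᶠ v : FinitePlace K, ⨆ i, v (c i : K) = 1 := h1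
    rw [h1'] at h4
    linarith
  have h3 : mulHeight (fun i => (c i : K)) ≤ B ^ finrank ℚ K := by
    rw [NumberField.mulHeight_eq hx']
    have e1 : ∏ v : InfinitePlace K, (⨆ i, v (c i : K)) ^ v.mult ≤ B ^ finrank ℚ K := by
      have e2 : B ^ finrank ℚ K = ∏ v : InfinitePlace K, B ^ v.mult := by
        rw [Finset.prod_pow_eq_pow_sum, InfinitePlace.sum_mult_eq]
      rw [e2]
      refine Finset.prod_le_prod (fun v _ => pow_nonneg (Real.iSup_nonneg fun i => apply_nonneg v _) _)
        fun v _ => ?_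
      refine pow_le_pow_left₀ (Real.iSup_nonneg fun i => apply_nonneg v _) ?_ _
      exact ciSup_le fun i => h v i
    have e3 : 0 ≤ ∏ v : InfinitePlace K, (⨆ i, v (c i : K)) ^ v.mult :=
      Finset.prod_nonneg fun v _ => pow_nonneg (Real.iSup_nonneg fun i => apply_nonneg v _) _
    calc (∏ v : InfinitePlace K, (⨆ i, v (c i : K)) ^ v.mult) *
          ∏ᶠ v : FinitePlace K, ⨆ i, v (c i : K) ≤
          (∏ v : InfinitePlace K, (⨆ i, v (c i : K)) ^ v.mult) * 1 :=
            mul_le_mul_of_nonneg_left h2 e3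
      _ ≤ _ := by rw [mul_one]; exact e1
  rw [Height.logHeight_eq_log_mulHeight, ← Real.log_pow]
  exact Real.log_le_log (Height.mulHeight_pos _) h3

/-- the height of the coefficient vector -/
theorem ht_cv (r : ℕ) (hr : 1 ≤ r) : ∃ C : ℝ, 0 ≤ C ∧ ∀ (M : Type) [Field M] [NumberField M]
    [Algebra K M] (x : M), finrank K M = r → (minpoly K x).natDegree = r →
      logHeight (pt r (minpoly K x)).rep ≤ logHeight₁ x + C := by
  classical
  obtain ⟨_, C0, hC0, hR⟩ := Pool.Agent.N459.DR.t K r hr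
  obtain ⟨A, hA⟩ : ∃ A : ℝ, A = 1 + ∑ v : InfinitePlace K, ∑ i,
    ‖v.embedding (RingOfIntegers.basis K i : K)‖ := ⟨_, rfl⟩
  have hA1 : 1 ≤ A := by
    rw [hA]
    have : 0 ≤ ∑ v : InfinitePlace K, ∑ i, ‖v.embedding (RingOfIntegers.basis K i : K)‖ :=
      Finset.sum_nonneg fun _ _ => Finset.sum_nonneg fun _ _ => norm_nonneg _
    linarith
  have hAv : ∀ v : InfinitePlace K, ∑ i, ‖v.embedding (RingOfIntegers.basis K i : K)‖ ≤ A := by
    intro v
    have := Finset.single_le_sum (f := fun v : InfinitePlace K => ∑ i,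
      ‖v.embedding (RingOfIntegers.basis K i : K)‖)
      (fun _ _ => Finset.sum_nonneg fun _ _ => norm_nonneg _) (Finset.mem_univ v)
    rw [hA]
    linarith
  have hn0 : (0 : ℝ) < finrank ℚ K := by exact_mod_cast finrank_pos
  refine ⟨finrank ℚ K * Real.log (A * (C0 + 1)), ?_, ?_⟩
  · refine mul_nonneg hn0.le (Real.log_nonneg ?_)
    nlinarith
  intro M _ _ _ x hM hx
  obtain ⟨c, l, hl, hcl, -, hsz⟩ := hR M x hM hx
  have hfd : FiniteDimensional K M := Module.Finite.of_restrictScalars_finite ℚ K M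
  have hmon : (minpoly K x).Monic ∧ (minpoly K x).natDegree = r :=
    ⟨minpoly.monic (Algebra.IsIntegral.isIntegral x), hx⟩
  obtain ⟨a, ha, hrep⟩ := pt_rep hmon
  have hc : c ≠ 0 := by
    intro h0
    have h1 := hcl (Fin.last r)
    have h2 : (minpoly K x).coeff ((Fin.last r : Fin (r + 1)) : ℕ) = 1 := cv_last hmon
    rw [h2, mul_one, h0] at h1
    apply hl
    rw [← h1]
    rfl
  have h1 : (fun i => (c i : K)) = l • cv r (minpoly K x) := by
    funext i
    exact hcl i
  have h2 : logHeight (pt r (minpoly K x)).rep = logHeight (fun i => (c i : K)) := by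
    rw [hrep, h1, Height.logHeight_smul_eq_logHeight _ ha, Height.logHeight_smul_eq_logHeight _ hl]
  rw [h2]
  obtain ⟨E, hE⟩ : ∃ E : ℝ, E = Real.exp (logHeight₁ x / finrank ℚ K) := ⟨_, rfl⟩
  have hE1 : 1 ≤ E := by
    rw [hE]
    exact Real.one_le_exp (div_nonneg (zero_le_logHeight₁ x) hn0.le)
  have h3 := logHeight_int c hc (A * (C0 + 1) * E) (by
    have : 1 ≤ A * (C0 + 1) := by nlinarith
    nlinarith) (by
    intro v i
    have e1 := Pool.Agent.N97.DR.Core.norm_le_sz (v.embedding.comp (algebraMap (𝓞 K) K)) (c i)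
    have e2 : v (c i : K) = ‖v.embedding (c i : K)‖ := (InfinitePlace.norm_embedding_eq v _).symm
    rw [e2]
    refine le_trans e1 ?_
    have e3 : (sz (c i) : ℝ) ≤ C0 * E := by
      rw [hE]
      exact hsz i
    calc _ ≤ A * (C0 * E) := mul_le_mul (hAv v) e3 (Nat.cast_nonneg _) (by linarith)
      _ ≤ A * (C0 + 1) * E := by nlinarith)
  refine h3.trans (le_of_eq ?_)
  rw [Real.log_mul (by positivity) (by linarith), hE, Real.log_exp]
  field_simp
  ring

end

end Pool.Agent.V8H31.PC
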