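import Mathlib
import Pool.Agent.V8H31.PC.DegB
import Pool.Agent.N572.DR.KE
import Pool.Agent.N415.DR.VK

/-!
# Project PC: the line, with an arbitrary bound for the degrees of the points
-/

set_option autoImplicit false
set_option linter.unusedSectionVars false

namespace Pool.Agent.V8H31.PC

open NumberField IsDedekindDomain Module Polynomial Pool.Agent.N753.DR
open Height (logHeight logHeight₁ zero_le_logHeight₁)

/-- outside `E` the truncated counting functions of conjugate points of degree at most `b` are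
large -/
def KEB {K : Type} [Field K] [NumberField K] (r b : ℕ) (E : Set K[X]) : Prop :=
  ∀ (S : Finset ℕ) (F : K[X]), F.Monic → Irreducible F → F.natDegree ≤ b →
    ∀ κ : ℝ, 0 < κ → ∃ C : ℝ, ∀ (M : Type) [Field M] [NumberField M] [Algebra K M] (x : M),
      finrank K M = r → (minpoly K x).natDegree = r → minpoly K x ∉ E →
      ∀ W : Finset (HeightOneSpectrum (𝓞 M)), (∀ w, Near S F x w → w ∈ W) →
        (F.natDegree - κ) * Height.logHeight₁ x ≤ ∑ w ∈ W, lN w + C

/-- outside `E` the truncated counting functions on the line are large -/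
def GoodVk {K : Type} [Field K] [NumberField K] (r b : ℕ) (E : Set K[X]) : Prop :=
  ∀ (k : Type) [Field k] [NumberField k] [Algebra K k] (q : ℕ) (a : Fin q → k),
    Function.Injective a → (∀ j, (minpoly K (a j)).natDegree ≤ b) → ∀ (S : Finset ℕ)
    (κ : ℝ), 0 < κ → ∃ C : ℝ, ∀ (M : Type) [Field M] [NumberField M] [Algebra K M] [Algebra k M]
      [IsScalarTower K k M] (x : M), IntermediateField.adjoin k {x} = ⊤ →
      (minpoly K x).natDegree = r → minpoly K x ∉ E → (∀ j, x ≠ algebraMap k M (a j)) →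
      ∀ W : Finset (HeightOneSpectrum (𝓞 M)),
        (∀ w, (∀ p ∈ S, p ≠ 0 → (p : 𝓞 M) ∉ w.asIdeal) → w.valuation M x ≤ 1 →
          (∃ j, w.valuation M (x - algebraMap k M (a j)) < 1) → w ∈ W) →
        (q - κ) * Height.logHeight₁ x ≤ ∑ w ∈ W, lN w + C

/-- KE -/
theorem keB {K : Type} [Field K] [NumberField K] {r b : ℕ} (h1 : StmDiag) (h2 : DegB K r b) :
    ∃ E : Set K[X], (∀ U : ℝ, 0 ≤ U → {p | p ∈ E ∧ AtH r U p}.Finite ∧
      ({p | p ∈ E ∧ AtH r U p}.ncard : ℝ) ≤ Real.exp ((r + 1) * U - √U)) ∧ KEB r b E := by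
  have hcount := Pool.Agent.N572.DR.KE.countable_pol K
  have hmono : ∀ (U U' : ℝ) (p : K[X]), U ≤ U' → AtH r U p → AtH r U' p := by
    rintro U U' p hUU ⟨M, i1, i2, i3, x, h3, h4, h5, h6⟩
    exact ⟨M, i1, i2, i3, x, h3, h4, h5, h6.trans hUU⟩
  obtain ⟨E, hE1, hE2⟩ := h1 K[X] (Finset ℕ × K[X] × ℕ) (fun U p => AtH r U p) hmono
    (fun j p => j.2.1.Monic ∧ Irreducible j.2.1 ∧ j.2.1.natDegree ≤ b ∧
      BadF r j.1 j.2.1 (1 / ((j.2.2 : ℝ) + 1)) p) ((r : ℝ) + 1) (by positivity) (by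
    rintro ⟨S, F, i⟩
    by_cases hF : F.Monic ∧ Irreducible F ∧ F.natDegree ≤ b
    · obtain ⟨ν, C, hν, hC⟩ := h2 S F hF.1 hF.2.1 hF.2.2 (1 / ((i : ℝ) + 1)) (by positivity)
      refine ⟨ν, C, hν, fun U hU => ?_⟩
      have he : {p : K[X] | (F.Monic ∧ Irreducible F ∧ F.natDegree ≤ b ∧
          BadF r S F (1 / ((i : ℝ) + 1)) p) ∧ AtH r U p} =
          {p : K[X] | BadF r S F (1 / ((i : ℝ) + 1)) p ∧ AtH r U p} := by
        ext p
        simp only [Set.mem_ofPred_eq]
        tauto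
      simp only [he]
      exact hC U hU
    · refine ⟨1, 0, one_pos, fun U hU => ?_⟩
      have he : {p : K[X] | (F.Monic ∧ Irreducible F ∧ F.natDegree ≤ b ∧
          BadF r S F (1 / ((i : ℝ) + 1)) p) ∧ AtH r U p} = ∅ := by
        rw [Set.eq_empty_iff_forall_notMem]
        rintro p ⟨⟨h3, h4, h5, _⟩, _⟩
        exact hF ⟨h3, h4, h5⟩
      simp only [he]
      simp)
  refine ⟨E, hE1, ?_⟩
  intro S F hF1 hF2 hF3 κ hκ
  obtain ⟨i, hi⟩ := exists_nat_one_div_lt hκ
  obtain ⟨U, hU0, hU⟩ := hE2 (S, F, i)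
  refine ⟨F.natDegree * U, ?_⟩
  intro M _ _ _ x hM hx hxE W hW
  have hht : 0 ≤ Height.logHeight₁ x := Height.zero_le_logHeight₁ x
  have hsum : 0 ≤ ∑ w ∈ W, lN w := Finset.sum_nonneg fun w _ => Pool.Agent.N572.DR.KE.lN_nonneg w
  have hdeg : (0 : ℝ) ≤ F.natDegree := by positivity
  rcases lt_or_ge (∑ w ∈ W, lN w) ((F.natDegree - 1 / ((i : ℝ) + 1)) * Height.logHeight₁ x)
    with hlt | hge
  · have hbad : BadF r S F (1 / ((i : ℝ) + 1)) (minpoly K x) :=
      ⟨M, inferInstance, inferInstance, inferInstance, x, hM, hx, rfl, W, hW, hlt⟩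
    obtain ⟨M', i1, i2, i3, x', h3, h4, h5, h6⟩ := hU (minpoly K x) hxE ⟨hF1, hF2, hF3, hbad⟩
    have h7 : Height.logHeight₁ x = Height.logHeight₁ x' :=
      Pool.Agent.N572.DR.Inv.ht_inv x x' (by rw [hx, hM]) (by rw [h4, h3]) h5.symm
    have h8 : Height.logHeight₁ x ≤ U := h7.trans_le h6
    have h9 : (F.natDegree : ℝ) * Height.logHeight₁ x ≤ F.natDegree * U :=
      mul_le_mul_of_nonneg_left h8 hdeg
    nlinarith
  · have h3 : (F.natDegree - κ) * Height.logHeight₁ x ≤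
        (F.natDegree - 1 / ((i : ℝ) + 1)) * Height.logHeight₁ x :=
      mul_le_mul_of_nonneg_right (by linarith) hht
    have h4 : (0 : ℝ) ≤ F.natDegree * U := mul_nonneg hdeg hU0
    linarith


open Pool.Agent.N415.DRVK in
/-- the points of degree `r` over `K` and the points of the line over extensions `k` -/
theorem vkB {K : Type} [Field K] [NumberField K] {r b : ℕ} {E : Set K[X]}
    (hE2 : KEB r b E) : GoodVk r b E := by
  classical
  intro k _ _ _ q a ha hdeg S κ hκ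
  rcases Nat.eq_zero_or_pos q with rfl | hq
  · refine ⟨0, ?_⟩
    intro M _ _ _ _ _ x _ _ _ _ W _
    have h1 := zero_le_logHeight₁ x
    have h2 : 0 ≤ ∑ w ∈ W, lN w := Finset.sum_nonneg fun w _ => lN_nonneg w
    have h3 : 0 ≤ κ * logHeight₁ x := mul_nonneg hκ.le h1
    rw [Nat.cast_zero, zero_sub, neg_mul]
    linarith
  have hq' : (0 : ℝ) < q := by exact_mod_cast hq
  set κ' := κ / q with hκ'
  have hκ'0 : 0 < κ' := div_pos hκ hq'
  have hqκ : (q : ℝ) * κ' = κ := by rw [hκ']; field_simp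
  obtain ⟨ζ, hζ⟩ := exists_prim K k
  obtain ⟨m, hm0, hmD⟩ := exists_mult (disc_ne (K := K) ζ)
  have hsep : ∀ i j : Fin q, ∃ n : ℕ, n ≠ 0 ∧ (i ≠ j →
      ∀ (M : Type) [Field M] [NumberField M] [Algebra k M] (w : HeightOneSpectrum (𝓞 M)),
        (n : 𝓞 M) ∉ w.asIdeal → ¬ w.valuation M (algebraMap k M (a i - a j)) < 1) := by
    intro i j
    by_cases hij : i = j
    · exact ⟨1, one_ne_zero, fun h => absurd hij h⟩
    · obtain ⟨n, hn, hn'⟩ := sep (sub_ne_zero.2 fun h => hij (ha h))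
      exact ⟨n, hn, fun _ => hn'⟩
  choose n hn0 hn using hsep
  set S' : Finset ℕ := insert m (S ∪ Finset.univ.image fun p : Fin q × Fin q => n p.1 p.2)
    with hS'
  have hSS' : S ⊆ S' := fun p hp => Finset.mem_insert_of_mem (Finset.mem_union_left _ hp)
  have hnS' : ∀ i j, n i j ∈ S' := fun i j => Finset.mem_insert_of_mem
    (Finset.mem_union_right _ (Finset.mem_image.2 ⟨(i, j), Finset.mem_univ _, rfl⟩))
  have hFm : ∀ j, (minpoly K (a j)).Monic := fun j =>
    minpoly.monic (Algebra.IsIntegral.isIntegral _)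
  have hFi : ∀ j, Irreducible (minpoly K (a j)) := fun j =>
    minpoly.irreducible (Algebra.IsIntegral.isIntegral _)
  choose CK hCK using fun j => hE2 S' (minpoly K (a j)) (hFm j) (hFi j) (hdeg j) κ' hκ'0
  choose Cm hCm0 hCm using fun j => main_j r E S' ζ hζ m hm0 (Finset.mem_insert_self _ _) hmD (a j)
    κ' (CK j) (hCK j)
  choose Cc hCc0 hCc using fun j => conj_ht (minpoly K (a j)) (hFi j)
  have hsC : 0 ≤ ∑ j, Cm j := Finset.sum_nonneg fun j _ => hCm0 j
  have hcC : ∀ j, 0 ≤ (finrank ℚ k * r : ℝ) * Cc j := fun j =>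
    mul_nonneg (mul_nonneg (Nat.cast_nonneg _) (Nat.cast_nonneg _)) (hCc0 j)
  refine ⟨∑ j, Cm j + q * ∑ j, (finrank ℚ k * r : ℝ) * Cc j, ?_⟩
  intro M _ _ _ _ _ x hx hxr hxE hxa W hW
  have hW0 : 0 ≤ ∑ w ∈ W, lN w := Finset.sum_nonneg fun w _ => lN_nonneg w
  have hh0 := zero_le_logHeight₁ x
  by_cases hz : ∃ j, aeval x (minpoly K (a j)) = 0
  · obtain ⟨j, hj⟩ := hz
    have h1 := hCc j M x hj
    have hkM : finrank k M ≤ r := by
      rw [← hxr]
      have h1 : finrank k M = (minpoly k x).natDegree := by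
        rw [← IntermediateField.adjoin.finrank (K := k) (Algebra.IsIntegral.isIntegral x), hx,
          IntermediateField.finrank_top']
      rw [h1]
      have h2 : minpoly k x ∣ (minpoly K x).map (algebraMap K k) :=
        minpoly.dvd_map_of_isScalarTower K k x
      have h3 := natDegree_le_of_dvd h2
        ((minpoly.monic (Algebra.IsIntegral.isIntegral x)).map _).ne_zero
      rwa [natDegree_map] at h3
    have d1 : (finrank ℚ M : ℝ) = (finrank ℚ k : ℝ) * (finrank k M : ℝ) := by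
      exact_mod_cast (Module.finrank_mul_finrank ℚ k M).symm
    have d4 : (finrank k M : ℝ) ≤ r := by exact_mod_cast hkM
    have d5 : (finrank ℚ M : ℝ) * Cc j ≤ (finrank ℚ k * r : ℝ) * Cc j := by
      refine mul_le_mul_of_nonneg_right ?_ (hCc0 j)
      rw [d1]
      exact mul_le_mul_of_nonneg_left d4 (Nat.cast_nonneg _)
    have d6 : (finrank ℚ k * r : ℝ) * Cc j ≤ ∑ j, (finrank ℚ k * r : ℝ) * Cc j :=
      Finset.single_le_sum (f := fun j => (finrank ℚ k * r : ℝ) * Cc j)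
        (fun j _ => hcC j) (Finset.mem_univ j)
    have d7 : (q : ℝ) * logHeight₁ x ≤ q * ∑ j, (finrank ℚ k * r : ℝ) * Cc j :=
      mul_le_mul_of_nonneg_left (h1.trans (d5.trans d6)) hq'.le
    have d8 : 0 ≤ κ * logHeight₁ x := mul_nonneg hκ.le hh0
    rw [sub_mul]
    linarith
  · push Not at hz
    choose T hT1 hT2 using fun j => hCm j M x hx hxr hxE (hz j)
    have hdisj : Set.PairwiseDisjoint (↑(Finset.univ : Finset (Fin q))) T := by
      intro i _ j _ hij
      rw [Function.onFun, Finset.disjoint_left]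
      intro w hwi hwj
      refine hn j i (fun h => hij h.symm) M w ((hT1 i w hwi).1 _ (hnS' j i) (hn0 j i)) ?_
      have h1 : algebraMap k M (a j - a i) =
          (x - algebraMap k M (a i)) - (x - algebraMap k M (a j)) := by
        rw [map_sub]; ring
      rw [h1]
      exact lt_of_le_of_lt (Valuation.map_sub _ _ _)
        (max_lt (hT1 i w hwi).2.2 (hT1 j w hwj).2.2)
    have hsub : Finset.univ.biUnion T ⊆ W := by
      intro w hw
      obtain ⟨j, _, hj⟩ := Finset.mem_biUnion.1 hw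
      exact hW w (fun p hp hp0 => (hT1 j w hj).1 p (hSS' hp) hp0) (hT1 j w hj).2.1 ⟨j, (hT1 j w hj).2.2⟩
    have h1 : ∑ j, ∑ w ∈ T j, lN w ≤ ∑ w ∈ W, lN w := by
      rw [← Finset.sum_biUnion hdisj]
      exact Finset.sum_le_sum_of_subset_of_nonneg hsub fun w _ _ => lN_nonneg w
    have h2 : ∑ _j : Fin q, (1 - κ') * logHeight₁ x ≤ ∑ j, (∑ w ∈ T j, lN w + Cm j) :=
      Finset.sum_le_sum fun j _ => hT2 j
    rw [Finset.sum_const, Finset.card_univ, Fintype.card_fin, nsmul_eq_mul,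
      Finset.sum_add_distrib] at h2
    have h3 : (q : ℝ) * ((1 - κ') * logHeight₁ x) = (q - κ) * logHeight₁ x := by
      rw [← hqκ]; ring
    have h4 : 0 ≤ (q : ℝ) * ∑ j, (finrank ℚ k * r : ℝ) * Cc j :=
      mul_nonneg hq'.le (Finset.sum_nonneg fun j _ => hcC j)
    linarith


end Pool.Agent.V8H31.PC
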