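import Mathlib
import Pool.Agent.V8H31.PC.OneSet
import Pool.Agent.V8H31.PC.VkB

/-!
# Project PC: one exceptional set, the properties
-/

set_option autoImplicit false

namespace Pool.Agent.V8H31.PC

open NumberField IsDedekindDomain Module Polynomial Pool.Agent.N753.DR
open Height (logHeight₁ zero_le_logHeight₁)

set_option linter.unusedSectionVars false

section

variable {K : Type} [Field K] [NumberField K] {m : ℕ}

theorem exists_n {κ : ℝ} (hκ : 0 < κ) : ∃ n : ℕ, 1 / ((n : ℝ) + 1) ≤ κ := by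
  obtain ⟨n, hn⟩ := exists_nat_one_div_lt hκ
  exact ⟨n, hn.le⟩

theorem HT_nonneg (hm : 0 < m) {r : Fin m → ℕ} (hr : ∀ i, 1 ≤ r i) {T : ℝ} {P : Fin m → K[X]}
    (h : HT r T P) : 0 ≤ T := by
  obtain ⟨M, _, _, _, x, _, _, _, h4⟩ := h ⟨0, hm⟩
  have h1 := (zero_le_logHeight₁ x).trans h4
  have h2 : (0 : ℝ) < r ⟨0, hm⟩ := by exact_mod_cast hr _
  by_contra h3
  rw [not_le] at h3
  have := mul_neg_of_pos_of_neg h2 h3
  linarith

theorem coin_of {r : Fin m → ℕ} (hr : ∀ i, 1 ≤ r i) {E : Set (Fin m → K[X])} (hm : 0 < m)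
    (h : ∀ j, ∃ U : ℝ, 0 ≤ U ∧ ∀ P, P ∉ E → ∀ T, HT r T P → ¬ HT r (T / 2) P → Cond r j T P →
      HT r U P) : GoodCoin r E := by
  intro i j hij F F' hF hF'
  refine ⟨SC r i j F F', (SC_spec hr hij hF hF').1, fun κ hκ => ?_⟩
  obtain ⟨n, hn⟩ := exists_n hκ
  obtain ⟨U, hU, h1⟩ := h (.inl ⟨i, j, F, F', n⟩)
  refine ⟨U, hU, fun P hP T h2 h3 Q hQ hlt => h1 P hP T h2 h3 ?_⟩
  refine ⟨hij, hF, hF', Q, hQ, lt_of_le_of_lt ?_ hlt⟩
  exact mul_le_mul_of_nonneg_right hn (HT_nonneg hm hr h2)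

theorem bd_of_HT {L : Type} [Field L] [NumberField L] [Algebra K L] {r : Fin m → ℕ}
    (hr : ∀ i, 1 ≤ r i) (x : Fin m → L) (hx : ∀ i, (minpoly K (x i)).natDegree = r i) {U : ℝ}
    (h : HT r U (fun i => minpoly K (x i))) (i : Fin m) :
    logHeight₁ (x i) ≤ finrank ℚ L * U := by
  rw [HT_iff hr x hx] at h
  have hd0 : (1 : ℝ) ≤ finrank ℚ K := by exact_mod_cast (finrank_pos : 0 < finrank ℚ K)
  have h1 := h i
  have h2 := zero_le_logHeight₁ (x i)
  have h3 : logHeight₁ (x i) ≤ finrank ℚ K * logHeight₁ (x i) := by nlinarith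
  linarith

theorem sum_bd_of_HT {L : Type} [Field L] [NumberField L] [Algebra K L] {r : Fin m → ℕ}
    (hr : ∀ i, 1 ≤ r i) (x : Fin m → L) (hx : ∀ i, (minpoly K (x i)).natDegree = r i) {U : ℝ}
    (h : HT r U (fun i => minpoly K (x i))) :
    ∑ i, logHeight₁ (x i) ≤ finrank ℚ L * (m * U) := by
  have h1 := Finset.sum_le_sum fun i (_ : i ∈ Finset.univ) => bd_of_HT hr x hx h i
  rw [Finset.sum_const, Finset.card_univ, Fintype.card_fin, nsmul_eq_mul] at h1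
  linarith

theorem proxM_eq {L : Type} [Field L] [NumberField L] [Algebra K L] (S : Finset ℕ) (q : Fin m → ℕ)
    (G : MvPolynomial (Fin m) K) (x : Fin m → L) :
    proxM S q G x = prZ (fun v : HeightOneSpectrum (𝓞 L) =>
      ∃ p ∈ S, (p : 𝓞 L) ∈ v.asIdeal) q x (MvPolynomial.aeval x G) := by
  classical
  unfold proxM prZ
  congr 1
  refine finsum_congr fun v => ?_
  by_cases h : ∃ p ∈ S, (p : 𝓞 L) ∈ v.asIdeal
  · rw [if_pos h, if_pos h]
  · rw [if_neg h, if_neg h]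

theorem prox_of {r : Fin m → ℕ} (hr : ∀ i, 1 ≤ r i) {E : Set (Fin m → K[X])} (hm : 0 < m)
    (h : ∀ j, ∃ U : ℝ, 0 ≤ U ∧ ∀ P, P ∉ E → ∀ T, HT r T P → ¬ HT r (T / 2) P → Cond r j T P →
      HT r U P) : GoodProx r E := by
  classical
  intro q G hG hq S hS κ hκ
  have hd1 : (1 : ℝ) ≤ finrank ℚ K := by exact_mod_cast (finrank_pos : 0 < finrank ℚ K)
  have hd0 : (0 : ℝ) < finrank ℚ K := by linarith
  obtain ⟨n, hn⟩ := exists_n (show 0 < κ / finrank ℚ K by positivity)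
  obtain ⟨U₁, hU₁, h1⟩ := h (.inr (.inl ⟨q, G, S, n⟩))
  obtain ⟨U₂, hU₂, h2⟩ := h (.inr (.inr G))
  obtain ⟨CG, hCG, hG'⟩ := Pool.Agent.N427.PC.HTMV.t K m G
  obtain ⟨U, hUdef⟩ : ∃ U : ℝ, U = max U₁ U₂ := ⟨_, rfl⟩
  have hU1 : U₁ ≤ U := hUdef ▸ le_max_left _ _
  have hU2 : U₂ ≤ U := hUdef ▸ le_max_right _ _
  have hU : 0 ≤ U := hU₁.trans hU1
  obtain ⟨Q, hQ⟩ : ∃ Q : ℝ, Q = ∑ i, (q i : ℝ) := ⟨_, rfl⟩
  have hQ0 : 0 ≤ Q := by rw [hQ]; exact Finset.sum_nonneg fun i _ => Nat.cast_nonneg _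
  refine ⟨(Q + 1) * U + CG * (m * U + 1) + m * U, by positivity, ?_⟩
  intro L iF iN iA x hx hP
  have hL0 : (0 : ℝ) < finrank ℚ L := by exact_mod_cast finrank_pos
  obtain ⟨T, hT0, hT1, hT2, hT3⟩ := exists_T hm hr x hx
  have hsum0 : 0 ≤ ∑ i, logHeight₁ (x i) := Finset.sum_nonneg fun i _ => zero_le_logHeight₁ _
  -- the bounded case
  have hbdd : HT r U (fun i => minpoly K (x i)) → MvPolynomial.aeval x G ≠ 0 →
      proxM S q G x ≤ finrank ℚ L * ((Q + 1) * U + CG * (m * U + 1)) := by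
    intro hb hg
    rw [proxM_eq]
    have h3 := Pool.Agent.N490.PC.Triv.t L m (fun v : HeightOneSpectrum (𝓞 L) =>
      ∃ p ∈ S, (p : 𝓞 L) ∈ v.asIdeal) q x (MvPolynomial.aeval x G) hg
    have h4 := hG' L x
    have h5 := sum_bd_of_HT hr x hx hb
    have h6 : ∑ i, (q i : ℝ) * logHeight₁ (x i) ≤ Q * (finrank ℚ L * U) := by
      rw [hQ, Finset.sum_mul]
      exact Finset.sum_le_sum fun i _ => mul_le_mul_of_nonneg_left (bd_of_HT hr x hx hb i)
        (Nat.cast_nonneg _)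
    have h7 : CG * (∑ i, logHeight₁ (x i) + finrank ℚ L) ≤
        CG * (finrank ℚ L * (m * U) + finrank ℚ L) :=
      mul_le_mul_of_nonneg_left (by linarith) hCG
    have h8 : 0 ≤ (finrank ℚ L : ℝ) * U := by positivity
    nlinarith
  refine ⟨fun hg => ?_, fun hg => ?_⟩
  · by_cases hcase : HT r U (fun i => minpoly K (x i))
    · have h3 := hbdd hcase hg
      have h4 : 0 ≤ κ * ∑ i, logHeight₁ (x i) := mul_nonneg hκ.le hsum0
      have h5 : 0 ≤ (finrank ℚ L : ℝ) * (m * U) := by positivity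
      have h6 : (finrank ℚ L : ℝ) * ((Q + 1) * U + CG * (m * U + 1) + m * U) =
        finrank ℚ L * ((Q + 1) * U + CG * (m * U + 1)) + finrank ℚ L * (m * U) := by ring
      rw [h6]
      linarith
    · have hTpos : 0 < T := by
        by_contra h3
        have h4 : T = 0 := le_antisymm (not_lt.1 h3) hT0
        rw [h4] at hT1
        exact hcase (Pool.Agent.N225.PC.ht_mono K r hU hT1)
      by_contra hlt
      rw [not_le] at hlt
      apply hcase
      refine Pool.Agent.N225.PC.ht_mono K r hU1 (h1 _ hP T hT1 (hT2 hTpos) ?_)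
      refine ⟨hG, hq, hS, L, iF, iN, iA, x, fun _ => rfl, hg, lt_of_le_of_lt ?_ hlt⟩
      have h3 : 1 / ((n : ℝ) + 1) * T * finrank ℚ L ≤ κ / finrank ℚ K * (T * finrank ℚ L) := by
        rw [mul_assoc]
        exact mul_le_mul_of_nonneg_right hn (by positivity)
      have h4 : κ / finrank ℚ K * (T * finrank ℚ L) ≤
          κ / finrank ℚ K * (finrank ℚ K * ∑ i, logHeight₁ (x i)) :=
        mul_le_mul_of_nonneg_left hT3 (by positivity)
      have h5 : κ / finrank ℚ K * (finrank ℚ K * ∑ i, logHeight₁ (x i)) =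
          κ * ∑ i, logHeight₁ (x i) := by field_simp
      have h6 : 0 ≤ (finrank ℚ L : ℝ) * ((Q + 1) * U + CG * (m * U + 1) + m * U) := by positivity
      linarith
  · have hcase : HT r U (fun i => minpoly K (x i)) := by
      by_cases hTpos : 0 < T
      · refine Pool.Agent.N225.PC.ht_mono K r hU2 (h2 _ hP T hT1 (hT2 hTpos) ?_)
        exact ⟨hG, L, iF, iN, iA, x, fun _ => rfl, hg⟩
      · have h4 : T = 0 := le_antisymm (not_lt.1 hTpos) hT0
        rw [h4] at hT1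
        exact Pool.Agent.N225.PC.ht_mono K r hU hT1
    have h3 := sum_bd_of_HT hr x hx hcase
    have h4 : 0 ≤ (finrank ℚ L : ℝ) * ((Q + 1) * U + CG * (m * U + 1)) := by positivity
    have h6 : (finrank ℚ L : ℝ) * ((Q + 1) * U + CG * (m * U + 1) + m * U) =
      finrank ℚ L * ((Q + 1) * U + CG * (m * U + 1)) + finrank ℚ L * (m * U) := by ring
    rw [h6]
    linarith

theorem prox_mono {r : Fin m → ℕ} {E E' : Set (Fin m → K[X])} (h : GoodProx r E)
    (hE : E ⊆ E') : GoodProx r E' := by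
  intro q G hG hq S hS κ hκ
  obtain ⟨C, hC, h1⟩ := h q G hG hq S hS κ hκ
  exact ⟨C, hC, fun L _ _ _ x hx hP => h1 L x hx fun h2 => hP (hE h2)⟩

theorem coin_mono {r : Fin m → ℕ} {E E' : Set (Fin m → K[X])} (h : GoodCoin r E)
    (hE : E ⊆ E') : GoodCoin r E' := by
  intro i j hij F F' hF hF'
  obtain ⟨S, hS, h1⟩ := h i j hij F F' hF hF'
  refine ⟨S, hS, fun κ hκ => ?_⟩
  obtain ⟨U, hU, h2⟩ := h1 κ hκ
  exact ⟨U, hU, fun P hP => h2 P fun h3 => hP (hE h3)⟩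

/-- tuples with one coordinate in a sparse set -/
theorem one_coord (r : Fin m → ℕ) (hr : ∀ i, 1 ≤ r i) (i : Fin m) (E : Set K[X]) (C₀ : ℝ)
    (hC₀ : 1 ≤ C₀) (hE : ∀ U : ℝ, 0 ≤ U → {p | p ∈ E ∧ AtH (r i) U p}.Finite ∧
      ({p | p ∈ E ∧ AtH (r i) U p}.ncard : ℝ) ≤ C₀ * Real.exp ((r i + 1) * U - √U)) :
    ∃ C : ℝ, 0 < C ∧ ∀ T : ℝ, 0 ≤ T →
      ({P : Fin m → K[X] | P i ∈ E ∧ HT r T P}.ncard : ℝ) ≤ C * Real.exp (DD r * T - √T) := by
  classical
  choose D hD hfin using fun k => Pool.Agent.N130.PC.Cnt.t K (r k) (hr k)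
  obtain ⟨D', hD'⟩ : ∃ D' : Fin m → ℝ, ∀ k, D' k = if k = i then C₀ else D k := ⟨_, fun _ => rfl⟩
  have hD'0 : ∀ k, 0 < D' k := by
    intro k
    rw [hD']
    split_ifs
    · linarith
    · exact hD k
  obtain ⟨g, hg⟩ : ∃ g : ℝ → Fin m → ℝ, ∀ T k, g T k = (r k : ℝ) * (r k + 1) * T -
    if k = i then √T else 0 := ⟨_, fun _ _ => rfl⟩
  refine ⟨∏ k, D' k, Finset.prod_pos fun k _ => hD'0 k, fun T hT => ?_⟩
  have hU : ∀ k, 0 ≤ (r k : ℝ) * T := fun k => by positivity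
  have hHf : ∀ k, {p : K[X] | AtH (r k) (r k * T) p}.Finite := fun k => (hfin k _ (hU k)).1
  have hEf : {p | p ∈ E ∧ AtH (r i) (r i * T) p}.Finite := (hE _ (hU i)).1
  have hF : {P : Fin m → K[X] | P i ∈ E ∧ HT r T P}.Finite :=
    (Pool.Agent.N225.PC.ht_finite Pool.Agent.N130.PC.Cnt.t K r hr T hT).subset fun P hP => hP.2
  rw [Set.ncard_eq_toFinset_card _ hF]
  have h5 : hF.toFinset ⊆ Fintype.piFinset fun k =>
      if k = i then hEf.toFinset else (hHf k).toFinset := by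
    intro P hP
    rw [Set.Finite.mem_toFinset] at hP
    rw [Fintype.mem_piFinset]
    intro k
    split_ifs with h
    · rw [Set.Finite.mem_toFinset, h]
      exact ⟨hP.1, hP.2 i⟩
    · rw [Set.Finite.mem_toFinset]
      exact hP.2 k
  have h7 := Finset.card_le_card h5
  rw [Fintype.card_piFinset] at h7
  calc (hF.toFinset.card : ℝ) ≤ ((∏ k, (if k = i then hEf.toFinset else
        (hHf k).toFinset).card : ℕ) : ℝ) := by exact_mod_cast h7
    _ = ∏ k, ((if k = i then hEf.toFinset else (hHf k).toFinset).card : ℝ) := by push_cast; rfl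
    _ ≤ ∏ k, (D' k * Real.exp (g T k)) := by
        refine Finset.prod_le_prod (fun k _ => Nat.cast_nonneg _) fun k _ => ?_
        rw [hD', hg]
        split_ifs with h
        · subst h
          have h8 := (hE _ (hU k)).2
          rw [Set.ncard_eq_toFinset_card _ hEf] at h8
          refine h8.trans (mul_le_mul_of_nonneg_left (Real.exp_le_exp.2 ?_) (by linarith))
          have h9 : √T ≤ √((r k : ℝ) * T) := by
            refine Real.sqrt_le_sqrt ?_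
            have : (1 : ℝ) ≤ r k := by exact_mod_cast hr k
            nlinarith
          have h10 : ((r k : ℝ) + 1) * (r k * T) = (r k : ℝ) * (r k + 1) * T := by ring
          rw [h10]
          linarith
        · have h8 := (hfin k _ (hU k)).2
          rw [Set.ncard_eq_toFinset_card _ (hHf k)] at h8
          refine h8.trans (le_of_eq ?_)
          rw [sub_zero]
          congr 2
          ring
    _ = _ := by
        rw [Finset.prod_mul_distrib, ← Real.exp_sum]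
        congr 2
        simp only [hg]
        rw [Finset.sum_sub_distrib, Finset.sum_ite_eq' Finset.univ i, if_pos (Finset.mem_univ _),
          ← Finset.sum_mul]
        rfl

/-- **one exceptional set** -/
theorem one_set (hm : 0 < m) (r b : Fin m → ℕ) (hr : ∀ i, 1 ≤ r i)
    (hVk : ∀ i, ∃ (E : Set K[X]) (C : ℝ), 1 ≤ C ∧ (∀ U : ℝ, 0 ≤ U →
      {p | p ∈ E ∧ AtH (r i) U p}.Finite ∧
      ({p | p ∈ E ∧ AtH (r i) U p}.ncard : ℝ) ≤ C * Real.exp ((r i + 1) * U - √U)) ∧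
      GoodVk (r i) (b i) E) :
    ∃ E : Set (Fin m → K[X]),
      (∃ C : ℝ, 0 < C ∧ ∀ T : ℝ, 0 ≤ T → {P | P ∈ E ∧ HT r T P}.Finite ∧
        ({P | P ∈ E ∧ HT r T P}.ncard : ℝ) ≤ C * Real.exp (DD r * T - √T)) ∧
      GoodProx r E ∧ GoodCoin r E ∧
      ∀ i, ∃ E' : Set K[X], GoodVk (r i) (b i) E' ∧ ∀ P, P ∉ E → P i ∉ E' := by
  classical
  obtain ⟨E₀, h1, h2⟩ := exists_E (K := K) hm r hr
  choose E' C' hC' hE1 hE2 using hVk
  choose C hC h3 using fun i => one_coord r hr i (E' i) (C' i) (hC' i) (hE1 i)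
  refine ⟨E₀ ∪ ⋃ i, {P | P i ∈ E' i}, ⟨1 + ∑ i, C i, ?_, ?_⟩,
    prox_mono (prox_of hr hm h2) Set.subset_union_left,
    coin_mono (coin_of hr hm h2) Set.subset_union_left,
    fun i => ⟨E' i, hE2 i, fun P hP h => hP (Or.inr (Set.mem_iUnion.2 ⟨i, h⟩))⟩⟩
  · have := Finset.sum_nonneg fun i (_ : i ∈ Finset.univ) => (hC i).le
    linarith
  intro T hT
  have hfin := Pool.Agent.N225.PC.ht_finite Pool.Agent.N130.PC.Cnt.t K r hr T hT
  refine ⟨hfin.subset fun P hP => hP.2, ?_⟩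
  have hsub : {P | P ∈ E₀ ∪ ⋃ i, {P : Fin m → K[X] | P i ∈ E' i} ∧ HT r T P} =
      {P | P ∈ E₀ ∧ HT r T P} ∪ ⋃ i, {P | P i ∈ E' i ∧ HT r T P} := by
    ext P
    simp only [Set.mem_ofPred_eq, Set.mem_union, Set.mem_iUnion]
    constructor
    · rintro ⟨h | ⟨i, h⟩, h'⟩
      · exact Or.inl ⟨h, h'⟩
      · exact Or.inr ⟨i, h, h'⟩
    · rintro (⟨h, h'⟩ | ⟨i, h, h'⟩)
      · exact ⟨Or.inl h, h'⟩
      · exact ⟨Or.inr ⟨i, h⟩, h'⟩
  rw [hsub]
  have h4 : (({P | P ∈ E₀ ∧ HT r T P} ∪ ⋃ i, {P | P i ∈ E' i ∧ HT r T P}).ncard : ℝ) ≤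
      ({P | P ∈ E₀ ∧ HT r T P}.ncard : ℝ) +
        ∑ i, ({P : Fin m → K[X] | P i ∈ E' i ∧ HT r T P}.ncard : ℝ) := by
    have h5 := Set.ncard_union_le {P | P ∈ E₀ ∧ HT r T P}
      (⋃ i, {P : Fin m → K[X] | P i ∈ E' i ∧ HT r T P})
    have h6 := Set.ncard_iUnion_le_of_fintype fun i => {P : Fin m → K[X] | P i ∈ E' i ∧ HT r T P}
    exact_mod_cast h5.trans (Nat.add_le_add_left h6 _)
  refine h4.trans ?_
  rw [add_mul, one_mul, Finset.sum_mul]
  exact add_le_add (h1 T hT).2 (Finset.sum_le_sum fun i _ => h3 i T hT)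

end

end Pool.Agent.V8H31.PC
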