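import Mathlib
import Pool.Agent.V8H31.PC.OneSet2
import Pool.Agent.V8H31.PC.Combine
import Pool.Agent.N395.CV.KeyB

/-!
# Project PC: the main theorem for fixed covers
-/

set_option autoImplicit false
set_option linter.unusedSectionVars false

namespace Pool.Agent.V8H31.PC

open NumberField IsDedekindDomain Module Polynomial Pool.Agent.N753.DR
open Height (logHeight₁ zero_le_logHeight₁)
open IntermediateField (AdjoinSimple.gen)

/-- the coordinate function -/
noncomputable def coord (k A : Type) [Field k] [CommRing A] [Algebra k[X] A] : A :=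
  algebraMap k[X] A X

section

variable {k A : Type} [Field k] [NumberField k] [CommRing A] [IsDedekindDomain A] [Algebra k A]
  [Algebra k[X] A] [IsScalarTower k k[X] A] [Module.Finite k[X] A] [FaithfulSMul k[X] A]

theorem algebraMap_sub (a : k) : algebraMap k[X] A (X - C a) = coord k A - algebraMap k A a := by
  rw [map_sub, IsScalarTower.algebraMap_apply k k[X] A a]
  rfl

/-- KeyB for a point of the line over `k` -/
theorem keyC {q : ℕ} (a : Fin q → k) (v : Fin q → ℕ) (y : ∀ j, Fin (v j) → A)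
    (F : Fin q → Ideal A) (hF : ∀ j, F j ≠ ⊥)
    (hy : ∀ j i, ∀ f ∈ F j, y j i * f ∈ (Ideal.span {coord k A - algebraMap k A (a j)}).radical)
    (ε : ℝ) (hε : 0 < ε) : ∃ (T : ℕ) (C : ℝ) (G : ℚ[X]), T ≠ 0 ∧ 0 ≤ C ∧ G ≠ 0 ∧
    ∀ (S : Finset ℕ) (L : Type) [Field L] [NumberField L] [Algebra k L] (P : A →ₐ[k] L),
      aeval (P (coord k A)) G ≠ 0 → (∀ j, P (coord k A) ≠ algebraMap k L (a j)) →
      ∀ W W' : Finset (HeightOneSpectrum (𝓞 L)),
        (∀ w ∈ W, (T : 𝓞 L) ∉ w.asIdeal ∧ (∀ p ∈ S, (p : 𝓞 L) ∉ w.asIdeal) ∧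
          w.valuation L (P (coord k A)) ≤ 1 ∧
          ∃ j, w.valuation L (P (coord k A) - algebraMap k L (a j)) < 1) →
        (∀ w, (∀ p ∈ S, (p : 𝓞 L) ∉ w.asIdeal) → w.valuation L (P (coord k A)) ≤ 1 →
          (∃ j, w.valuation L (P (coord k A) - algebraMap k L (a j)) < 1 ∧
            ∀ i, w.valuation L (P (y j i)) < 1) → w ∈ W') →
        ∑ w ∈ W, lN w ≤ ∑ w ∈ W', lN w +
          ((∑ j, (finrank k (A ⧸ F j) : ℝ)) / finrank k[X] A + ε) *
            logHeight₁ (P (coord k A)) + finrank ℚ L * C := by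
  obtain ⟨T, C', G, hT, hC, hG, h⟩ := Pool.Agent.N395.CV.t k k[X] A (Algebra.ofId k[X] A) q
    (fun _ => 1) v (fun j _ => X - C (a j)) y F hF (by
      intro j i f hf
      have h1 := hy j i f hf
      have e : (Ideal.span (Set.range fun _ : Fin 1 => Algebra.ofId k[X] A (X - C (a j)))) =
          Ideal.span {coord k A - algebraMap k A (a j)} := by
        rw [Set.range_const, Algebra.ofId_apply, algebraMap_sub]
      rw [e]
      exact h1) ε hε
  refine ⟨T, C', G, hT, hC, hG, ?_⟩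
  intro S L _ _ _ P hP hne W W' hW hW'
  have e : ∀ j, P (Algebra.ofId k[X] A (X - C (a j))) = P (coord k A) - algebraMap k L (a j) := by
    intro j
    rw [Algebra.ofId_apply, algebraMap_sub, map_sub, P.commutes]
  refine h S L P hP (fun j => ⟨0, ?_⟩) W W' ?_ ?_
  · rw [e]
    exact sub_ne_zero.2 (hne j)
  · intro w hw
    obtain ⟨h1, h2, h3, j, h4⟩ := hW w hw
    refine ⟨h1, h2, h3, j, fun l => ?_⟩
    rw [e]
    exact h4
  · intro w h1 h2 h3
    obtain ⟨j, h4, h5⟩ := h3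
    refine hW' w h1 h2 ⟨j, ?_, h5⟩
    have := h4 0
    rw [e] at this
    exact this

end

open Classical in
/-- **the main theorem** -/
theorem main {K : Type} [Field K] [NumberField K] {m : ℕ} (hm : 0 < m) {r b : Fin m → ℕ}
    (hr : ∀ i, 1 ≤ r i) {E : Set (Fin m → K[X])} (hcoin : GoodCoin r E)
    (hvk : ∀ i, ∃ E' : Set K[X], GoodVk (r i) (b i) E' ∧ ∀ P, P ∉ E → P i ∉ E')
    (k : Type) [Field k] [NumberField k] [Algebra K k] (A : Fin m → Type)
    [∀ i, CommRing (A i)] [∀ i, IsDedekindDomain (A i)] [∀ i, Algebra k (A i)]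
    [∀ i, Algebra k[X] (A i)] [∀ i, IsScalarTower k k[X] (A i)]
    [∀ i, Module.Finite k[X] (A i)] [∀ i, FaithfulSMul k[X] (A i)]
    (q : Fin m → ℕ) (a : ∀ i, Fin (q i) → k) (ha : ∀ i, Function.Injective (a i))
    (hdeg : ∀ i j, (minpoly K (a i j)).natDegree ≤ b i)
    (v : ∀ i, Fin (q i) → ℕ) (y : ∀ i j, Fin (v i j) → A i) (F : ∀ i, Fin (q i) → Ideal (A i))
    (hF : ∀ i j, F i j ≠ ⊥)
    (hy : ∀ i j l, ∀ f ∈ F i j, y i j l * f ∈
      (Ideal.span {coord k (A i) - algebraMap k (A i) (a i j)}).radical)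
    (ε : ℝ) (hε : 0 < ε) :
    ∃ C : ℝ, 0 ≤ C ∧ ∀ (L : Type) [Field L] [NumberField L] [Algebra K L] [Algebra k L]
      [IsScalarTower K k L] (φ : ∀ i, A i →ₐ[k] L),
      (∀ i, (minpoly K (φ i (coord k (A i)))).natDegree = r i) →
      (fun i => minpoly K (φ i (coord k (A i)))) ∉ E →
      (∀ i j, φ i (coord k (A i)) ≠ algebraMap k L (a i j)) →
      ∀ N : Finset (HeightOneSpectrum (𝓞 L)),
        (∀ u i, u.valuation L (φ i (coord k (A i))) ≤ 1 →
          (∃ j, u.valuation L (φ i (coord k (A i)) - algebraMap k L (a i j)) < 1 ∧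
            ∀ l, u.valuation L (φ i (y i j l)) < 1) → u ∈ N) →
        ∑ i, (q i - (∑ j, (finrank k (A i ⧸ F i j) : ℝ)) / finrank k[X] (A i) - ε) *
            logHeight₁ (φ i (coord k (A i))) ≤
          ∑ u ∈ N, lN u + Real.log |(discr L : ℝ)| + finrank ℚ L * C := by
  have hfdK : FiniteDimensional K k := Module.Finite.of_restrictScalars_finite ℚ K k
  -- KeyB
  choose T CB G hT hCB hG hkey using fun i => keyC (a i) (v i) (y i) (F i) (hF i) (hy i) (ε / 3)
    (by positivity)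
  -- coincidences
  have hmin : ∀ i j, minpoly K (a i j) ≠ 0 := fun i j =>
    minpoly.ne_zero (Algebra.IsIntegral.isIntegral _)
  have hco : ∀ i i' : Fin m, ∀ j j', ∃ S : Finset ℕ, (∀ p ∈ S, p ≠ 0) ∧ (i ≠ i' → ∀ κ : ℝ, 0 < κ →
      ∃ U : ℝ, 0 ≤ U ∧ ∀ P, P ∉ E → ∀ T, HT r T P → ¬ HT r (T / 2) P →
      ∀ Q : Finset ℕ, (∀ p ∈ Q, p.Prime ∧ NearP S (minpoly K (a i j)) (P i) p ∧
        NearP S (minpoly K (a i' j')) (P i') p) →
        κ * T < ∑ p ∈ Q, Real.log p → HT r U P) := by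
    intro i i' j j'
    by_cases hii : i = i'
    · exact ⟨∅, fun p hp => absurd hp (Finset.notMem_empty p), fun h => absurd hii h⟩
    · obtain ⟨S, hS, h⟩ := hcoin i i' hii _ _ (hmin i j) (hmin i' j')
      exact ⟨S, hS, fun _ => h⟩
  choose SC' hSC0 hSC using hco
  choose n hn hnear using fun i j => near_poly (K := K) (a i j)
  -- the primes which are left out
  obtain ⟨S₀, hS₀⟩ : ∃ S₀ : Finset ℕ, S₀ = (Finset.univ.image T) ∪
    (Finset.univ.biUnion fun i => Finset.univ.image (n i)) ∪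
    (Finset.univ.biUnion fun i => Finset.univ.biUnion fun i' => Finset.univ.biUnion fun j =>
      Finset.univ.biUnion fun j' => SC' i i' j j') := ⟨_, rfl⟩
  have hTS : ∀ i, T i ∈ S₀ := by
    intro i
    rw [hS₀]
    exact Finset.mem_union_left _ (Finset.mem_union_left _
      (Finset.mem_image_of_mem _ (Finset.mem_univ i)))
  have hnS : ∀ i j, n i j ∈ S₀ := by
    intro i j
    rw [hS₀]
    exact Finset.mem_union_left _ (Finset.mem_union_right _ (Finset.mem_biUnion.2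
      ⟨i, Finset.mem_univ i, Finset.mem_image_of_mem _ (Finset.mem_univ j)⟩))
  have hSCS : ∀ i i' j j', SC' i i' j j' ⊆ S₀ := by
    intro i i' j j' p hp
    rw [hS₀]
    exact Finset.mem_union_right _ (Finset.mem_biUnion.2 ⟨i, Finset.mem_univ i,
      Finset.mem_biUnion.2 ⟨i', Finset.mem_univ i', Finset.mem_biUnion.2 ⟨j, Finset.mem_univ j,
        Finset.mem_biUnion.2 ⟨j', Finset.mem_univ j', hp⟩⟩⟩⟩)
  -- the line
  choose E' hE' hEE' using hvk
  choose CV hCV using fun i => hE' i k (q i) (a i) (ha i) (hdeg i) S₀ (ε / 3) (by positivity)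
  -- the number of quadruples
  obtain ⟨np, hnp⟩ : ∃ np : ℝ, np = ∑ _i : Fin m, ∑ i' : Fin m, ∑ _j : Fin (q _i),
    ∑ _j' : Fin (q i'), (1 : ℝ) := ⟨_, rfl⟩
  have hnp0 : 0 ≤ np := by
    rw [hnp]
    exact Finset.sum_nonneg fun _ _ => Finset.sum_nonneg fun _ _ => Finset.sum_nonneg fun _ _ =>
      Finset.sum_nonneg fun _ _ => zero_le_one
  obtain ⟨d, hd⟩ : ∃ d : ℝ, d = finrank ℚ K := ⟨_, rfl⟩
  have hd0 : 0 < d := by rw [hd]; exact_mod_cast finrank_pos
  obtain ⟨κ, hκ⟩ : ∃ κ : ℝ, κ = ε / (3 * (m * np * d + 1)) := ⟨_, rfl⟩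
  have hκ0 : 0 < κ := by rw [hκ]; positivity
  have hκ1 : m * np * d * κ ≤ ε / 3 := by
    rw [hκ]
    rw [mul_div_assoc', div_le_div_iff₀ (by positivity) (by positivity)]
    nlinarith
  have hSC' : ∀ i i' j j', ∃ U : ℝ, 0 ≤ U ∧ (i ≠ i' → ∀ P, P ∉ E → ∀ T, HT r T P →
      ¬ HT r (T / 2) P →
      ∀ Q : Finset ℕ, (∀ p ∈ Q, p.Prime ∧ NearP (SC' i i' j j') (minpoly K (a i j)) (P i) p ∧
        NearP (SC' i i' j j') (minpoly K (a i' j')) (P i') p) →
        κ * T < ∑ p ∈ Q, Real.log p → HT r U P) := by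
    intro i i' j j'
    by_cases hii : i = i'
    · exact ⟨0, le_rfl, fun h => absurd hii h⟩
    · obtain ⟨U, hU, h⟩ := hSC i i' j j' hii κ hκ0
      exact ⟨U, hU, fun _ => h⟩
  choose U hU hUc using hSC'
  obtain ⟨U₀, hU₀⟩ : ∃ U₀ : ℝ, U₀ = ∑ i, ∑ i', ∑ j, ∑ j', U i i' j j' := ⟨_, rfl⟩
  have hUnn : ∀ i i' j, 0 ≤ ∑ j', U i i' j j' := fun i i' j => Finset.sum_nonneg fun j' _ => hU _ _ _ _
  have hUnn2 : ∀ i i', 0 ≤ ∑ j, ∑ j', U i i' j j' := fun i i' => Finset.sum_nonneg fun j _ => hUnn _ _ _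
  have hUnn3 : ∀ i, 0 ≤ ∑ i', ∑ j, ∑ j', U i i' j j' := fun i => Finset.sum_nonneg fun j _ => hUnn2 _ _
  have hU₀0 : 0 ≤ U₀ := by rw [hU₀]; exact Finset.sum_nonneg fun i _ => hUnn3 i
  have hUle : ∀ i i' j j', U i i' j j' ≤ U₀ := by
    intro i i' j j'
    rw [hU₀]
    refine le_trans ?_ (Finset.single_le_sum (fun i _ => hUnn3 i) (Finset.mem_univ i))
    refine le_trans ?_ (Finset.single_le_sum (fun i' _ => hUnn2 i i') (Finset.mem_univ i'))
    refine le_trans ?_ (Finset.single_le_sum (fun j _ => hUnn i i' j) (Finset.mem_univ j))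
    exact Finset.single_le_sum (fun j' _ => hU i i' j j') (Finset.mem_univ j')
  choose C3 hC3 hbdd using fun i => bddQ (G i) (hG i)
  -- the constants
  obtain ⟨C₁, hC₁⟩ : ∃ C₁ : ℝ, C₁ = ∑ i, (CB i + |CV i|) := ⟨_, rfl⟩
  have hC₁0 : 0 ≤ C₁ := by
    rw [hC₁]
    exact Finset.sum_nonneg fun i _ => add_nonneg (hCB i) (abs_nonneg _)
  have hCB1 : ∀ i, CB i ≤ C₁ := by
    intro i
    have := Finset.single_le_sum (f := fun i => CB i + |CV i|)
      (fun i _ => add_nonneg (hCB i) (abs_nonneg _)) (Finset.mem_univ i)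
    rw [hC₁]
    have h2 := abs_nonneg (CV i)
    linarith
  have hCV1 : ∀ i, CV i ≤ C₁ := by
    intro i
    have := Finset.single_le_sum (f := fun i => CB i + |CV i|)
      (fun i _ => add_nonneg (hCB i) (abs_nonneg _)) (Finset.mem_univ i)
    rw [hC₁]
    have h2 := le_abs_self (CV i)
    have h3 := hCB i
    linarith
  obtain ⟨C₂, hC₂⟩ : ∃ C₂ : ℝ, C₂ = ∑ i, (q i : ℝ) * (C3 i + U₀) := ⟨_, rfl⟩
  have hC₂0 : 0 ≤ C₂ := by
    rw [hC₂]
    exact Finset.sum_nonneg fun i _ => mul_nonneg (Nat.cast_nonneg _) (add_nonneg (hC3 i) hU₀0)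
  obtain ⟨C₄, hC₄⟩ : ∃ C₄ : ℝ, C₄ = ∑ i, C3 i := ⟨_, rfl⟩
  have hC₄0 : 0 ≤ C₄ := by
    rw [hC₄]
    exact Finset.sum_nonneg fun i _ => hC3 i
  refine ⟨2 * m * C₁ + C₂ + ε / 3 * C₄, by positivity, ?_⟩
  intro L _ _ _ _ _ φ hφr hφE hφa N hN
  obtain ⟨x, hx⟩ : ∃ x : Fin m → L, ∀ i, x i = φ i (coord k (A i)) := ⟨_, fun _ => rfl⟩
  simp only [← hx] at hφr hφE hφa hN ⊢
  have hL0 : (0 : ℝ) < finrank ℚ L := by exact_mod_cast finrank_pos
  have hnn : ∀ i, 0 ≤ logHeight₁ (x i) := fun i => zero_le_logHeight₁ _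
  obtain ⟨s, hs⟩ : ∃ s : Fin m → ℝ, ∀ i, s i =
    (∑ j, (finrank k (A i ⧸ F i j) : ℝ)) / finrank k[X] (A i) := ⟨_, fun _ => rfl⟩
  have hs0 : ∀ i, 0 ≤ s i := by
    intro i
    rw [hs]
    positivity
  simp only [← hs]
  have hlN : ∀ u : HeightOneSpectrum (𝓞 L), 0 ≤ lN u := fun u => Real.log_natCast_nonneg _
  have hNnn : 0 ≤ ∑ u ∈ N, lN u := Finset.sum_nonneg fun u _ => hlN u
  have hdisc : 0 ≤ Real.log |(discr L : ℝ)| := by
    refine Real.log_nonneg ?_
    have h : discr L ≠ 0 := discr_ne_zero L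
    have h2 : (1 : ℤ) ≤ |discr L| := Int.one_le_abs h
    exact_mod_cast h2
  -- the bound for one factor of bounded height
  have hbad : ∀ i (B : ℝ), logHeight₁ (x i) ≤ finrank ℚ L * B →
      (q i - s i - ε) * logHeight₁ (x i) ≤ finrank ℚ L * (q i * B) := by
    intro i B hB
    have h1 := hs0 i
    calc (q i - s i - ε) * logHeight₁ (x i) ≤ q i * logHeight₁ (x i) :=
          mul_le_mul_of_nonneg_right (by linarith) (hnn i)
      _ ≤ q i * (finrank ℚ L * B) := mul_le_mul_of_nonneg_left hB (Nat.cast_nonneg _)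
      _ = _ := by ring
  by_cases hsmall : HT r U₀ (fun i => minpoly K (x i))
  · -- bounded height
    have h1 : ∑ i, (q i - s i - ε) * logHeight₁ (x i) ≤ ∑ i, finrank ℚ L * ((q i : ℝ) * U₀) :=
      Finset.sum_le_sum fun i _ => hbad i U₀ (bd_of_HT hr x hφr hsmall i)
    have h2 : ∑ i, (finrank ℚ L : ℝ) * ((q i : ℝ) * U₀) ≤ finrank ℚ L * C₂ := by
      rw [hC₂, ← Finset.mul_sum]
      refine mul_le_mul_of_nonneg_left (Finset.sum_le_sum fun i _ => ?_) hL0.le
      exact mul_le_mul_of_nonneg_left (by linarith [hC3 i]) (Nat.cast_nonneg _)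
    have h3 : 0 ≤ (finrank ℚ L : ℝ) * (2 * m * C₁ + ε / 3 * C₄) := by positivity
    have h4 : (finrank ℚ L : ℝ) * (2 * m * C₁ + C₂ + ε / 3 * C₄) =
      finrank ℚ L * (2 * m * C₁ + ε / 3 * C₄) + finrank ℚ L * C₂ := by ring
    rw [h4]
    linarith
  obtain ⟨T', hT0, hT1, hT2, hT3⟩ := exists_T hm hr x hφr
  have hT'pos : 0 < T' := by
    by_contra h3
    have h4 : T' = 0 := le_antisymm (not_lt.1 h3) hT0
    rw [h4] at hT1
    exact hsmall (Pool.Agent.N225.PC.ht_mono K r hU₀0 hT1)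
  -- the common primes
  have hgen : ∀ i, algebraMap (IntermediateField.adjoin k {x i}) L (AdjoinSimple.gen k (x i)) =
    x i := fun i => rfl
  have hgenmin : ∀ i, minpoly K (AdjoinSimple.gen k (x i)) = minpoly K (x i) := by
    intro i
    have hst : IsScalarTower K (IntermediateField.adjoin k {x i}) L :=
      IsScalarTower.of_algebraMap_eq fun c => by
        rw [IsScalarTower.algebraMap_apply K k (IntermediateField.adjoin k {x i}),
          ← IsScalarTower.algebraMap_apply k (IntermediateField.adjoin k {x i}) L,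
          ← IsScalarTower.algebraMap_apply K k L]
    conv_rhs => rw [← hgen i]
    exact (minpoly.algebraMap_eq (algebraMap (IntermediateField.adjoin k {x i}) L).injective _).symm
  have hgena : ∀ i j, AdjoinSimple.gen k (x i) ≠
      algebraMap k (IntermediateField.adjoin k {x i}) (a i j) := by
    intro i j h
    apply hφa i j
    have h2 := congrArg (algebraMap (IntermediateField.adjoin k {x i}) L) h
    rw [← IsScalarTower.algebraMap_apply] at h2
    exact h2
  have hWf : ∀ i, {w | NearA S₀ (a i) (AdjoinSimple.gen k (x i)) w}.Finite := fun i =>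
    nearA_finite S₀ (a i) _ (hgena i)
  obtain ⟨NJ, hNJ⟩ : ∃ NJ : ∀ i, Fin (q i) → HeightOneSpectrum
      (𝓞 (IntermediateField.adjoin k {x i})) → Prop, ∀ i j w, NJ i j w ↔
      ((∀ p ∈ S₀, (p : 𝓞 (IntermediateField.adjoin k {x i})) ∉ w.asIdeal) ∧
      w.valuation (IntermediateField.adjoin k {x i}) (AdjoinSimple.gen k (x i)) ≤ 1 ∧
      w.valuation (IntermediateField.adjoin k {x i}) (AdjoinSimple.gen k (x i) -
        algebraMap k (IntermediateField.adjoin k {x i}) (a i j)) < 1) := ⟨_, fun _ _ _ => Iff.rfl⟩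
  obtain ⟨B, hB⟩ : ∃ B : Finset ℕ, B = Finset.univ.biUnion fun i =>
    (hWf i).toFinset.biUnion fun w => (Ideal.absNorm w.asIdeal).primeFactors := ⟨_, rfl⟩
  obtain ⟨Qt, hQt⟩ : ∃ Qt : ∀ i i' : Fin m, Fin (q i) → Fin (q i') → Finset ℕ,
    ∀ i i' j j', Qt i i' j j' = B.filter fun p : ℕ => p.Prime ∧
      (∃ w, NJ i j w ∧ (p : 𝓞 (IntermediateField.adjoin k {x i})) ∈ w.asIdeal) ∧
      (∃ w, NJ i' j' w ∧ (p : 𝓞 (IntermediateField.adjoin k {x i'})) ∈ w.asIdeal) :=
    ⟨_, fun _ _ _ _ => rfl⟩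
  have hNP : ∀ i j (S : Finset ℕ) (p : ℕ), S ⊆ S₀ →
      (∃ w, NJ i j w ∧ (p : 𝓞 (IntermediateField.adjoin k {x i})) ∈ w.asIdeal) →
      NearP S (minpoly K (a i j)) (minpoly K (x i)) p := by
    rintro i j S p hS ⟨w, hw, hp⟩
    rw [hNJ] at hw
    refine ⟨IntermediateField.adjoin k {x i}, inferInstance, inferInstance, inferInstance,
      AdjoinSimple.gen k (x i), w, hgenmin i, ⟨fun p' hp' _ => hw.1 p' (hS hp'), hw.2.1, ?_⟩, hp⟩
    exact hnear i j _ w _ (hw.1 _ (hnS i j)) hw.2.1 hw.2.2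
  have hQtb : ∀ i i' j j', i ≠ i' → ∑ p ∈ Qt i i' j j', Real.log (p : ℝ) ≤ κ * T' := by
    intro i i' j j' hii
    by_contra hlt
    rw [not_le] at hlt
    apply hsmall
    refine Pool.Agent.N225.PC.ht_mono K r (hUle i i' j j') ?_
    refine hUc i i' j j' hii _ hφE T' hT1 (hT2 hT'pos) (Qt i i' j j') ?_ hlt
    intro p hp
    rw [hQt, Finset.mem_filter] at hp
    exact ⟨hp.2.1, hNP i j _ p (hSCS i i' j j') hp.2.2.1, hNP i' j' _ p (hSCS i i' j j') hp.2.2.2⟩
  obtain ⟨Q, hQ⟩ : ∃ Q : Finset ℕ, Q = Finset.univ.biUnion fun i => Finset.univ.biUnion fun i' =>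
    Finset.univ.biUnion fun j => Finset.univ.biUnion fun j' =>
      if i = i' then ∅ else Qt i i' j j' := ⟨_, rfl⟩
  have hQm : ∀ p, p ∈ Q ↔ ∃ i i' j j', i ≠ i' ∧ p ∈ Qt i i' j j' := by
    intro p
    rw [hQ]
    simp only [Finset.mem_biUnion, Finset.mem_univ, true_and]
    constructor
    · rintro ⟨i, i', j, j', h⟩
      split_ifs at h with h1
      · exact absurd h (Finset.notMem_empty p)
      · exact ⟨i, i', j, j', h1, h⟩
    · rintro ⟨i, i', j, j', h1, h⟩
      exact ⟨i, i', j, j', by rw [if_neg h1]; exact h⟩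
  have hlog0 : ∀ p : ℕ, 0 ≤ Real.log (p : ℝ) := fun p => Real.log_natCast_nonneg _
  have hbU : ∀ {ι : Type} (s : Finset ι) (f : ι → Finset ℕ),
      ∑ p ∈ s.biUnion f, Real.log (p : ℝ) ≤ ∑ i ∈ s, ∑ p ∈ f i, Real.log (p : ℝ) := by
    intro ι s f
    induction s using Finset.induction_on with
    | empty => simp
    | insert i s hi ih =>
      rw [Finset.biUnion_insert, Finset.sum_insert hi]
      have h5 := Finset.sum_union_inter (s₁ := f i) (s₂ := s.biUnion f)
        (f := fun p : ℕ => Real.log (p : ℝ))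
      have h6 : 0 ≤ ∑ p ∈ f i ∩ s.biUnion f, Real.log (p : ℝ) :=
        Finset.sum_nonneg fun p _ => hlog0 p
      linarith
  have hQb : ∑ p ∈ Q, Real.log (p : ℝ) ≤ np * (κ * T') := by
    rw [hQ, hnp]
    simp only [Finset.sum_mul, one_mul]
    refine (hbU _ _).trans (Finset.sum_le_sum fun i _ => ?_)
    refine (hbU _ _).trans (Finset.sum_le_sum fun i' _ => ?_)
    refine (hbU _ _).trans (Finset.sum_le_sum fun j _ => ?_)
    refine (hbU _ _).trans (Finset.sum_le_sum fun j' _ => ?_)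
    split_ifs with h
    · rw [Finset.sum_empty]
      positivity
    · exact hQtb i i' j j' h
  -- the combination
  obtain ⟨good, hgood⟩ : ∃ good : Fin m → Prop, ∀ i, good i ↔ aeval (x i) (G i) ≠ 0 :=
    ⟨_, fun _ => Iff.rfl⟩
  have hcomb := combine x q a hφa good S₀ (ε / 3)
    (fun i => s i + ε / 3) C₁ hC₁0
    (fun i u => u.valuation L (x i) ≤ 1 ∧
      ∃ j, u.valuation L (x i - algebraMap k L (a i j)) < 1 ∧
        ∀ l, u.valuation L (φ i (y i j l)) < 1)
    (fun i u h => ⟨h.1, h.2.imp fun j hj => hj.1⟩)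
    (by
      intro i _ W hW
      have h1 := hCV i (IntermediateField.adjoin k {x i}) (AdjoinSimple.gen k (x i))
        (gen_top (x i)) (by rw [hgenmin]; exact hφr i) (by
          rw [hgenmin]
          exact hEE' i _ hφE) (hgena i) W (by
          intro w h1 h2 h3
          refine hW w ⟨fun p hp => h1 p hp ?_, h2, h3⟩
          rw [hS₀] at hp
          rcases Finset.mem_union.1 hp with hp | hp
          · rcases Finset.mem_union.1 hp with hp | hp
            · obtain ⟨i, -, rfl⟩ := Finset.mem_image.1 hp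
              exact hT i
            · obtain ⟨i, -, hp⟩ := Finset.mem_biUnion.1 hp
              obtain ⟨j, -, rfl⟩ := Finset.mem_image.1 hp
              exact hn i j
          · obtain ⟨i, -, hp⟩ := Finset.mem_biUnion.1 hp
            obtain ⟨i', -, hp⟩ := Finset.mem_biUnion.1 hp
            obtain ⟨j, -, hp⟩ := Finset.mem_biUnion.1 hp
            obtain ⟨j', -, hp⟩ := Finset.mem_biUnion.1 hp
            exact hSC0 i i' j j' p hp)
      exact h1.trans (add_le_add le_rfl (hCV1 i)))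
    (by
      intro i hi S W W' hW hW'
      have h1 := hkey i S L (φ i) (by rw [← hx]; exact (hgood i).1 hi) (by rw [← hx]; exact hφa i) W W' (by
        intro w hw
        obtain ⟨h1, h2, h3⟩ := hW w hw
        rw [← hx]
        exact ⟨h1 _ (Finset.mem_union_left _ (hTS i)),
          fun p hp => h1 p (Finset.mem_union_right _ hp), h2, h3⟩) (by
        intro w h1 h2 h3
        rw [← hx] at h2
        simp only [← hx] at h3
        exact hW' w h1 ⟨h2, h3⟩)
      rw [← hx, ← hs] at h1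
      refine h1.trans ?_
      have h2 := mul_le_mul_of_nonneg_left (hCB1 i) hL0.le
      linarith)
    Q (by
      intro p hp
      obtain ⟨i, i', j, j', -, h⟩ := (hQm p).1 hp
      rw [hQt, Finset.mem_filter] at h
      exact h.2.1)
    (by
      rintro i i' hii - - p hp ⟨w, hw, hpw⟩ ⟨w', hw', hpw'⟩
      obtain ⟨j, hj⟩ := hw.2.2
      obtain ⟨j', hj'⟩ := hw'.2.2
      refine (hQm p).2 ⟨i, i', j, j', hii, ?_⟩
      rw [hQt, Finset.mem_filter]
      refine ⟨?_, hp, ⟨w, (hNJ i j w).2 ⟨hw.1, hw.2.1, hj⟩, hpw⟩,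
        ⟨w', (hNJ i' j' w').2 ⟨hw'.1, hw'.2.1, hj'⟩, hpw'⟩⟩
      rw [hB]
      refine Finset.mem_biUnion.2 ⟨i, Finset.mem_univ i, Finset.mem_biUnion.2
        ⟨w, (Set.Finite.mem_toFinset _).2 hw, ?_⟩⟩
      rw [Nat.mem_primeFactors]
      refine ⟨hp, Pool.Agent.N787.PC.Gcd.dvd_of_mem hp hpw, ?_⟩
      rw [Ne, Ideal.absNorm_eq_zero_iff]
      exact w.ne_bot)
    N (fun i u h => hN u i h.1 h.2)
  -- the good and the bad factors
  have e1 : ∑ i, (q i - s i - ε) * logHeight₁ (x i) =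
      ∑ i ∈ Finset.univ.filter good,
        (q i - s i - ε) * logHeight₁ (x i) +
      ∑ i ∈ Finset.univ.filter (fun i => ¬ good i),
        (q i - s i - ε) * logHeight₁ (x i) := by
    rw [Finset.sum_filter_add_sum_filter_not]
  have e2 : ∑ i ∈ Finset.univ.filter (fun i => ¬ good i),
        (q i - s i - ε) * logHeight₁ (x i) ≤ finrank ℚ L * C₂ := by
    have h1 : ∑ i ∈ Finset.univ.filter (fun i => ¬ good i),
        (q i - s i - ε) * logHeight₁ (x i) ≤
        ∑ i ∈ Finset.univ.filter (fun i => ¬ good i),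
          (finrank ℚ L : ℝ) * ((q i : ℝ) * (C3 i + U₀)) := by
      refine Finset.sum_le_sum fun i hi => ?_
      have h2 := (Finset.mem_filter.1 hi).2
      rw [hgood, not_not] at h2
      have h3 := hbdd i L (x i) h2
      refine (hbad i (C3 i) h3).trans (mul_le_mul_of_nonneg_left
        (mul_le_mul_of_nonneg_left (by linarith) (Nat.cast_nonneg _)) hL0.le)
    refine h1.trans ?_
    rw [hC₂, Finset.mul_sum]
    refine Finset.sum_le_sum_of_subset_of_nonneg (Finset.filter_subset _ _) fun i _ _ => ?_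
    have := hC3 i
    positivity
  have e3 : ∑ i ∈ Finset.univ.filter good,
        (q i - s i - ε) * logHeight₁ (x i) =
      ∑ i ∈ Finset.univ.filter good,
        (q i - ε / 3 - (s i + ε / 3)) * logHeight₁ (x i) -
      (ε / 3) * ∑ i ∈ Finset.univ.filter good,
        logHeight₁ (x i) := by
    rw [Finset.mul_sum, ← Finset.sum_sub_distrib]
    refine Finset.sum_congr rfl fun i _ => ?_
    ring
  have e4 : ∑ i, logHeight₁ (x i) =
      ∑ i ∈ Finset.univ.filter good, logHeight₁ (x i) +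
      ∑ i ∈ Finset.univ.filter (fun i => ¬ good i), logHeight₁ (x i) := by
    rw [Finset.sum_filter_add_sum_filter_not]
  have e5 : ∑ i ∈ Finset.univ.filter (fun i => ¬ good i), logHeight₁ (x i) ≤
      finrank ℚ L * C₄ := by
    have h1 : ∑ i ∈ Finset.univ.filter (fun i => ¬ good i), logHeight₁ (x i) ≤
        ∑ i ∈ Finset.univ.filter (fun i => ¬ good i),
          (finrank ℚ L : ℝ) * C3 i := by
      refine Finset.sum_le_sum fun i hi => ?_
      have h2 := (Finset.mem_filter.1 hi).2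
      rw [hgood, not_not] at h2
      exact hbdd i L (x i) h2
    refine h1.trans ?_
    rw [hC₄, Finset.mul_sum]
    refine Finset.sum_le_sum_of_subset_of_nonneg (Finset.filter_subset _ _) fun i _ _ => ?_
    have := hC3 i
    positivity
  have e6 : m * (finrank ℚ L * ∑ p ∈ Q, Real.log (p : ℝ)) ≤ ε / 3 * ∑ i, logHeight₁ (x i) := by
    have h1 : (m : ℝ) * (finrank ℚ L * ∑ p ∈ Q, Real.log (p : ℝ)) ≤
        m * (finrank ℚ L * (np * (κ * T'))) :=
      mul_le_mul_of_nonneg_left (mul_le_mul_of_nonneg_left hQb hL0.le) (Nat.cast_nonneg _)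
    have h2 : (m : ℝ) * (finrank ℚ L * (np * (κ * T'))) = (m * np * κ) * (T' * finrank ℚ L) := by
      ring
    have h3 : (m * np * κ) * (T' * finrank ℚ L) ≤
        (m * np * κ) * (finrank ℚ K * ∑ i, logHeight₁ (x i)) :=
      mul_le_mul_of_nonneg_left hT3 (by positivity)
    have h4 : (m * np * κ) * (finrank ℚ K * ∑ i, logHeight₁ (x i)) =
        (m * np * d * κ) * ∑ i, logHeight₁ (x i) := by
      rw [hd]
      ring
    have h5 : (m * np * d * κ) * ∑ i, logHeight₁ (x i) ≤ ε / 3 * ∑ i, logHeight₁ (x i) :=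
      mul_le_mul_of_nonneg_right hκ1 (Finset.sum_nonneg fun i _ => hnn i)
    linarith
  have e7 := mul_le_mul_of_nonneg_left e5 (show 0 ≤ ε / 3 by positivity)
  have e8 : (finrank ℚ L : ℝ) * (2 * m * C₁ + C₂ + ε / 3 * C₄) = 2 * m * (finrank ℚ L * C₁) +
    finrank ℚ L * C₂ + ε / 3 * (finrank ℚ L * C₄) := by ring
  rw [e8, e1, e3]
  rw [e4, mul_add] at e6
  linarith

end Pool.Agent.V8H31.PC
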