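import Mathlib
import Pool.Agent.V8H31.PC.Final

/-!
# Project PC: divisors on curves given by equations of their points
-/

set_option autoImplicit false
set_option linter.unusedSectionVars false

namespace Pool.Agent.V8H31.PC

open NumberField IsDedekindDomain Module Polynomial Pool.Agent.N753.DR

section

variable {k A : Type} [Field k] [NumberField k] [CommRing A] [IsDedekindDomain A] [Algebra k A]
  [Algebra k[X] A] [IsScalarTower k k[X] A] [Module.Finite k[X] A] [FaithfulSMul k[X] A]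

/-- the points above `a` are finitely many -/
theorem above_fin (a : k) :
    {𝔭 : HeightOneSpectrum A | coord k A - algebraMap k A a ∈ 𝔭.asIdeal}.Finite := by
  have h0 : coord k A - algebraMap k A a ≠ 0 := by
    rw [← algebraMap_sub, Ne, map_eq_zero_iff _ (FaithfulSMul.algebraMap_injective k[X] A)]
    exact X_sub_C_ne_zero a
  refine (Ideal.finite_factors (I := Ideal.span {coord k A - algebraMap k A a}) ?_).subset ?_
  · rw [Ne, Ideal.zero_eq_bot, Ideal.span_singleton_eq_bot]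
    exact h0
  · intro v hv
    rw [Set.mem_ofPred_eq, Ideal.dvd_span_singleton]
    exact hv

open Classical in
/-- the residue field is finite over `k` -/
theorem fin_quot (a : k) (I : Ideal A) (h : coord k A - algebraMap k A a ∈ I) :
    Module.Finite k (A ⧸ I) := by
  obtain ⟨s, hs⟩ := (Module.finite_def (R := k[X]) (M := A)).1 inferInstance
  refine ⟨⟨s.image (Ideal.Quotient.mk I), ?_⟩⟩
  rw [eq_top_iff]
  rintro y -
  obtain ⟨z, rfl⟩ := Ideal.Quotient.mk_surjective y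
  have hz : z ∈ Submodule.span k[X] (s : Set A) := by rw [hs]; exact Submodule.mem_top
  have key : ∀ p : k[X], Ideal.Quotient.mk I (algebraMap k[X] A p) =
      Ideal.Quotient.mk I (algebraMap k A (p.eval a)) := by
    intro p
    rw [Ideal.Quotient.eq]
    obtain ⟨q, hq⟩ := X_sub_C_dvd_sub_C_eval (a := a) (p := p)
    have h1 : algebraMap k[X] A p - algebraMap k A (p.eval a) =
        algebraMap k[X] A (p - C (p.eval a)) := by
      rw [map_sub, IsScalarTower.algebraMap_apply k k[X] A]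
      rfl
    rw [h1, hq, map_mul, algebraMap_sub]
    exact Ideal.mul_mem_right _ _ h
  induction hz using Submodule.span_induction with
  | mem x hx =>
    refine Submodule.subset_span ?_
    rw [Finset.coe_image]
    exact ⟨x, hx, rfl⟩
  | zero => rw [map_zero]; exact Submodule.zero_mem _
  | add x y _ _ hx hy => rw [map_add]; exact Submodule.add_mem _ hx hy
  | smul p x _ hx =>
    have h2 : Ideal.Quotient.mk I (p • x) = (p.eval a) • Ideal.Quotient.mk I x := by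
      rw [Algebra.smul_def, map_mul, key, ← map_mul, ← Algebra.smul_def]
      rfl
    rw [h2]
    exact Submodule.smul_mem _ _ hx

open Classical in
/-- **the equations** -/
theorem conv {q : ℕ} (a : Fin q → k) (D : Finset (HeightOneSpectrum A))
    (Y : HeightOneSpectrum A → Finset A) (hY : ∀ 𝔭 ∈ D, (Y 𝔭 : Set A) ⊆ 𝔭.asIdeal) :
    ∃ (v : Fin q → ℕ) (y : ∀ j, Fin (v j) → A) (F : Fin q → Ideal A), (∀ j, F j ≠ ⊥) ∧
      (∀ j i, ∀ f ∈ F j, y j i * f ∈ (Ideal.span {coord k A - algebraMap k A (a j)}).radical) ∧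
      (∀ j, (finrank k (A ⧸ F j) : ℝ) ≤ ∑ 𝔭 ∈ (above_fin (k := k) (A := A) (a j)).toFinset.filter
        (fun 𝔭 => 𝔭 ∉ D), (finrank k (A ⧸ 𝔭.asIdeal) : ℝ)) ∧
      ∀ (small : A → Prop), ¬ small 1 → (∀ x y, small (x * y) → small x ∨ small y) →
        ∀ j, (∀ l, small (y j l)) → ∃ 𝔭 ∈ D, ∀ z ∈ Y 𝔭, small z := by
  -- the equations
  obtain ⟨Dj, hDj⟩ : ∃ Dj : Fin q → Finset (HeightOneSpectrum A), ∀ j, Dj j =
    D.filter fun 𝔭 => coord k A - algebraMap k A (a j) ∈ 𝔭.asIdeal := ⟨_, fun _ => rfl⟩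
  obtain ⟨Z, hZ⟩ : ∃ Z : Fin q → Finset A, ∀ j, Z j = ((Dj j).pi fun 𝔭 => Y 𝔭).image
    fun g => ∏ 𝔭 ∈ (Dj j).attach, g 𝔭.1 𝔭.2 := ⟨_, fun _ => rfl⟩
  obtain ⟨T, hT⟩ : ∃ T : Fin q → Finset (HeightOneSpectrum A), ∀ j, T j =
    (above_fin (k := k) (A := A) (a j)).toFinset.filter fun 𝔭 => 𝔭 ∉ D := ⟨_, fun _ => rfl⟩
  refine ⟨fun j => (Z j).card, fun j l => (Z j).equivFin.symm l,
    fun j => (T j).inf fun 𝔭 => 𝔭.asIdeal, ?_, ?_, ?_, ?_⟩
  · intro j h
    have h1 : ∏ 𝔭 ∈ T j, 𝔭.asIdeal ≤ (T j).inf fun 𝔭 => 𝔭.asIdeal := Ideal.prod_le_inf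
    have h' : ((T j).inf fun 𝔭 => 𝔭.asIdeal) = ⊥ := h
    rw [h', le_bot_iff] at h1
    have h2 : ∏ 𝔭 ∈ T j, 𝔭.asIdeal ≠ ⊥ := by
      rw [← Ideal.zero_eq_bot, Finset.prod_ne_zero_iff]
      intro 𝔭 _
      exact 𝔭.ne_bot
    exact h2 h1
  · intro j l f hf
    have hz := (Finset.ext_iff.1 (hZ j) _).1 ((Z j).equivFin.symm l).2
    rw [Finset.mem_image] at hz
    obtain ⟨g, hg, hgz⟩ := hz
    rw [Ideal.radical_eq_sInf, Submodule.mem_sInf]
    rintro P ⟨hP1, hP2⟩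
    have hXP : coord k A - algebraMap k A (a j) ∈ P := hP1 (Ideal.mem_span_singleton_self _)
    have hP0 : P ≠ ⊥ := by
      rintro rfl
      rw [Ideal.mem_bot] at hXP
      have h0 : coord k A - algebraMap k A (a j) ≠ 0 := by
        rw [← algebraMap_sub, Ne, map_eq_zero_iff _ (FaithfulSMul.algebraMap_injective k[X] A)]
        exact X_sub_C_ne_zero (a j)
      exact h0 hXP
    obtain ⟨𝔭, h𝔭⟩ : ∃ 𝔭 : HeightOneSpectrum A, 𝔭.asIdeal = P := ⟨⟨P, hP2, hP0⟩, rfl⟩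
    rw [← h𝔭] at hXP ⊢
    by_cases hD : 𝔭 ∈ D
    · refine Ideal.mul_mem_right _ _ ?_
      have hmem : 𝔭 ∈ Dj j := by
        rw [hDj, Finset.mem_filter]
        exact ⟨hD, hXP⟩
      show (((Z j).equivFin.symm l : Z j) : A) ∈ 𝔭.asIdeal
      rw [← hgz]
      have h1 : g 𝔭 hmem ∈ 𝔭.asIdeal := hY 𝔭 hD (Finset.mem_pi.1 hg 𝔭 hmem)
      obtain ⟨d, hd⟩ := Finset.dvd_prod_of_mem (fun 𝔭 : Dj j => g 𝔭.1 𝔭.2)
        (Finset.mem_attach (Dj j) ⟨𝔭, hmem⟩)
      rw [hd]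
      exact Ideal.mul_mem_right _ _ h1
    · refine Ideal.mul_mem_left _ _ ?_
      have hmem : 𝔭 ∈ T j := by
        rw [hT, Finset.mem_filter, Set.Finite.mem_toFinset]
        exact ⟨hXP, hD⟩
      exact (Finset.inf_le hmem : (T j).inf (fun 𝔭 => 𝔭.asIdeal) ≤ 𝔭.asIdeal) hf
  · intro j
    rw [← hT]
    have hfin : ∀ 𝔭 : T j, Module.Finite k (A ⧸ 𝔭.1.asIdeal) := by
      intro 𝔭
      have h1 := (Finset.ext_iff.1 (hT j) _).1 𝔭.2
      rw [Finset.mem_filter, Set.Finite.mem_toFinset] at h1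
      exact fin_quot (a j) _ h1.1
    let f : A →ₗ[k] (∀ 𝔭 : T j, A ⧸ 𝔭.1.asIdeal) :=
      LinearMap.pi fun 𝔭 => (Ideal.Quotient.mkₐ k 𝔭.1.asIdeal).toLinearMap
    have hker : LinearMap.ker f = (((T j).inf fun 𝔭 => 𝔭.asIdeal).restrictScalars k) := by
      ext x
      rw [LinearMap.mem_ker, Submodule.restrictScalars_mem, Submodule.mem_finsetInf]
      constructor
      · intro h 𝔭 h𝔭
        have := congrFun h ⟨𝔭, h𝔭⟩
        exact Ideal.Quotient.eq_zero_iff_mem.1 this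
      · intro h
        funext 𝔭
        exact Ideal.Quotient.eq_zero_iff_mem.2 (h 𝔭.1 𝔭.2)
    have h1 : finrank k (A ⧸ (T j).inf fun 𝔭 => 𝔭.asIdeal) ≤ finrank k (∀ 𝔭 : T j, A ⧸ 𝔭.1.asIdeal) := by
      let e : (A ⧸ (T j).inf fun 𝔭 => 𝔭.asIdeal) →ₗ[k] (∀ 𝔭 : T j, A ⧸ 𝔭.1.asIdeal) :=
        Submodule.liftQ (((T j).inf fun 𝔭 => 𝔭.asIdeal).restrictScalars k) f (le_of_eq hker.symm)
      have he : Function.Injective e := by
        rw [← LinearMap.ker_eq_bot]
        exact Submodule.ker_liftQ_eq_bot _ _ _ (le_of_eq hker)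
      exact LinearMap.finrank_le_finrank_of_injective he
    have h2 : finrank k (∀ 𝔭 : T j, A ⧸ 𝔭.1.asIdeal) = ∑ 𝔭 : T j, finrank k (A ⧸ 𝔭.1.asIdeal) :=
      Module.finrank_pi_fintype k
    rw [h2, Finset.sum_coe_sort (T j) (fun 𝔭 => finrank k (A ⧸ 𝔭.asIdeal))] at h1
    exact_mod_cast h1
  · intro small h1 hmul j hall
    by_contra hcon
    push Not at hcon
    have hprod : ∀ (s : Finset (Dj j)) (g : Dj j → A), (∀ 𝔭 ∈ s, ¬ small (g 𝔭)) →
        ¬ small (∏ 𝔭 ∈ s, g 𝔭) := by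
      intro s g
      induction s using Finset.induction_on with
      | empty =>
        intro _
        rw [Finset.prod_empty]
        exact h1
      | insert x s hx ih =>
        intro h h'
        rw [Finset.prod_insert hx] at h'
        rcases hmul _ _ h' with h'' | h''
        · exact h x (Finset.mem_insert_self _ _) h''
        · exact ih (fun 𝔭 h𝔭 => h 𝔭 (Finset.mem_insert_of_mem h𝔭)) h''
    choose! g hg1 hg2 using hcon
    have hmem : (∏ 𝔭 ∈ (Dj j).attach, g 𝔭.1) ∈ Z j := by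
      rw [hZ, Finset.mem_image]
      refine ⟨fun 𝔭 _ => g 𝔭, ?_, rfl⟩
      rw [Finset.mem_pi]
      intro 𝔭 h𝔭
      rw [hDj, Finset.mem_filter] at h𝔭
      exact hg1 𝔭 h𝔭.1
    have h2 := hall ((Z j).equivFin ⟨_, hmem⟩)
    have h2' : small (((Z j).equivFin.symm ((Z j).equivFin ⟨_, hmem⟩) : Z j) : A) := h2
    rw [Equiv.symm_apply_apply] at h2'
    refine hprod _ (fun 𝔭 : Dj j => g 𝔭.1) ?_ h2'
    intro 𝔭 _
    have h3 := (Finset.ext_iff.1 (hDj j) _).1 𝔭.2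
    rw [Finset.mem_filter] at h3
    exact hg2 𝔭.1 h3.1

end

end Pool.Agent.V8H31.PC
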