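import Mathlib
import Pool.Agent.V8H31.PC.VkB
import Pool.Agent.N753.SU.All
import Pool.Agent.N753.LS.Red
import Pool.Agent.N901.PC.Comb
import Pool.Agent.N262.DR.Deg
import Pool.Agent.N753.SU.Od
import Pool.Agent.N73.SU.SU_RM
import Pool.Agent.N222.SU_OM
import Pool.Agent.N199.SU_B
import Pool.Agent.N123.OD1
import Pool.Agent.N692.SU.OD2
import Pool.Agent.N478.SU.OD3
import Pool.Agent.N348.SU_UZM
import Pool.Agent.V8H31.AC.Prox

/-!
# Project PC: the points of the line over `K`, degrees up to `5`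
-/

set_option autoImplicit false
set_option linter.unusedSectionVars false

namespace Pool.Agent.V8H31.PC

open NumberField IsDedekindDomain Module Polynomial Pool.Agent.N753.DR
open Height (logHeight logHeight₁ zero_le_logHeight₁)

section

variable {K : Type} [Field K] [NumberField K]

/-- a polynomial in one variable -/
noncomputable def up (F : K[X]) : MvPolynomial (Fin 1) K := (MvPolynomial.uniqueAlgEquiv K (Fin 1)).symm F

theorem up_X : up (X : K[X]) = MvPolynomial.X 0 := by
  unfold up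
  rw [AlgEquiv.symm_apply_eq]
  simp

theorem eval_up (F : K[X]) (x : Fin 1 → K) : MvPolynomial.eval x (up F) = F.eval (x 0) := by
  have h : (MvPolynomial.aeval x : MvPolynomial (Fin 1) K →ₐ[K] K).comp
      ((MvPolynomial.uniqueAlgEquiv K (Fin 1)).symm : K[X] →ₐ[K] MvPolynomial (Fin 1) K) =
      Polynomial.aeval (x 0) := by
    apply Polynomial.algHom_ext
    rw [AlgHom.comp_apply, Polynomial.aeval_X]
    have := up_X (K := K)
    unfold up at this
    rw [AlgEquiv.coe_algHom, this, MvPolynomial.aeval_X]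
  have h1 := congrArg (fun g => g F) h
  simp only [AlgHom.comp_apply, AlgEquiv.coe_algHom] at h1
  rw [Polynomial.coe_aeval_eq_eval] at h1
  rw [← h1]
  rfl

theorem deg_up (F : K[X]) : (up F).degreeOf 0 = F.natDegree := by
  rw [← MvPolynomial.natDegree_finSuccEquiv]
  have h : ((MvPolynomial.finSuccEquiv K 0 : MvPolynomial (Fin 1) K →ₐ[K] _)).comp
      ((MvPolynomial.uniqueAlgEquiv K (Fin 1)).symm : K[X] →ₐ[K] MvPolynomial (Fin 1) K) =
      Polynomial.mapAlgHom (Algebra.ofId K (MvPolynomial (Fin 0) K)) := by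
    apply Polynomial.algHom_ext
    rw [AlgHom.comp_apply]
    have := up_X (K := K)
    unfold up at this
    rw [AlgEquiv.coe_algHom, AlgEquiv.coe_algHom, this, MvPolynomial.finSuccEquiv_X_zero]
    simp
  have h1 := congrArg (fun g => g F) h
  simp only [AlgHom.comp_apply, AlgEquiv.coe_algHom] at h1
  have h2 : MvPolynomial.finSuccEquiv K 0 (up F) = F.map (algebraMap K (MvPolynomial (Fin 0) K)) := by
    unfold up
    rw [h1]
    rfl
  rw [h2]
  exact Polynomial.natDegree_map_eq_of_injective (algebraMap K (MvPolynomial (Fin 0) K)).injective F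

theorem irr_up {F : K[X]} (hF : Irreducible F) : Irreducible (up F) :=
  (MulEquiv.irreducible_iff (MvPolynomial.uniqueAlgEquiv K (Fin 1)).symm.toMulEquiv).2 hF

/-- a prime above -/
theorem exists_above {M : Type} [Field M] [NumberField M] [Algebra K M]
    (v : HeightOneSpectrum (𝓞 K)) :
    ∃ w : HeightOneSpectrum (𝓞 M), w.asIdeal.LiesOver v.asIdeal := by
  obtain ⟨W, hW, hs⟩ := Pool.Agent.N901.PC.Comb.sum_over (L := M) v
  have h1 : 0 < lN v := by
    unfold lN
    have := NumberField.HeightOneSpectrum.one_lt_absNorm v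
    exact Real.log_pos (by exact_mod_cast this)
  have hfd : FiniteDimensional K M := Module.Finite.of_restrictScalars_finite ℚ K M
  have h2 : (0 : ℝ) < finrank K M := by exact_mod_cast finrank_pos
  have h3 : W.Nonempty := by
    rw [Finset.nonempty_iff_ne_empty]
    rintro rfl
    rw [Finset.sum_empty] at hs
    have := mul_pos h2 h1
    linarith
  obtain ⟨w, hw⟩ := h3
  exact ⟨w, (hW w).1 hw⟩

open Pool.Agent.N753.SU Pool.Agent.H691R3 in
/-- **degrees up to `5`, for the points over `K`** -/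
theorem ke1 (hUM : StmUM) (hZM : StmZM) (hLM : StmLM) (hOD : StmOD) :
    ∃ E : Set K[X], (∀ U : ℝ, 0 ≤ U → {p | p ∈ E ∧ AtH 1 U p}.Finite ∧
      ({p | p ∈ E ∧ AtH 1 U p}.ncard : ℝ) ≤ 2 * Real.exp (((1 : ℕ) + 1) * U - √U)) ∧
      KEB 1 5 E := by
  classical
  obtain ⟨E1, hE1, hmain⟩ := all_div K Pool.Agent.N73.SURM.stmRM hUM hZM hLM hOD
    Pool.Agent.N222.SUOM.stmOM Pool.Agent.N199.SU.stmB4 1 one_pos
  obtain ⟨ι, hι⟩ : ∃ ι : K → (Fin 1 → K), ι = fun x _ => x := ⟨_, rfl⟩
  have hhtm : ∀ x : K, Pool.Agent.N753.LS.htm (ι x) = logHeight₁ x := by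
    intro x
    unfold Pool.Agent.N753.LS.htm
    rw [hι]
    exact ciSup_const
  refine ⟨{p | ∃ x : K, p = X - C x ∧ ι x ∈ E1}, ?_, ?_⟩
  · intro U hU
    have hsub : {p : K[X] | p ∈ {p | ∃ x : K, p = X - C x ∧ ι x ∈ E1} ∧ AtH 1 U p} ⊆
        (fun y : Fin 1 → K => X - C (y 0)) '' (E1 ∩ {x | Pool.Agent.N753.LS.htm x ≤ U}) := by
      rintro p ⟨⟨x, hp, hx⟩, ⟨M, _, _, _, t, h1, h2, h3, h4⟩⟩
      refine ⟨ι x, ⟨hx, ?_⟩, ?_⟩
      · rw [Set.mem_ofPred_eq, hhtm]
        have h5 : minpoly K t = minpoly K x := by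
          rw [h3, hp, minpoly.eq_X_sub_C']
        have h6 := Pool.Agent.N572.DR.Inv.ht_inv t x (h2.trans h1.symm) (by
          rw [← h5, h2, finrank_self]) h5
        rw [← h6]
        exact h4
      · rw [hp, hι]
    have hf : (E1 ∩ {x : Fin 1 → K | Pool.Agent.N753.LS.htm x ≤ U}).Finite :=
      (Pool.Agent.N753.LS.box_fin U).subset Set.inter_subset_right
    refine ⟨(hf.image _).subset hsub, ?_⟩
    have h1 := (Set.ncard_le_ncard hsub (hf.image _)).trans (Set.ncard_image_le hf)
    have h2 := hE1 U hU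
    have h3 : (({p : K[X] | p ∈ {p | ∃ x : K, p = X - C x ∧ ι x ∈ E1} ∧ AtH 1 U p}.ncard : ℕ) : ℝ) ≤
        ((E1 ∩ {x : Fin 1 → K | Pool.Agent.N753.LS.htm x ≤ U}).ncard : ℝ) := by exact_mod_cast h1
    refine h3.trans (h2.trans (le_of_eq ?_))
    congr 2
    push_cast
    ring
  · intro S F hFm hFi hF5 κ hκ
    obtain ⟨h0, hh0⟩ := hmain 1 (fun _ => up F) ∅ (fun _ => irr_up hFi)
      (fun i j hij => absurd (Subsingleton.elim i j) hij) κ hκ
    obtain ⟨CF, hCF, hroot⟩ := Pool.Agent.N415.DRVK.conj_ht F hFi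
    have hw : wtt (fun _ : Fin 1 => up F) ∅ = F.natDegree := by
      unfold wtt
      rw [Finset.card_empty, Nat.cast_zero, add_zero, Fin.sum_univ_one, Fin.sum_univ_one]
      unfold wt
      rw [deg_up, if_pos hF5]
    rw [hw] at hh0
    set BadS := (Pool.Agent.N262.DR.badS_finite (K := K) S).toFinset with hBadS
    refine ⟨F.natDegree * |h0| + F.natDegree * (finrank ℚ K * CF) + ∑ v ∈ BadS, lN v, ?_⟩
    intro M _ _ _ x hM hx hxE W hW
    have hn := zero_le_logHeight₁ x
    have hlN : ∀ w : HeightOneSpectrum (𝓞 M), 0 ≤ lN w := fun w => Real.log_natCast_nonneg _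
    have hlK : ∀ w : HeightOneSpectrum (𝓞 K), 0 ≤ lN w := fun w => Real.log_natCast_nonneg _
    have hW0 : 0 ≤ ∑ w ∈ W, lN w := Finset.sum_nonneg fun w _ => hlN w
    have hB0 : 0 ≤ ∑ w ∈ BadS, lN w := Finset.sum_nonneg fun w _ => hlK w
    have hd0 : (0 : ℝ) ≤ F.natDegree := Nat.cast_nonneg _
    have hc1 : 0 ≤ (F.natDegree : ℝ) * |h0| := by positivity
    have hc2 : 0 ≤ (F.natDegree : ℝ) * (finrank ℚ K * CF) := by positivity
    have hfd : FiniteDimensional K M := Module.Finite.of_restrictScalars_finite ℚ K M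
    have hsmall : ∀ B : ℝ, logHeight₁ x ≤ B → (F.natDegree - κ) * logHeight₁ x ≤
        F.natDegree * B := by
      intro B hB
      have h1 : (F.natDegree : ℝ) * logHeight₁ x ≤ F.natDegree * B :=
        mul_le_mul_of_nonneg_left hB hd0
      nlinarith
    -- the point over `K`
    obtain ⟨y, hy⟩ : ∃ y : K, algebraMap K M y = x := by
      have h1 : (minpoly K x).degree = 1 := by
        rw [degree_eq_natDegree (minpoly.ne_zero (Algebra.IsIntegral.isIntegral x)), hx]
        rfl
      exact minpoly.mem_range_of_degree_eq_one K x h1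
    have hmin : minpoly K x = X - C y := by
      rw [← hy, minpoly.algebraMap_eq (algebraMap K M).injective, minpoly.eq_X_sub_C']
    have hyE : ι y ∉ E1 := fun h => hxE ⟨y, hmin, h⟩
    have hht : logHeight₁ x = logHeight₁ y := by
      rw [← hy, Pool.Agent.N572.DR.Inv.ht_ext, hM, Nat.cast_one, one_mul]
    by_cases hF0 : F.eval y = 0
    · have h1 := hroot K y (by rw [Polynomial.coe_aeval_eq_eval]; exact hF0)
      rw [← hht] at h1
      have := hsmall _ h1
      linarith
    by_cases hsm : logHeight₁ y < h0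
    · have h1 : logHeight₁ x ≤ |h0| := by
        rw [hht]
        exact hsm.le.trans (le_abs_self _)
      have := hsmall _ h1
      linarith
    rw [not_lt] at hsm
    have h1 := (hh0 (ι y) hyE (by rw [hhtm]; exact hsm) (fun _ => by
      rw [eval_up, hι]; exact hF0)).1
    rw [hhtm, ← hht] at h1
    have hU : ∀ v ∈ UU (fun _ : Fin 1 => up F) ∅ (ι y), v.valuation K y ≤ 1 ∧
        v.valuation K (F.eval y) < 1 := by
      intro v hv
      unfold UU at hv
      obtain ⟨i, hi, hv⟩ := Finset.mem_biUnion.1 hv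
      rcases i with j | i
      · have hv' : v ∈ ddm (up F) (ι y) := hv
        rw [mem_ddm (by rw [eval_up, hι]; exact hF0), eval_up] at hv'
        refine ⟨(Pool.Agent.N753.LS.fv_le_one v y).1 ?_,
          (Pool.Agent.N753.LS.fv_lt_one v (F.eval y)).1 ?_⟩
        · have := hv'.1 0
          rwa [hι] at this
        · have := hv'.2
          rwa [hι] at this
      · rw [Finset.inr_mem_disjSum] at hi
        exact absurd hi (Finset.notMem_empty _)
    have h2 : ∑ v ∈ UU (fun _ : Fin 1 => up F) ∅ (ι y), Real.log (Nv v) ≤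
        ∑ v ∈ BadS, lN v + ∑ w ∈ W, lN w := by
      have e1 : ∑ v ∈ UU (fun _ : Fin 1 => up F) ∅ (ι y), Real.log (Nv v) =
          ∑ v ∈ UU (fun _ : Fin 1 => up F) ∅ (ι y), lN v := rfl
      rw [e1, ← Finset.sum_filter_add_sum_filter_not _ (fun v => v ∈ BadS)]
      refine add_le_add ?_ ?_
      · refine Finset.sum_le_sum_of_subset_of_nonneg ?_ fun v _ _ => hlK v
        intro v hv
        exact (Finset.mem_filter.1 hv).2
      · refine Pool.Agent.N262.DR.sum_under_le W _ fun v hv => ?_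
        obtain ⟨hv1, hv2⟩ := Finset.mem_filter.1 hv
        obtain ⟨w, hw⟩ := exists_above (M := M) v
        refine ⟨w, hW w ⟨fun p hp hp0 hmem => ?_, ?_, ?_⟩, ?_⟩
        · apply hv2
          rw [hBadS, Set.Finite.mem_toFinset]
          refine ⟨p, hp, hp0, ?_⟩
          exact Pool.Agent.N415.DRVK.natCast_under hw hmem
        · rw [← hy]
          have h0 : v.asIdeal.ramificationIdx' w.asIdeal ≠ 0 :=
            Ideal.IsDedekindDomain.ramificationIdx'_ne_zero_of_liesOver w.asIdeal v.ne_bot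
          rw [← HeightOneSpectrum.valuation_liesOver M v w]
          exact (pow_le_one_iff h0).2 (hU v hv1).1
        · rw [← hy, aeval_algebraMap_apply, Polynomial.coe_aeval_eq_eval]
          have h0 : v.asIdeal.ramificationIdx' w.asIdeal ≠ 0 :=
            Ideal.IsDedekindDomain.ramificationIdx'_ne_zero_of_liesOver w.asIdeal v.ne_bot
          rw [← HeightOneSpectrum.valuation_liesOver M v w]
          exact (pow_lt_one_iff h0).2 (hU v hv1).2
        · apply HeightOneSpectrum.ext
          exact hw.over.symm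
    linarith

open Pool.Agent.N753.SU in
theorem stmOD' : StmOD :=
  Pool.Agent.N753.SU.stmOD (Pool.Agent.N692.SU.od2 Pool.Agent.N123.OD1.od1)
    Pool.Agent.N478.SU.stmOD3

open Pool.Agent.N753.SU in
theorem stmLM' : StmLM :=
  Pool.Agent.N753.SU.stmLM Pool.Agent.N348.SU.um Pool.Agent.N348.SU.zm Pool.Agent.N199.SU.stmB1
    Pool.Agent.N199.SU.stmB2 Pool.Agent.N199.SU.stmB3

end

end Pool.Agent.V8H31.PC
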