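import Mathlib
import Pool.Agent.V8H31.PC.DegB
import Pool.Agent.V8H3.Cnt3b
import Pool.Agent.N265.CV.Htc
import Pool.Agent.N572.DR.Inv

/-!
# Project PC: degrees up to `3 r + 2`
-/

set_option autoImplicit false
set_option linter.unusedSectionVars false

namespace Pool.Agent.V8H31.PC

open NumberField IsDedekindDomain Module Polynomial Pool.Agent.N753.DR
open Height (logHeight logHeight₁ mulHeight zero_le_logHeight₁)
open scoped LinearAlgebra.Projectivization TensorProduct

section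

variable {K : Type} [Field K] [NumberField K] {r : ℕ}

theorem dom_KX : IsDomain (TensorProduct K (AlgebraicClosure K) K[X]) :=
  (polyEquivTensor K (AlgebraicClosure K)).symm.toMulEquiv.isDomain (AlgebraicClosure K)[X]

theorem mem_eq (c : Fin (r + 1) → K) : mem (fun i : Fin (r + 1) => (X : K[X]) ^ (i : ℕ)) c =
    ∑ i : Fin (r + 1), C (c i) * X ^ (i : ℕ) := by
  unfold mem
  exact Finset.sum_congr rfl fun i _ => Polynomial.smul_eq_C_mul _

theorem lin_X : LinearIndependent K (fun i : Fin (r + 1) => (X : K[X]) ^ (i : ℕ)) := by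
  rw [Fintype.linearIndependent_iff]
  intro g hg i
  have h1 : (∑ j : Fin (r + 1), g j • (X : K[X]) ^ (j : ℕ)).coeff i = 0 := by rw [hg, coeff_zero]
  rw [finsetSum_coeff, Finset.sum_eq_single i] at h1
  · rwa [coeff_smul, coeff_X_pow_self, smul_eq_mul, mul_one] at h1
  · intro j _ hj
    rw [coeff_smul, coeff_X_pow, if_neg, smul_zero]
    intro h
    exact hj (Fin.ext h.symm)
  · intro h
    exact absurd (Finset.mem_univ _) h

theorem span_rep {p : K[X]} (h : p.Monic ∧ p.natDegree = r) :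
    Ideal.span {mem (fun i : Fin (r + 1) => (X : K[X]) ^ (i : ℕ)) (pt r p).rep} =
      Ideal.span {p} := by
  obtain ⟨a, ha, hrep⟩ := pt_rep h
  have h1 : mem (fun i : Fin (r + 1) => (X : K[X]) ^ (i : ℕ)) (pt r p).rep = C a * p := by
    rw [mem_eq, hrep]
    conv_rhs => rw [← cv_sum h.2]
    rw [Finset.mul_sum]
    refine Finset.sum_congr rfl fun i _ => ?_
    rw [Pi.smul_apply, smul_eq_mul, C_mul, mul_assoc]
  rw [h1]
  exact Ideal.span_singleton_mul_left_unit ((isUnit_iff_ne_zero.2 ha).map C) p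

/-- the rank of the powers -/
theorem rank_pow {L : Type} [Field L] [NumberField L] [Algebra K L] (α : L)
    (hα : IntermediateField.adjoin K {α} = ⊤) (r : ℕ) :
    min (finrank K L) (r + 1) ≤
      finrank K (Submodule.span K (Set.range fun i : Fin (r + 1) => α ^ (i : ℕ))) := by
  have hfd : FiniteDimensional K L := FiniteDimensional.right ℚ K L
  have hdeg : (minpoly K α).natDegree = finrank K L :=
    (Field.primitive_element_iff_minpoly_natDegree_eq K α).1 hα
  have hli : LinearIndependent K (fun j : Fin (min (finrank K L) (r + 1)) => α ^ (j : ℕ)) := by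
    have h1 : LinearIndependent K fun i : Fin (minpoly K α).natDegree => α ^ (i : ℕ) :=
      linearIndependent_pow α
    exact h1.comp (fun j : Fin (min (finrank K L) (r + 1)) =>
      (⟨j, by rw [hdeg]; exact lt_of_lt_of_le j.2 (min_le_left _ _)⟩ : Fin _))
      (by
        intro i j h
        have h' := congrArg Fin.val h
        exact Fin.ext h')
  have h2 := finrank_span_eq_card hli
  rw [Fintype.card_fin] at h2
  rw [← h2]
  refine Submodule.finrank_mono (Submodule.span_mono ?_)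
  rintro _ ⟨j, rfl⟩
  exact ⟨⟨j, lt_of_lt_of_le j.2 (min_le_right _ _)⟩, rfl⟩

theorem W2_eq {ρ d r : ℕ} (hd : 1 ≤ d) (hdr : d ≤ 3 * r + 2) (h : min d (r + 1) ≤ ρ) :
    Pool.Agent.N752.HY.W2 ρ d = d := by
  unfold Pool.Agent.N752.HY.W2
  rw [if_pos]
  rcases le_total d (r + 1) with h1 | h1
  · rw [min_eq_left h1] at h
    omega
  · rw [min_eq_right h1] at h
    omega

/-- **degrees up to `3 r + 2`** -/
theorem degB3 (hr : 1 ≤ r) (h3 : 3 ≤ finrank ℚ K * (r + 1)) : DegB K r (3 * r + 2) := by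
  classical
  intro S F hFm hFi hFd κ hκ
  rcases le_or_gt (F.natDegree : ℝ) κ with hdk | hdk
  · refine ⟨1, 0, one_pos, fun U hU => ?_⟩
    have he : {p : K[X] | BadF r S F κ p ∧ AtH r U p} = ∅ := by
      rw [Set.eq_empty_iff_forall_notMem]
      rintro p ⟨⟨M, _, _, _, x, -, -, -, W, -, hW⟩, -⟩
      have e1 : 0 ≤ ∑ w ∈ W, lN w := Finset.sum_nonneg fun w _ => Real.log_natCast_nonneg _
      have e2 : ((F.natDegree : ℝ) - κ) * Height.logHeight₁ x ≤ 0 :=
        mul_nonpos_of_nonpos_of_nonneg (by linarith) (Height.zero_le_logHeight₁ x)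
      linarith
    rw [he]
    simp
  obtain ⟨L, _, _, _, θ, a, htop, ha, hfr, hmp⟩ := Pool.Agent.N262.DR.exists_field F hFm hFi
  obtain ⟨α, hα⟩ : ∃ α : L, α = (θ : L) / a := ⟨_, rfl⟩
  have hfd : FiniteDimensional K L := FiniteDimensional.right ℚ K L
  rw [← hα] at hmp
  have hαtop : IntermediateField.adjoin K {α} = ⊤ := by
    rw [Field.primitive_element_iff_minpoly_natDegree_eq, hmp, hfr]
  obtain ⟨f, hf⟩ : ∃ f : Fin (r + 1) → K[X], f = fun i : Fin (r + 1) => (X : K[X]) ^ (i : ℕ) := ⟨_, rfl⟩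
  obtain ⟨ψ, hψ⟩ : ∃ ψ : K[X] →ₐ[K] L, ψ = aeval α := ⟨_, rfl⟩
  have hψf : ∀ i, ψ (f i) = α ^ (i : ℕ) := by
    intro i
    rw [hψ, hf]
    simp
  have hFα : ψ F = 0 := by rw [hψ, ← hmp]; exact minpoly.aeval K α
  have hfull : Pool.Agent.V8H3.Cnt3.Full K (fun i => ψ (f i)) := by
    refine ⟨0, ?_, ?_⟩
    · show ψ (f 0) ≠ 0
      rw [hψf]
      simp
    · rw [eq_top_iff, ← hαtop, IntermediateField.adjoin_simple_le_iff]
      refine IntermediateField.subset_adjoin K _ ⟨⟨1, by omega⟩, ?_⟩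
      simp only [hψf]
      simp
  obtain ⟨ν, C1, hν, hcnt⟩ := Pool.Agent.V8H3.Cnt3.cnt3 K K[X] L dom_KX r 1 h3 f
    (by rw [hf]; exact lin_X) ψ (fun _ => F) (fun _ => hFα) hfull S (κ / 2) (by positivity)
  have hwg : (Pool.Agent.V8H3.Cnt3.wg K fun i => ψ (f i)) = F.natDegree := by
    unfold Pool.Agent.V8H3.Cnt3.wg
    have e1 : (fun i => ψ (f i)) = fun i : Fin (r + 1) => α ^ (i : ℕ) := funext hψf
    rw [e1, ← hfr]
    exact W2_eq finrank_pos (by rw [hfr]; exact hFd) (rank_pow α hαtop r)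
  rw [hwg] at hcnt
  obtain ⟨C2, hC2, hht⟩ := ht_cv (K := K) r hr
  obtain ⟨C3, hC3⟩ := Pool.Agent.N265.CV.t K K[X] (r + 1) f (by rw [hf]; exact lin_X)
  obtain ⟨CA, hCA, hA⟩ := Pool.Agent.N130.PC.Cnt.t K r hr
  -- the bound for the small heights
  obtain ⟨B, hB⟩ : ∃ B : ℝ, B = 2 * F.natDegree * |C3| / κ + |C3| := ⟨_, rfl⟩
  have hB0 : 0 ≤ B := by rw [hB]; positivity
  obtain ⟨hBf, hBc⟩ := hA B hB0
  refine ⟨min ν (r + 1), |C1| * Real.exp (|(r : ℝ) + 1 - ν| * C2) + CA * Real.exp ((r + 1) * B),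
    lt_min hν (by positivity), fun U hU => ?_⟩
  obtain ⟨hPf, hPc⟩ := hcnt (U + C2) (by linarith)
  have hfin : {p : K[X] | BadF r S F κ p ∧ AtH r U p}.Finite := (hA U hU).1.subset fun p hp => hp.2
  refine ⟨hfin, ?_⟩
  have hsub : {p : K[X] | BadF r S F κ p ∧ AtH r U p} ⊆ {p : K[X] | AtH r B p} ∪
      ({p : K[X] | BadF r S F κ p ∧ AtH r U p} \ {p : K[X] | AtH r B p}) := by
    intro p hp
    by_cases h : AtH r B p
    · exact Or.inl h
    · exact Or.inr ⟨hp, h⟩
  have hmaps : Set.MapsTo (pt r) ({p : K[X] | BadF r S F κ p ∧ AtH r U p} \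
      {p : K[X] | AtH r B p}) {P : ℙ K (Fin (r + 1) → K) |
        BadC f (fun _ : Fin 1 => F) S ((F.natDegree : ℕ) - κ / 2) P ∧
        logHeight P.rep ≤ U + C2} := by
    rintro p ⟨⟨⟨M, iF, iN, iA, x, hM, hx, hxp, W, hW, hWs⟩, ⟨M', _, _, _, x', hM', hx', hxp', hU'⟩⟩,
      hpB⟩
    have hfdM : FiniteDimensional K M := Module.Finite.of_restrictScalars_finite ℚ K M
    have hhx : logHeight₁ x = logHeight₁ x' :=
      Pool.Agent.N572.DR.Inv.ht_inv x x' (hx.trans hM.symm) (hx'.trans hM'.symm)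
        (hxp.trans hxp'.symm)
    have hmon : p.Monic ∧ p.natDegree = r := by
      rw [← hxp]
      exact ⟨minpoly.monic (Algebra.IsIntegral.isIntegral x), hx⟩
    have h1 := hht M x hM hx
    rw [hxp] at h1
    have hsurj : Function.Surjective (aeval x : K[X] →ₐ[K] M) := by
      have e1 : Algebra.adjoin K {x} = ⊤ := by
        have e2 := (Field.primitive_element_iff_minpoly_natDegree_eq K x).2 (hx.trans hM.symm)
        have e3 := IntermediateField.adjoin_simple_toSubalgebra_of_isAlgebraic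
          (F := K) (IsAlgebraic.of_finite K x)
        rw [← e3, e2]
        rfl
      intro y
      have hy : y ∈ Algebra.adjoin K {x} := by rw [e1]; exact Algebra.mem_top
      rw [Algebra.adjoin_singleton_eq_range_aeval] at hy
      exact hy
    have hker : RingHom.ker (aeval x : K[X] →ₐ[K] M) = Ideal.span {mem f (pt r p).rep} := by
      rw [hf, span_rep hmon, ← hxp]
      exact minpoly.ker_aeval_eq_span_minpoly K x
    have h2 := hC3 M (aeval x) (pt r p).rep hsurj hker (pt r p).rep_nonzero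
    rw [show finrank K[X] K[X] = 1 from Module.finrank_self _, Nat.cast_one, one_mul] at h2
    have e4 : (aeval x) (algebraMap K[X] K[X] X) = x := by simp
    rw [e4] at h2
    refine ⟨⟨M, iF, iN, iA, aeval x, hsurj, hker, W, ?_, ?_⟩, ?_⟩
    · intro w hw
      refine hW w ⟨hw.1, ?_, hw.2.2 0⟩
      have := hw.2.1
      rwa [e4] at this
    · refine lt_of_lt_of_le hWs ?_
      have h5 : B < logHeight₁ x := by
        by_contra h6
        rw [not_lt] at h6
        exact hpB ⟨M, iF, iN, iA, x, hM, hx, hxp, h6⟩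
      have h6 : logHeight₁ x ≤ logHeight (pt r p).rep + |C3| := h2.trans
        (add_le_add le_rfl (le_abs_self _))
      have h7 : 2 * F.natDegree * |C3| / κ ≤ logHeight (pt r p).rep := by
        rw [hB] at h5
        linarith
      rw [div_le_iff₀ hκ] at h7
      have h8 : ((F.natDegree : ℝ) - κ) * logHeight₁ x ≤
          ((F.natDegree : ℝ) - κ) * (logHeight (pt r p).rep + |C3|) :=
        mul_le_mul_of_nonneg_left h6 (by linarith)
      have h9 : 0 ≤ κ * |C3| := by positivity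
      nlinarith
    · rw [← hhx] at hU'
      linarith
  have hinj : Set.InjOn (pt r) ({p : K[X] | BadF r S F κ p ∧ AtH r U p} \
      {p : K[X] | AtH r B p}) := by
    rintro p ⟨⟨-, hp⟩, -⟩ p' ⟨⟨-, hp'⟩, -⟩ h
    exact pt_inj (Pool.Agent.N199.PC.atH_monic hp) (Pool.Agent.N199.PC.atH_monic hp') h
  have k1 : ({p : K[X] | BadF r S F κ p ∧ AtH r U p}.ncard : ℝ) ≤
      ({p : K[X] | AtH r B p}.ncard : ℝ) +
        (({p : K[X] | BadF r S F κ p ∧ AtH r U p} \ {p : K[X] | AtH r B p}).ncard : ℝ) := by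
    have h1 := Set.ncard_le_ncard hsub (hBf.union (hfin.subset Set.sdiff_subset))
    exact_mod_cast h1.trans (Set.ncard_union_le _ _)
  have k2 : ((({p : K[X] | BadF r S F κ p ∧ AtH r U p} \ {p : K[X] | AtH r B p}).ncard : ℕ) : ℝ) ≤
      C1 * Real.exp (((r + 1 : ℕ) - ν) * (U + C2)) := by
    refine le_trans ?_ hPc
    exact_mod_cast Set.ncard_le_ncard_of_injOn (pt r) hmaps hinj hPf
  have k3 : C1 * Real.exp (((r + 1 : ℕ) - ν) * (U + C2)) ≤
      |C1| * Real.exp (|(r : ℝ) + 1 - ν| * C2) * Real.exp ((r + 1 - min ν (r + 1)) * U) := by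
    rw [mul_assoc, ← Real.exp_add]
    refine mul_le_mul (le_abs_self _) (Real.exp_le_exp.2 ?_) (Real.exp_pos _).le (abs_nonneg _)
    push_cast
    have e1 := mul_le_mul_of_nonneg_right (le_abs_self ((r : ℝ) + 1 - ν)) hC2
    have e2 : ((r : ℝ) + 1 - ν) * U ≤ (r + 1 - min ν (r + 1)) * U :=
      mul_le_mul_of_nonneg_right (by linarith [min_le_left ν ((r : ℝ) + 1)]) hU
    linarith
  have k4 : (1 : ℝ) ≤ Real.exp ((r + 1 - min ν (r + 1)) * U) :=
    Real.one_le_exp (mul_nonneg (by linarith [min_le_right ν ((r : ℝ) + 1)]) hU)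
  have k5 : CA * Real.exp ((r + 1) * B) ≤ CA * Real.exp ((r + 1) * B) *
      Real.exp ((r + 1 - min ν (r + 1)) * U) :=
    le_mul_of_one_le_right (by positivity) k4
  rw [add_mul]
  linarith

end

end Pool.Agent.V8H31.PC
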