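import Mathlib
import Pool.Agent.V8H31.PC.Final
import Pool.Agent.V8H31.PC.Conv
import Pool.Agent.V8H31.PC.Deg1
import Pool.Agent.V8H31.PC.Deg3
import Pool.Agent.V8H31.PC.VkB
import Pool.Agent.V8H31.PC.OneSet2
import Pool.Agent.N572.DR.Diag
import Pool.Agent.N31.FR.Tot

/-!
# Project PC: the theorem
-/

set_option autoImplicit false
set_option linter.unusedSectionVars false

namespace Pool.Agent.V8H31.PC

open NumberField IsDedekindDomain Module Polynomial Pool.Agent.N753.DR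
open Height (logHeight logHeight₁ mulHeight zero_le_logHeight₁)

section

/-- points of degree `r` on the line, divisors of degree up to `3 r + 2` -/
theorem vk3 (K : Type) [Field K] [NumberField K] (r : ℕ) (hr : 1 ≤ r) :
    ∃ (E : Set K[X]) (C : ℝ), 1 ≤ C ∧ (∀ U : ℝ, 0 ≤ U →
      {p | p ∈ E ∧ AtH r U p}.Finite ∧
      ({p | p ∈ E ∧ AtH r U p}.ncard : ℝ) ≤ C * Real.exp ((r + 1) * U - √U)) ∧
      GoodVk r (3 * r + 2) E := by
  rcases Nat.lt_or_ge 1 r with h | h
  · have h3 : 3 ≤ finrank ℚ K * (r + 1) := by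
      have : 0 < finrank ℚ K := finrank_pos
      nlinarith
    obtain ⟨E, hE1, hE2⟩ := keB Pool.Agent.N572.DR.Diag.t (degB3 (K := K) hr h3)
    refine ⟨E, 1, le_rfl, fun U hU => ⟨(hE1 U hU).1, ?_⟩, vkB hE2⟩
    rw [one_mul]
    exact (hE1 U hU).2
  · obtain rfl : r = 1 := le_antisymm h hr
    obtain ⟨E, hE1, hE2⟩ := ke1 (K := K) Pool.Agent.N348.SU.um Pool.Agent.N348.SU.zm stmLM' stmOD'
    exact ⟨E, 2, one_le_two, hE1, vkB hE2⟩

open Classical in
/-- the degree of the points above `a` which are not in `D` -/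
noncomputable def rest {k : Type} (A : Type) [Field k] [CommRing A] [Algebra k A] [Algebra k[X] A]
    (D : Finset (HeightOneSpectrum A)) (a : k) : ℝ :=
  ∑ᶠ 𝔭 : HeightOneSpectrum A, if coord k A - algebraMap k A a ∈ 𝔭.asIdeal ∧ 𝔭 ∉ D then
    (finrank k (A ⧸ 𝔭.asIdeal) : ℝ) else 0

open Classical in
theorem rest_eq {k A : Type} [Field k] [NumberField k] [CommRing A] [IsDedekindDomain A]
    [Algebra k A] [Algebra k[X] A] [IsScalarTower k k[X] A] [Module.Finite k[X] A]
    [FaithfulSMul k[X] A] (D : Finset (HeightOneSpectrum A)) (a : k) :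
    rest A D a = ∑ 𝔭 ∈ (above_fin (k := k) (A := A) a).toFinset.filter (fun 𝔭 => 𝔭 ∉ D),
      (finrank k (A ⧸ 𝔭.asIdeal) : ℝ) := by
  unfold rest
  rw [finsum_eq_sum_of_support_subset
    (s := (above_fin (k := k) (A := A) a).toFinset.filter (fun 𝔭 => 𝔭 ∉ D))]
  · refine Finset.sum_congr rfl fun 𝔭 h𝔭 => ?_
    rw [Finset.mem_filter, Set.Finite.mem_toFinset] at h𝔭
    exact if_pos h𝔭
  · intro 𝔭 h𝔭
    rw [Finset.mem_coe, Finset.mem_filter, Set.Finite.mem_toFinset]
    by_contra hc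
    exact h𝔭 (if_neg hc)

open Classical in
/-- **the theorem** -/
theorem core (K : Type) [Field K] [NumberField K] {m : ℕ} (hm : 0 < m) (r : Fin m → ℕ)
    (hr : ∀ i, 1 ≤ r i) :
    ∃ E : Set (Fin m → K[X]),
      (∃ C : ℝ, 0 < C ∧ ∀ T : ℝ, 0 ≤ T → {P | P ∈ E ∧ HT r T P}.Finite ∧
        ({P | P ∈ E ∧ HT r T P}.ncard : ℝ) ≤ C * Real.exp (DD r * T - √T)) ∧
      ∀ (k : Type) [Field k] [NumberField k] [Algebra K k] (A : Fin m → Type)
        [∀ i, CommRing (A i)] [∀ i, IsDedekindDomain (A i)] [∀ i, Algebra k (A i)]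
        [∀ i, Algebra k[X] (A i)] [∀ i, IsScalarTower k k[X] (A i)]
        [∀ i, Module.Finite k[X] (A i)] [∀ i, FaithfulSMul k[X] (A i)]
        (q : Fin m → ℕ) (a : ∀ i, Fin (q i) → k), (∀ i, Function.Injective (a i)) →
        (∀ i j, (minpoly K (a i j)).natDegree ≤ 3 * r i + 2) →
        ∀ (D : ∀ i, Finset (HeightOneSpectrum (A i))) (Y : ∀ i, HeightOneSpectrum (A i) → Finset (A i)),
        (∀ i, ∀ 𝔭 ∈ D i, (Y i 𝔭 : Set (A i)) ⊆ 𝔭.asIdeal) →
        ∀ (G : MvPolynomial (Fin m) k), G ≠ 0 → ∀ (S' : Finset (HeightOneSpectrum (𝓞 k)))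
          (M ε : ℝ), 0 ≤ M → 0 < ε →
        ∃ C : ℝ, 0 ≤ C ∧ ∀ (L : Type) [Field L] [NumberField L] [Algebra K L] [Algebra k L]
          [IsScalarTower K k L] (φ : ∀ i, A i →ₐ[k] L),
          (∀ i, (minpoly K (φ i (coord k (A i)))).natDegree = r i) →
          (fun i => minpoly K (φ i (coord k (A i)))) ∉ E →
          (∀ i j, φ i (coord k (A i)) ≠ algebraMap k L (a i j)) →
          MvPolynomial.aeval (fun i => φ i (coord k (A i))) G ≠ 0 →
          ∀ N : Finset (HeightOneSpectrum (𝓞 L)),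
            (∀ u i, u.valuation L (φ i (coord k (A i))) ≤ 1 →
              (∃ 𝔭 ∈ D i, ∀ z ∈ Y i 𝔭, u.valuation L (φ i z) < 1) → u ∈ N) →
            ∑ i, (∑ j, (1 - rest (A i) (D i) (a i j) / finrank k[X] (A i)) - ε) *
              logHeight₁ (φ i (coord k (A i))) +
              M * prZ (fun v : HeightOneSpectrum (𝓞 L) => ∃ p ∈ S',
                v.asIdeal.comap (algebraMap (𝓞 k) (𝓞 L)) = p.asIdeal) (fun i => G.degreeOf i)
                (fun i => φ i (coord k (A i)))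
                (MvPolynomial.aeval (fun i => φ i (coord k (A i))) G) ≤
              ∑ u ∈ N, lN u + Real.log |(discr L : ℝ)| + finrank ℚ L * C := by
  obtain ⟨E, hE, hprox, hcoin, hvk⟩ := one_set (K := K) hm r (fun i => 3 * r i + 2) hr
    fun i => vk3 K (r i) (hr i)
  refine ⟨E, hE, ?_⟩
  intro k _ _ _ A _ _ _ _ _ _ _ q a ha hdeg D Y hY G hG S' M ε hM hε
  choose v y F hF hy hrk hsm using fun i => conv (a i) (D i) (Y i) (hY i)
  obtain ⟨C₁, hC₁, h1⟩ := main hm hr hcoin hvk k A q a ha hdeg v y F hF hy (ε / 2) (by positivity)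
  obtain ⟨C₂, hC₂, h2⟩ := stmPrk K m r E hprox k (fun i => G.degreeOf i) G hG (fun i => le_rfl) S'
    (ε / (2 * (M + 1))) (by positivity)
  refine ⟨C₁ + M * C₂, by positivity, ?_⟩
  intro L _ _ _ _ _ φ hφ hφE hφa hφG N hN
  obtain ⟨x, hx⟩ : ∃ x : Fin m → L, x = fun i => φ i (coord k (A i)) := ⟨_, rfl⟩
  have k1 := h1 L φ hφ hφE hφa N (by
    intro u i hu hj
    obtain ⟨j, -, hl⟩ := hj
    refine hN u i hu ?_
    exact hsm i (fun z => u.valuation L (φ i z) < 1)
      (by rw [map_one, map_one]; exact lt_irrefl _)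
      (by
        intro z z' hzz
        by_contra hcon
        push Not at hcon
        rw [map_mul, map_mul] at hzz
        exact absurd hzz (not_lt.2 (one_le_mul hcon.1 hcon.2))) j hl)
  have k2 := h2 L x (by rw [hx]; exact hφ) (by rw [hx]; exact hφE) (by rw [hx]; exact hφG)
  rw [hx] at k2
  obtain ⟨P, hP⟩ : ∃ P : ℝ, P = prZ (fun v : HeightOneSpectrum (𝓞 L) => ∃ p ∈ S',
                v.asIdeal.comap (algebraMap (𝓞 k) (𝓞 L)) = p.asIdeal) (fun i => G.degreeOf i)
                (fun i => φ i (coord k (A i)))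
                (MvPolynomial.aeval (fun i => φ i (coord k (A i))) G) := ⟨_, rfl⟩
  have k2' : P ≤ ε / (2 * (M + 1)) * ∑ i, logHeight₁ (φ i (coord k (A i))) +
      finrank ℚ L * C₂ := by
    rw [hP]
    exact k2
  rw [← hP]
  have hnn : 0 ≤ ∑ i, logHeight₁ (φ i (coord k (A i))) :=
    Finset.sum_nonneg fun i _ => zero_le_logHeight₁ _
  have k3 : M * P ≤ ε / 2 * ∑ i, logHeight₁ (φ i (coord k (A i))) + finrank ℚ L * (M * C₂) := by
    have e1 := mul_le_mul_of_nonneg_left k2' hM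
    have e2 : M * (ε / (2 * (M + 1))) ≤ ε / 2 := by
      rw [mul_div_assoc', div_le_div_iff₀ (by positivity) (by positivity)]
      nlinarith
    have e3 := mul_le_mul_of_nonneg_right e2 hnn
    nlinarith
  have k4 : ∑ i, (∑ j, (1 - rest (A i) (D i) (a i j) / finrank k[X] (A i)) - ε) *
      logHeight₁ (φ i (coord k (A i))) ≤
      ∑ i, (q i - (∑ j, (finrank k (A i ⧸ F i j) : ℝ)) / finrank k[X] (A i) - ε / 2) *
        logHeight₁ (φ i (coord k (A i))) - ε / 2 * ∑ i, logHeight₁ (φ i (coord k (A i))) := by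
    rw [Finset.mul_sum, ← Finset.sum_sub_distrib]
    refine Finset.sum_le_sum fun i _ => ?_
    rw [← sub_mul]
    refine mul_le_mul_of_nonneg_right ?_ (zero_le_logHeight₁ _)
    have e1 : ∑ j, (1 - rest (A i) (D i) (a i j) / finrank k[X] (A i)) =
        q i - (∑ j, rest (A i) (D i) (a i j)) / finrank k[X] (A i) := by
      rw [Finset.sum_sub_distrib, Finset.sum_div]
      simp
    rw [e1]
    have e2 : (∑ j, (finrank k (A i ⧸ F i j) : ℝ)) / finrank k[X] (A i) ≤
        (∑ j, rest (A i) (D i) (a i j)) / finrank k[X] (A i) := by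
      refine div_le_div_of_nonneg_right (Finset.sum_le_sum fun j _ => ?_) (Nat.cast_nonneg _)
      rw [rest_eq]
      exact hrk i j
    linarith
  rw [mul_add]
  linarith

/-- the number of the tuples from below -/
theorem ht_low {K : Type} [Field K] [NumberField K] {m : ℕ} (r : Fin m → ℕ)
    (hr : ∀ i, 1 ≤ r i) : ∃ c T₀ : ℝ, 0 < c ∧ ∀ T : ℝ, T₀ ≤ T →
      c * Real.exp (DD r * T) ≤ ({P : Fin m → K[X] | HT r T P}.ncard : ℝ) := by
  classical
  choose c U₀ hc h using fun i => Pool.Agent.N31.FR.t K (r i) (hr i)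
  refine ⟨∏ i, c i, ∑ i, |U₀ i|, Finset.prod_pos fun i _ => hc i, fun T hT => ?_⟩
  have hTi : ∀ i, U₀ i ≤ r i * T := by
    intro i
    have h1 : |U₀ i| ≤ T := le_trans (Finset.single_le_sum (f := fun i => |U₀ i|)
      (fun i _ => abs_nonneg _) (Finset.mem_univ i)) hT
    have h2 : (1 : ℝ) ≤ r i := by exact_mod_cast hr i
    have h3 : 0 ≤ T := (abs_nonneg _).trans h1
    have h4 := le_abs_self (U₀ i)
    nlinarith
  choose Q hQ hQc using fun i => h i _ (hTi i)
  have hT0 : 0 ≤ T := le_trans (Finset.sum_nonneg fun i _ => abs_nonneg (U₀ i)) hT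
  have hfin := Pool.Agent.N225.PC.ht_finite Pool.Agent.N130.PC.Cnt.t K r hr T hT0
  have hsub : ((Fintype.piFinset Q : Finset (Fin m → K[X])) : Set (Fin m → K[X])) ⊆
      {P : Fin m → K[X] | HT r T P} := by
    intro P hP i
    exact hQ i _ (Fintype.mem_piFinset.1 (Finset.mem_coe.1 hP) i)
  have h1 := Set.ncard_le_ncard hsub hfin
  rw [Set.ncard_coe_finset, Fintype.card_piFinset] at h1
  calc (∏ i, c i) * Real.exp (DD r * T) = ∏ i, (c i * Real.exp ((r i + 1) * (r i * T))) := by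
        rw [Finset.prod_mul_distrib, ← Real.exp_sum]
        congr 2
        unfold DD
        rw [Finset.sum_mul]
        exact Finset.sum_congr rfl fun i _ => by ring
    _ ≤ ∏ i, ((Q i).card : ℝ) :=
        Finset.prod_le_prod (fun i _ => mul_nonneg (hc i).le (Real.exp_pos _).le) fun i _ => hQc i
    _ ≤ _ := by exact_mod_cast h1

end

end Pool.Agent.V8H31.PC
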